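import Pool.Agent.H28.CNC.Sgm
import Pool.Agent.H82.CNC.Afc

/-!
# The frame of the time and two coordinates and the charts of `u` and `N`

`puo`: the chart of `N` as a polynomial of the frame and of `u`. `ptw_at`: the own line. `sgm_ex`: the
own line of a window in the coordinates of the frame.
-/

set_option autoImplicit false

namespace Pool.CNC28

open Finset Real MvPolynomial
open Pool.Agent.H49.Ent Pool.Agent.H32.Dense Pool.STK Pool.KA Pool.KSAT Pool.K2S Pool.PB Pool.S6C
open Pool.GEN Pool.CHT Pool.CHX Pool.ISO Pool.D2R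
open Pool.PB.Trl (rt rt_mem t_rt)
open Pool.CUB46 (phi q2 hh h3 gpt eval_phi)
open Pool.AFF82 (AfN afc afp afs pul vlc eval_bd pd_bd deg_bd eval_afs afs_deg afp_afc afc_add pul_afc)

section frame

variable {m : ℕ} (c : ℕ → Fin m) (N : AfN) (o s0 s1 : ℕ)

/-- **The chart of `N`** as a polynomial of the frame and of `u = c 2`. -/
noncomputable def puo (Q : MvPolynomial (Option (Fin m)) ℝ) : MvPolynomial (Option (Fin 3)) ℝ :=
  bind₁ (fun k => if k = some (c 2) then X none else rename some (afs c N o s0 s1 0 k)) Q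

variable {c N o s0 s1}

theorem afp_two (hc : Set.InjOn c (Set.Iio 3)) (u : ℝ) (z : Fin 3 → ℝ) :
    afp c N o s0 s1 u z (some (c 2)) = u := by
  have h20 : c 2 ≠ c 0 := fun h => by
    have := hc (show 2 < 3 by norm_num) (show 0 < 3 by norm_num) h
    omega
  have h21 : c 2 ≠ c 1 := fun h => by
    have := hc (show 2 < 3 by norm_num) (show 1 < 3 by norm_num) h
    omega
  unfold afp
  rw [if_neg (by simp), if_neg (fun h => h20 (Option.some_injective _ h)),
    if_neg (fun h => h21 (Option.some_injective _ h)), if_pos rfl]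

theorem afp_ne (u v : ℝ) (z : Fin 3 → ℝ) {k : Option (Fin m)} (hk : k ≠ some (c 2)) :
    afp c N o s0 s1 u z k = afp c N o s0 s1 v z k := by
  unfold afp
  split_ifs
  · rfl
  · rfl
  · rfl
  · rfl

theorem eval_rs (z : Fin 3 → ℝ) (u : ℝ) (P : MvPolynomial (Fin 3) ℝ) :
    eval (pn z u) (rename some P) = eval z P := by
  rw [eval_rename]
  rfl

theorem puo_sub (hc : Set.InjOn c (Set.Iio 3)) (z : Fin 3 → ℝ) (u : ℝ) :
    (fun k => eval (pn z u) (if k = some (c 2) then X none else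
      rename some (afs c N o s0 s1 0 k))) = afp c N o s0 s1 u z := by
  funext k
  by_cases hk : k = some (c 2)
  · subst hk
    rw [if_pos rfl, eval_X, afp_two hc]
    rfl
  · rw [if_neg hk, eval_rs, eval_afs, map_zero]
    exact afp_ne 0 u z hk

theorem eval_puo (hc : Set.InjOn c (Set.Iio 3)) (Q : MvPolynomial (Option (Fin m)) ℝ)
    (z : Fin 3 → ℝ) (u : ℝ) :
    eval (pn z u) (puo c N o s0 s1 Q) = eval (afp c N o s0 s1 u z) Q := by
  unfold puo
  rw [eval_bd, puo_sub hc]

theorem pd_rs (P : MvPolynomial (Fin 3) ℝ) :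
    pderiv none (rename some P : MvPolynomial (Option (Fin 3)) ℝ) = 0 := by
  classical
  induction P using MvPolynomial.induction_on with
  | C a => rw [rename_C, pderiv_C]
  | add P Q hP hQ => rw [map_add, map_add, hP, hQ, add_zero]
  | mul_X P j hP =>
    rw [map_mul, rename_X, pderiv_mul, hP, zero_mul, zero_add, pderiv_X_of_ne (by simp), mul_zero]

/-- The derivative in the direction `u`. -/
theorem pd_puo (hc : Set.InjOn c (Set.Iio 3)) (Q : MvPolynomial (Option (Fin m)) ℝ)
    (z : Fin 3 → ℝ) (u : ℝ) : eval (pn z u) (pderiv none (puo c N o s0 s1 Q)) =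
      eval (afp c N o s0 s1 u z) (pderiv (some (c 2)) Q) := by
  classical
  unfold puo
  rw [pd_bd, puo_sub hc, Finset.sum_eq_single (some (c 2))]
  · rw [if_pos rfl, pderiv_X_self, map_one, mul_one]
  · intro k _ hk
    rw [if_neg hk, pd_rs, map_zero, mul_zero]
  · intro h
    exact absurd (Finset.mem_univ _) h

theorem puo_deg {Q : MvPolynomial (Option (Fin m)) ℝ} {D : ℕ} (hQ : Q.totalDegree ≤ D) :
    (puo c N o s0 s1 Q).totalDegree ≤ D := by
  unfold puo
  refine (deg_bd _ (K := 1) (fun k => ?_) Q).trans (by rw [mul_one]; exact hQ)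
  by_cases hk : k = some (c 2)
  · rw [if_pos hk, totalDegree_X]
  · rw [if_neg hk]
    refine (totalDegree_rename_le _ _).trans ?_
    exact afs_deg (by rw [totalDegree_zero]; exact Nat.zero_le _) le_rfl k

/-- **The values of a chart over `u`** in the coordinates of the frame. -/
theorem afp_dep3 (hc : Set.InjOn c (Set.Iio 3)) {Q : MvPolynomial (Option (Fin m)) ℝ}
    (hQ : DepC c 3 Q) (b : Option (Fin m) → ℝ) (u : ℝ) :
    eval (afp c N o s0 s1 u (afc c N o s0 s1 b)) Q =
      eval (Function.update b (some (c 2)) u) Q := by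
  have hc2 : Set.InjOn c (Set.Iio 2) := hc.mono fun i hi => by
    have : i < 2 := hi
    show i < 3
    omega
  obtain ⟨h0, h1, h2⟩ := afp_afc (c := c) (N := N) (o := o) (s0 := s0) (s1 := s1) hc2 u b
  have hne : ∀ l < 2, some (c l) ≠ some (c 2) := fun l hl h => by
    have := hc (show l < 3 by omega) (show 2 < 3 by norm_num) (Option.some_injective _ h)
    omega
  refine hQ _ _ ?_ fun l hl => ?_
  · rw [h0, Function.update_of_ne (by simp)]
  · rcases l with _ | _ | _ | l
    · rw [h1, Function.update_of_ne (hne 0 (by norm_num))]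
    · rw [h2, Function.update_of_ne (hne 1 (by norm_num))]
    · show afp c N o s0 s1 u (afc c N o s0 s1 b) (some (c 2)) = _
      rw [afp_two hc]
      show u = Function.update b (some (c 2)) u (some (c 2))
      rw [Function.update_self]
    · omega

end frame

variable {m J : ℕ}

/-- **The own line** at the relative time `τ`. -/
theorem ptw_at (F : Fam m J) {w : ℕ} (hw : w ≤ J) (ω : F.Ω) (τ : ℝ) :
    ptw F w ω τ = fun k => bt F ω k + (τ - rt F w ω) / 2 ^ w * bd F ω k := by
  funext k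
  rw [← eval_lc F hw ω k]
  unfold ptw
  cases k with
  | none =>
    simp only [lc, bd, Polynomial.eval_add, Polynomial.eval_mul, Polynomial.eval_C,
      Polynomial.eval_X]
    ring
  | some j =>
    have e2 : (slam F w ω).1.2 j = F.d ω j := rfl
    simp only [lc, bd, e2, Polynomial.eval_add, Polynomial.eval_mul, Polynomial.eval_C,
      Polynomial.eval_X]
    ring

/-- **The own line of a window** in the coordinates of the frame. -/
theorem sgm_ex {F : Fam m J} {c : ℕ → Fin m} {N : AfN} {o s0 s1 w : ℕ} {ω : F.Ω}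
    {Q2 Q3 : MvPolynomial (Option (Fin m)) ℝ} {ε₀ εN S : ℝ} (hc : Set.InjOn c (Set.Iio 3))
    (hw : w ≤ J) (h2 : DepC c 2 Q2) (h3 : DepC c 3 Q3) (hε : 0 < ε₀)
    (own2 : ∀ τ ∈ Set.Icc (0 : ℝ) 1,
      |ptw F w ω τ (some (c 2)) - eval (ptw F w ω τ) Q2| ≤ ε₀)
    (own3 : ∀ τ ∈ Set.Icc (0 : ℝ) 1,
      |ptw F w ω τ (some (c 3)) - eval (ptw F w ω τ) Q3| ≤ εN)
    (slp : ∀ τ ∈ Set.Icc (0 : ℝ) 1, ∀ τ' ∈ Set.Icc (0 : ℝ) 1, ∀ y : ℝ, |y| ≤ 4 * ε₀ →
      |eval (Function.update (ptw F w ω τ) (some (c 2)) (ptw F w ω τ (some (c 2)) + y))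
          (pderiv (some (c 2)) Q3) - eval (ptw F w ω τ') (pderiv (some (c 2)) Q3)| ≤ S) :
    ∃ r₀ α β α' β' a, Sgm (puo c N o s0 s1 Q3) (pul c N o s0 s1 0 Q2)
      (afc c N o s0 s1 (bt F ω)) (vlc c N o s0 s1 (bd F ω)) (2 ^ o / 2 ^ w) r₀ α β α' β' ε₀ εN
      S a := by
  have hc2 : Set.InjOn c (Set.Iio 2) := hc.mono fun i hi => by
    have : i < 2 := hi
    show i < 3
    omega
  have hz : ∀ τ : ℝ, (fun i => afc c N o s0 s1 (bt F ω) i +
      2 ^ o / 2 ^ w * (τ - rt F w ω) * vlc c N o s0 s1 (bd F ω) i) =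
      afc c N o s0 s1 (ptw F w ω τ) := by
    intro τ
    funext i
    rw [ptw_at F hw, afc_add]
    ring
  have hl : ∀ (k : Option (Fin m)) (τ : ℝ), bt F ω k - rt F w ω / 2 ^ w * bd F ω k +
      1 / 2 ^ w * bd F ω k * τ = ptw F w ω τ k := by
    intro k τ
    rw [ptw_at F hw]
    ring
  refine ⟨rt F w ω, bt F ω (some (c 2)) - rt F w ω / 2 ^ w * bd F ω (some (c 2)),
    1 / 2 ^ w * bd F ω (some (c 2)),
    bt F ω (some (c 3)) - rt F w ω / 2 ^ w * bd F ω (some (c 3)),
    1 / 2 ^ w * bd F ω (some (c 3)), eval (ptw F w ω 0) (pderiv (some (c 2)) Q3), ?_⟩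
  refine ⟨rt_mem F w ω, by positivity, hε, fun τ hτ => ?_, fun τ hτ => ?_, fun τ hτ y hy => ?_⟩
  · rw [hz, hl, pul_afc hc2 h2]
    exact own2 τ hτ
  · rw [hz, hl, hl, eval_puo hc, afp_dep3 hc h3, Function.update_eq_self]
    exact own3 τ hτ
  · rw [hz, hl, pd_puo hc, afp_dep3 hc (h3.pderiv 2)]
    exact slp τ hτ 0 ⟨le_rfl, zero_le_one⟩ y hy

end Pool.CNC28
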