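import Pool.Agent.H28.CNC.Nva
import Pool.Agent.H28.CNC.Fpu
import Pool.Agent.H2.GEN.CloB

/-!
# The charts of `u` and `N` of all windows in one frame

`Nph`: the charts of the windows: closed, with own lines, slopes, balancings. `Frm`: the frame and the
cubes. `nph_core`: on a part of the event the charts of `u` and `N` of the windows are a chain `Chn`,
and the own value of the slope is the closed number of the window.
-/

set_option autoImplicit false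

namespace Pool.CNC28

open Finset Real MvPolynomial
open Pool.Agent.H49.Ent Pool.Agent.H32.Dense Pool.STK Pool.KA Pool.KSAT Pool.K2S Pool.PB Pool.S6C
open Pool.GEN Pool.CHT Pool.CHX Pool.ISO Pool.D2R
open Pool.PB.Trl (rt rt_mem t_rt)
open Pool.CUB46 (phi q2 hh h3 gpt eval_phi)
open Pool.AFF82 (AfN afc afp afs pul vlc eval_afs eval_pul pul_deg afp_afc afc_add pul_afc)
open Pool.CNC76

variable {m J : ℕ}

/-- **The charts of the windows** `k ≤ n`; `u = c 2`, `N = c 3`. -/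
structure Nph (F : Fam m J) (c : ℕ → Fin m) (B : F.Ω → Prop) (n D ν μ : ℕ) (w : ℕ → ℕ)
    (g : ℕ → ℕ → ℕ) (G : ℕ → PtT F → ℕ → MvPolynomial (Option (Fin m)) ℝ)
    (H : ℕ → LnT F → ℕ → MvPolynomial (Option (Fin m)) ℝ) : Prop where
  νμ : ν ≤ μ
  wJ : ∀ k ≤ n, w k ≤ J
  wm : ∀ j ≤ n, ∀ k ≤ n, j ≤ k → w j ≤ w k
  deg : ∀ k ≤ n, ∀ y i, (G k y i).totalDegree ≤ D
  dep : ∀ k ≤ n, ∀ y i, DepC c i (G k y i)
  cls : ∀ k ≤ n, Clsd F 4 (w k) B (G k) (H k)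
  own : ∀ k ≤ n, ∀ ω, B ω → ∀ l, 2 ≤ l → l ≤ 3 → ∀ τ ∈ Set.Icc (0 : ℝ) 1,
    |ptw F (w k) ω τ (some (c l)) - eval (ptw F (w k) ω τ) (G k (ptr F J ω) l)| ≤
      2 ^ ν / 2 ^ g k l
  slp : ∀ k ≤ n, ∀ ω, B ω → ∀ τ ∈ Set.Icc (0 : ℝ) 1, ∀ τ' ∈ Set.Icc (0 : ℝ) 1, ∀ y : ℝ,
    |y| ≤ 4 * (2 ^ ν / 2 ^ g k 2) →
    |eval (Function.update (ptw F (w k) ω τ) (some (c 2)) (ptw F (w k) ω τ (some (c 2)) + y))
        (pderiv (some (c 2)) (G k (ptr F J ω) 3)) -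
      eval (ptw F (w k) ω τ') (pderiv (some (c 2)) (G k (ptr F J ω) 3))| ≤
      2 ^ μ * (2 ^ g k 2 / 2 ^ g k 3)
  bal : ∀ j ≤ n, ∀ k ≤ n, j ≤ k → ∀ ω, B ω → ∀ l, 2 ≤ l → l ≤ 3 → ∀ b : Option (Fin m) → ℝ,
    NBx c (G k (ptr F J ω)) (g k) (w k) (F.t ω) l b →
    |eval b (G j (ptr F J ω) l) - eval b (G k (ptr F J ω) l)| ≤ 2 ^ μ / 2 ^ g j l
  stp : ∀ i < n, g (i + 1) 2 ≤ g i 2 + μ
  exc : ∀ j ≤ n, ∀ k ≤ n, j ≤ k → g k 2 + g j 3 ≤ g j 2 + g k 3 + μ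

/-- **The frame and the cubes.** -/
structure Frm (F : Fam m J) (c : ℕ → Fin m) (B : F.Ω → Prop) (n : ℕ) (w : ℕ → ℕ)
    (g : ℕ → ℕ → ℕ) (G : ℕ → PtT F → ℕ → MvPolynomial (Option (Fin m)) ℝ) (N : F.Ω → AfN)
    (o s0 s1 sm : ℕ) (ctr : ℕ → F.Ω → Fin 3 → ℝ) (ρ : ℕ → ℝ) : Prop where
  sm1 : 1 ≤ sm
  Nc : ∀ k ≤ n, Clo B (ptr F J) (slam F (w k)) N
  cc : ∀ k ≤ n, Clo B (ptr F J) (slam F (w k)) (ctr k)
  ρ0 : ∀ k ≤ n, 0 < ρ k ∧ ρ k ≤ 1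
  ρd : ∀ j ≤ n, ∀ k ≤ n, j < k → 4 * ρ k ≤ ρ j
  ρw : ∀ k ≤ n, ρ k ≤ 2 ^ sm * (2 ^ o / 2 ^ w k)
  sml : ∀ k ≤ n, ∀ ω, B ω → ∀ b : Fin 3 → ℝ,
    (∀ i, |b i - ctr k ω i| ≤ ρ k / 2 ^ sm) → ∀ u : ℝ,
    NBx c (G k (ptr F J ω)) (g k) (w k) (F.t ω) 2 (afp c (N ω) o s0 s1 u b)

/-- The chart of `u` in the frame. -/
noncomputable def UU (F : Fam m J) (c : ℕ → Fin m)
    (G : ℕ → PtT F → ℕ → MvPolynomial (Option (Fin m)) ℝ) (N : F.Ω → AfN) (o s0 s1 : ℕ) (k : ℕ)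
    (ω : F.Ω) : MvPolynomial (Fin 3) ℝ := pul c (N ω) o s0 s1 0 (G k (ptr F J ω) 2)

/-- The chart of `N` in the frame. -/
noncomputable def NN (F : Fam m J) (c : ℕ → Fin m)
    (G : ℕ → PtT F → ℕ → MvPolynomial (Option (Fin m)) ℝ) (N : F.Ω → AfN) (o s0 s1 : ℕ) (k : ℕ)
    (ω : F.Ω) : MvPolynomial (Option (Fin 3)) ℝ := puo c (N ω) o s0 s1 (G k (ptr F J ω) 3)

/-- The slope at the centre. -/
noncomputable def CS (F : Fam m J) (c : ℕ → Fin m)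
    (G : ℕ → PtT F → ℕ → MvPolynomial (Option (Fin m)) ℝ) (N : F.Ω → AfN) (o s0 s1 : ℕ)
    (ctr : ℕ → F.Ω → Fin 3 → ℝ) (k : ℕ) (ω : F.Ω) : ℝ :=
  csl (NN F c G N o s0 s1 k ω) (UU F c G N o s0 s1 k ω) (ctr k ω)

/-- The chart of `N` on the graph of `u`, less the slope times `u`. -/
noncomputable def PH (F : Fam m J) (c : ℕ → Fin m)
    (G : ℕ → PtT F → ℕ → MvPolynomial (Option (Fin m)) ℝ) (N : F.Ω → AfN) (o s0 s1 : ℕ)
    (ctr : ℕ → F.Ω → Fin 3 → ℝ) (k : ℕ) (ω : F.Ω) : MvPolynomial (Fin 3) ℝ :=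
  phc (NN F c G N o s0 s1 k ω) (UU F c G N o s0 s1 k ω) (CS F c G N o s0 s1 ctr k ω)

section clo

variable {F : Fam m J} {c : ℕ → Fin m} {B : F.Ω → Prop} {n D ν μ : ℕ} {w : ℕ → ℕ}
    {g : ℕ → ℕ → ℕ} {G : ℕ → PtT F → ℕ → MvPolynomial (Option (Fin m)) ℝ}
    {H : ℕ → LnT F → ℕ → MvPolynomial (Option (Fin m)) ℝ} {N : F.Ω → AfN} {o s0 s1 sm : ℕ}
    {ctr : ℕ → F.Ω → Fin 3 → ℝ} {ρ : ℕ → ℝ}

/-- The charts are closed. -/
theorem Nph.clo (W : Nph F c B n D ν μ w g G H) {k : ℕ} (hk : k ≤ n) {l : ℕ} (hl : l < 4) :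
    Clo B (ptr F J) (slam F (w k)) (fun ω => G k (ptr F J ω) l) := by
  refine ⟨fun ω ω' _ _ e => ?_, fun ω ω' h1 h2 e => ?_⟩
  · show G k (ptr F J ω) l = G k (ptr F J ω') l
    rw [e]
  show G k (ptr F J ω) l = G k (ptr F J ω') l
  rw [W.cls k hk ω h1 l hl, W.cls k hk ω' h2 l hl, e]

theorem clo_UU (W : Nph F c B n D ν μ w g G H) (V : Frm F c B n w g G N o s0 s1 sm ctr ρ)
    {k : ℕ} (hk : k ≤ n) : Clo B (ptr F J) (slam F (w k)) (UU F c G N o s0 s1 k) :=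
  (V.Nc k hk).map2 (W.clo hk (by norm_num)) fun N Q => pul c N o s0 s1 0 Q

theorem clo_NN (W : Nph F c B n D ν μ w g G H) (V : Frm F c B n w g G N o s0 s1 sm ctr ρ)
    {k : ℕ} (hk : k ≤ n) : Clo B (ptr F J) (slam F (w k)) (NN F c G N o s0 s1 k) :=
  (V.Nc k hk).map2 (W.clo hk (by norm_num)) fun N Q => puo c N o s0 s1 Q

theorem clo_CS (W : Nph F c B n D ν μ w g G H) (V : Frm F c B n w g G N o s0 s1 sm ctr ρ)
    {k : ℕ} (hk : k ≤ n) : Clo B (ptr F J) (slam F (w k)) (CS F c G N o s0 s1 ctr k) :=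
  (clo_NN W V hk).map2 ((clo_UU W V hk).map2 (V.cc k hk) fun a b => (a, b))
    fun P x => csl P x.1 x.2

theorem clo_PH (W : Nph F c B n D ν μ w g G H) (V : Frm F c B n w g G N o s0 s1 sm ctr ρ)
    {k : ℕ} (hk : k ≤ n) : Clo B (ptr F J) (slam F (w k)) (PH F c G N o s0 s1 ctr k) :=
  (clo_NN W V hk).map2 ((clo_UU W V hk).map2 (clo_CS W V hk) fun a b => (a, b))
    fun P x => phc P x.1 x.2

theorem deg_UU (W : Nph F c B n D ν μ w g G H) {k : ℕ} (hk : k ≤ n) (ω : F.Ω) :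
    (UU F c G N o s0 s1 k ω).totalDegree ≤ D := by
  have h := pul_deg (c := c) (N := N ω) (o := o) (s0 := s0) (s1 := s1)
    (U := (0 : MvPolynomial (Fin 3) ℝ)) (K := 1) (by rw [totalDegree_zero]; exact Nat.zero_le _)
    le_rfl (W.deg k hk (ptr F J ω) 2)
  rwa [mul_one] at h

theorem deg_NN (W : Nph F c B n D ν μ w g G H) {k : ℕ} (hk : k ≤ n) (ω : F.Ω) :
    (NN F c G N o s0 s1 k ω).totalDegree ≤ D := puo_deg (W.deg k hk (ptr F J ω) 3)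

theorem deg_PH (W : Nph F c B n D ν μ w g G H) {k : ℕ} (hk : k ≤ n) (hD : 1 ≤ D) (ω : F.Ω) :
    (PH F c G N o s0 s1 ctr k ω).totalDegree ≤ D * D :=
  deg_phc _ (deg_NN W hk ω) (deg_UU W hk ω) hD hD

/-- The chart of `u` at a point of the frame. -/
theorem ev_UU (hc : Set.InjOn c (Set.Iio 3)) (W : Nph F c B n D ν μ w g G H) {k : ℕ}
    (hk : k ≤ n) (ω : F.Ω) (b : Fin 3 → ℝ) (u : ℝ) :
    eval b (UU F c G N o s0 s1 k ω) = eval (afp c (N ω) o s0 s1 u b) (G k (ptr F J ω) 2) := by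
  unfold UU
  rw [eval_pul]
  refine W.dep k hk (ptr F J ω) 2 _ _ ?_ fun l hl => ?_
  · exact afp_ne _ _ _ (by simp)
  · refine afp_ne _ _ _ fun h => ?_
    have := hc (show l < 3 by omega) (show 2 < 3 by norm_num) (Option.some_injective _ h)
    omega

/-- **The box of `N`** over a point of the small cube. -/
theorem nbx3 (hc : Set.InjOn c (Set.Iio 3)) (W : Nph F c B n D ν μ w g G H)
    (V : Frm F c B n w g G N o s0 s1 sm ctr ρ) {k : ℕ} (hk : k ≤ n) {ω : F.Ω} (hω : B ω)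
    {b : Fin 3 → ℝ} (hb : ∀ i, |b i - ctr k ω i| ≤ ρ k / 2 ^ sm) {u : ℝ}
    (hu : |u - eval b (UU F c G N o s0 s1 k ω)| ≤ 1 / 2 ^ g k 2) :
    NBx c (G k (ptr F J ω)) (g k) (w k) (F.t ω) 3 (afp c (N ω) o s0 s1 u b) := by
  obtain ⟨h1, h2⟩ := V.sml k hk ω hω b hb u
  refine ⟨h1, fun l hl => ?_⟩
  rcases Nat.lt_succ_iff_lt_or_eq.1 hl with h | h
  · exact h2 l h
  · rw [h, afp_two hc, ← ev_UU hc W hk ω b u]
    exact hu

/-- Two charts of `u`. -/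
theorem dif_U (hc : Set.InjOn c (Set.Iio 3)) (W : Nph F c B n D ν μ w g G H)
    (V : Frm F c B n w g G N o s0 s1 sm ctr ρ) {j k : ℕ} (hj : j ≤ n) (hk : k ≤ n) (hjk : j ≤ k)
    {ω : F.Ω} (hω : B ω) {b : Fin 3 → ℝ}
    (hb : ∀ i, |b i - ctr k ω i| ≤ ρ k / 2 ^ sm) :
    |eval b (UU F c G N o s0 s1 k ω) - eval b (UU F c G N o s0 s1 j ω)| ≤
      2 ^ μ / 2 ^ g j 2 := by
  rw [ev_UU hc W hk ω b 0, ev_UU hc W hj ω b 0, abs_sub_comm]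
  exact W.bal j hj k hk hjk ω hω 2 le_rfl (by norm_num) _ (V.sml k hk ω hω b hb 0)

/-- Two charts of `N`. -/
theorem dif_N (hc : Set.InjOn c (Set.Iio 3)) (W : Nph F c B n D ν μ w g G H)
    (V : Frm F c B n w g G N o s0 s1 sm ctr ρ) {j k : ℕ} (hj : j ≤ n) (hk : k ≤ n) (hjk : j ≤ k)
    {ω : F.Ω} (hω : B ω) {b : Fin 3 → ℝ}
    (hb : ∀ i, |b i - ctr k ω i| ≤ ρ k / 2 ^ sm) {u : ℝ}
    (hu : |u - eval b (UU F c G N o s0 s1 k ω)| ≤ 1 / 2 ^ g k 2) :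
    |eval (pn b u) (NN F c G N o s0 s1 k ω) - eval (pn b u) (NN F c G N o s0 s1 j ω)| ≤
      2 ^ μ / 2 ^ g j 3 := by
  unfold NN
  rw [eval_puo hc, eval_puo hc, abs_sub_comm]
  exact W.bal j hj k hk hjk ω hω 3 (by norm_num) le_rfl _ (nbx3 hc W V hk hω hb hu)

end clo

/-- A telescope. -/
theorem tel_sum {f : ℕ → ℝ} {j n : ℕ} {M : ℝ}
    (h : ∀ i, j ≤ i → i < n → |f (i + 1) - f i| ≤ M) : ∀ d, j + d ≤ n →
    |f (j + d) - f j| ≤ d * M := by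
  intro d
  induction d with
  | zero =>
    intro _
    rw [Nat.add_zero, sub_self, abs_zero, Nat.cast_zero, zero_mul]
  | succ d ih =>
    intro hd
    have h1 := ih (by omega)
    have h2 := h (j + d) (by omega) (by omega)
    have e1 : f (j + (d + 1)) - f j = (f (j + d + 1) - f (j + d)) + (f (j + d) - f j) := by
      rw [← Nat.add_assoc]
      ring
    rw [e1]
    refine (abs_add_le _ _).trans ?_
    push_cast
    linarith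

end Pool.CNC28
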