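import Pool.Agent.H28.CNC.Cor
import Pool.Agent.H82.CNC.Blk

/-!
# The frame of 82 as a frame of the chain

`frm_af`: `Frm` from `AfD` and `AfB`; `iz k`: the window of the frame data for the window `k` of the
chain.
-/

set_option autoImplicit false

namespace Pool.CNC28

open Finset Real MvPolynomial
open Pool.Agent.H49.Ent Pool.Agent.H32.Dense Pool.STK Pool.KA Pool.KSAT Pool.K2S Pool.PB Pool.S6C
open Pool.GEN Pool.CHT Pool.CHX Pool.ISO Pool.D2R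
open Pool.AFF82 (AfN afc afp afc_afp AfD AfB afr aY aX aC rk ru ru_pos rk_pos)
open Pool.CNC76

/-- **The frame of the chain.** -/
theorem frm_af {m J : ℕ} {F : Fam m J} {c : ℕ → Fin m} {D n₀ f x y : ℕ} {w s gf : ℕ → ℕ}
    {g : ℕ → ℕ → ℕ} {gx : ℕ} {θ : ℝ} {B : F.Ω → Prop}
    {P : PtT F → ℕ → MvPolynomial (Option (Fin m)) ℝ}
    {PH : LnT F → ℕ → MvPolynomial (Option (Fin m)) ℝ}
    {G : ℕ → PtT F → ℕ → MvPolynomial (Option (Fin m)) ℝ}
    {H : ℕ → LnT F → ℕ → MvPolynomial (Option (Fin m)) ℝ}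
    (W : AfD F c D n₀ f x y w s gf g gx θ B P PH G H) {a n : ℕ} (ha : 1 ≤ a)
    (hB : ∀ k ≤ n₀, ∀ ω, B ω → AfB F c a w s g P G k ω) {iz : ℕ → ℕ} (hiz : ∀ k ≤ n, iz k ≤ n₀)
    (h1 : ∀ k ≤ n, w 0 + 8 * a ≤ w (iz k))
    (h2 : ∀ j ≤ n, ∀ k ≤ n, j < k → w (iz j) + 2 ≤ w (iz k)) :
    Frm F c B n (fun k => w (iz k)) (fun k => g (iz k)) (fun k => G (iz k)) (afr F c w P G) (w 0)
      (s 0) (s 1) (20 * a) (fun k => aC F c w s P G (iz k)) (fun k => rk a w (iz k)) := by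
  have hpow : ∀ {i j : ℕ}, i ≤ j → (2 : ℝ) ^ i ≤ 2 ^ j := fun h => pow_le_pow_right₀ (by norm_num) h
  refine ⟨by omega, fun k hk => W.fr_clk (hiz k hk), fun k hk => W.ctr_clo (hiz k hk),
    fun k hk => ⟨rk_pos _ _ _, ?_⟩, fun j hj k hk hjk => ?_, fun k hk => ?_,
    fun k hk ω hω b hb u => ?_⟩
  · unfold Pool.AFF82.rk ru
    rw [← mul_div_assoc, div_le_one (by positivity), ← pow_add]
    exact hpow (by have := h1 k hk; omega)
  · show 4 * rk a w (iz k) ≤ rk a w (iz j)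
    unfold Pool.AFF82.rk ru
    have h3 := h2 j hj k hk hjk
    have e1 : (4 : ℝ) * (2 ^ (8 * a) * (2 ^ w 0 / 2 ^ w (iz k))) =
        2 ^ (8 * a) * (2 ^ w 0 * 4 / 2 ^ w (iz k)) := by ring
    rw [e1]
    refine mul_le_mul_of_nonneg_left ?_ (by positivity)
    rw [div_le_div_iff₀ (by positivity) (by positivity)]
    have e2 : (2 : ℝ) ^ w 0 * 4 * 2 ^ w (iz j) = 2 ^ w 0 * 2 ^ (w (iz j) + 2) := by
      rw [pow_add _ (w (iz j))]
      ring
    rw [e2]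
    exact mul_le_mul_of_nonneg_left (hpow h3) (by positivity)
  · show rk a w (iz k) ≤ 2 ^ (20 * a) * (2 ^ w 0 / 2 ^ w (iz k))
    unfold Pool.AFF82.rk ru
    exact mul_le_mul_of_nonneg_right (hpow (by omega)) (by positivity)
  · refine (hB (iz k) (hiz k hk) ω hω).inn _ fun i => ?_
    rw [afc_afp W.hc]
    refine (hb i).trans (le_of_eq ?_)
    unfold Pool.AFF82.rk
    have e1 : (2 : ℝ) ^ (20 * a) = 2 ^ (8 * a) * 2 ^ (12 * a) := by
      rw [← pow_add]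
      congr 1
      ring
    rw [e1]
    field_simp

end Pool.CNC28
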