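import Pool.Agent.H76.CNC.Bll

/-!
# A closed linear form which is small at the direction, on the abstract ball

`rel_fin`: finitely many closed polynomials which are small at the own points are small on the ball.
`lin_bll`: if the derivative of a closed polynomial in the own direction is small at the own point,
then all its derivatives are small on the ball.
-/

set_option autoImplicit false

namespace Pool.CNC28

open Finset MvPolynomial
open Pool.Agent.H49.Ent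
open Pool.STK (IsLaw)
open Pool.K2S (Pe Pe_eq Pe_nonneg Pe_mono isLaw_cond)
open Pool.CUB46 (q2 l1 h3)
open Pool.D2G30 (nd)
open Pool.D2Con (NoHyp)
open Pool.CNC76

/-- Two parts. -/
theorem Pe_two {Ω : Type} [Fintype Ω] {p : Ω → ℝ} (hp : IsLaw p) (B E : Ω → Prop) :
    Pe p B ≤ Pe p (fun ω => B ω ∧ E ω) + Pe p (fun ω => B ω ∧ ¬ E ω) := by
  classical
  rw [Pe_eq, Pe_eq, Pe_eq, ← Finset.sum_add_distrib]
  refine Finset.sum_le_sum fun ω _ => ?_
  by_cases h1 : B ω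
  · by_cases h2 : E ω
    · simp [h1, h2]
    · simp [h1, h2]
  · simp [h1]

/-- A nonempty event. -/
theorem ne_of_Pe {Ω : Type} [Fintype Ω] {p : Ω → ℝ} {B : Ω → Prop} (h : 0 < Pe p B) :
    ∃ ω, B ω := by
  classical
  by_contra hcon
  push Not at hcon
  rw [Pe_eq] at h
  have : ∑ ω, (if B ω then p ω else 0) = 0 := Finset.sum_eq_zero fun ω _ => by simp [hcon ω]
  linarith

section

variable {Ω P S S' : Type} [Fintype Ω] {p : Ω → ℝ} {B : Ω → Prop} {pt : Ω → P} {sl : Ω → S}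
  {sd : Ω → S'} {y yc X : Ω → Fin 3 → ℝ} {D h Q : ℕ} {κ η c T : ℝ}

/-- **Finitely many closed polynomials.** -/
theorem rel_fin (W : Bll p B pt sl sd y yc X D h Q κ η c T) {B₁ : Ω → Prop}
    (hB₁ : ∀ ω, B₁ ω → B ω) (n : ℕ) (hκ : κ * Pe p B * 2 ^ n ≤ Pe p B₁)
    (Pl : ℕ → Ω → MvPolynomial (Fin 3) ℝ) (M : ℕ → ℝ) (hcl : ∀ i < n, Clo B₁ pt sl (Pl i))
    (hdeg : ∀ i < n, ∀ ω, B₁ ω → (Pl i ω).totalDegree ≤ D) (hM : ∀ i < n, 0 < M i)
    (hsm : ∀ i < n, ∀ ω, B₁ ω → |eval (y ω) (Pl i ω)| ≤ M i) :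
    ∃ B₂ : Ω → Prop, (∀ ω, B₂ ω → B₁ ω) ∧ Pe p B₁ ≤ 2 ^ n * Pe p B₂ ∧
      ∀ i < n, ∀ ω, B₂ ω → ∀ b, Bx b → |eval b (Pl i ω)| ≤ 2 ^ h * M i := by
  have key : ∀ n' ≤ n, ∃ B₂ : Ω → Prop, (∀ ω, B₂ ω → B₁ ω) ∧ Pe p B₁ ≤ 2 ^ n' * Pe p B₂ ∧
      ∀ i < n', ∀ ω, B₂ ω → ∀ b, Bx b → |eval b (Pl i ω)| ≤ 2 ^ h * M i := by
    intro n'
    induction n' with
    | zero =>
      intro _
      exact ⟨B₁, fun _ h => h, by rw [pow_zero, one_mul], fun i hi => absurd hi (Nat.not_lt_zero i)⟩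
    | succ n' ih =>
      intro hn'
      obtain ⟨B₂, a1, a2, a3⟩ := ih (by omega)
      have h1 : κ * Pe p B ≤ Pe p B₂ := by
        have h2 : (2 : ℝ) ^ n' ≤ 2 ^ n := pow_le_pow_right₀ (by norm_num) (by omega)
        have h3 : 0 ≤ κ * Pe p B := mul_nonneg W.κ0 (Pe_nonneg W.law B)
        have h4 : κ * Pe p B * 2 ^ n' ≤ Pe p B₂ * 2 ^ n' := by
          calc κ * Pe p B * 2 ^ n' ≤ κ * Pe p B * 2 ^ n := mul_le_mul_of_nonneg_left h2 h3
            _ ≤ Pe p B₁ := hκ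
            _ ≤ _ := by rw [mul_comm]; exact a2
        exact le_of_mul_le_mul_right h4 (by positivity)
      obtain ⟨B₃, b1, b2, b3⟩ := W.rel B₂ (fun ω hω => hB₁ ω (a1 ω hω)) h1 (Pl n')
        ((hcl n' (by omega)).sub a1) (fun ω hω => hdeg n' (by omega) ω (a1 ω hω)) (M n')
        (hM n' (by omega)) fun ω hω => hsm n' (by omega) ω (a1 ω hω)
      refine ⟨B₃, fun ω hω => a1 ω (b1 ω hω), ?_, fun i hi ω hω b hb => ?_⟩
      · calc Pe p B₁ ≤ 2 ^ n' * Pe p B₂ := a2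
          _ ≤ 2 ^ n' * (2 * Pe p B₃) := mul_le_mul_of_nonneg_left b2 (by positivity)
          _ = _ := by ring
      · rcases Nat.lt_succ_iff_lt_or_eq.1 hi with h5 | h5
        · exact a3 i h5 ω (b1 ω hω) b hb
        · rw [h5]
          exact b3 ω hω b hb
  exact key n le_rfl

/-- **A closed linear form which is small at the direction.** -/
theorem lin_bll (K : ℕ) (hK : 1 ≤ K) : ∃ C : ℝ, 1 ≤ C ∧ ∀ {Ω P S S' : Type} [Fintype Ω]
    {p : Ω → ℝ} {B : Ω → Prop} {pt : Ω → P} {sl : Ω → S} {sd : Ω → S'} {y yc X : Ω → Fin 3 → ℝ}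
    {D h Q : ℕ} {κ η c T : ℝ}, Bll p B pt sl sd y yc X D h Q κ η c T → K ≤ D →
    32 * κ ≤ 1 → c < 1 → 0 < η → η ≤ 1 → 1 ≤ T →
    ∀ {g : Ω → MvPolynomial (Fin 3) ℝ}, Clo B pt sl g →
    (∀ ω, B ω → (g ω).totalDegree ≤ K) → ∀ {S₀ : ℝ}, 0 < S₀ →
    (∀ ω, B ω → |∑ i, eval (y ω) (pderiv i (g ω)) * X ω i| ≤ S₀) →
    C * T * 2 ^ h ≤ η * 2 ^ Q →
    ∃ B' : Ω → Prop, (∀ ω, B' ω → B ω) ∧ Pe p B ≤ 2 * Pe p B' ∧
      ∀ ω, B' ω → ∀ b, Bx b → ∀ i, |eval b (pderiv i (g ω))| ≤ C * 2 ^ h * S₀ / η := by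
  classical
  obtain ⟨C₁, hC₁, hnd⟩ := sup_nd K
  obtain ⟨C₂, hC₂, hlip⟩ := lip_bx K
  refine ⟨24 * C₁ * C₂, by nlinarith, ?_⟩
  intro Ω P S S' _ p B pt sl sd y yc X D h Q κ η c T W hKD hκ hc hη hη1 hT g hg hdeg S₀ hS₀ hsm
    hQ
  have hB := W.pos
  have h2h : (1 : ℝ) ≤ 2 ^ h := one_le_pow₀ (by norm_num)
  -- the maximum
  obtain ⟨ι, hι⟩ : ∃ ι : Type, ι = (Fin 3 × (Fin 3 → Fin (K + 1))) := ⟨_, rfl⟩
  subst hι
  have hex : ∀ G : MvPolynomial (Fin 3) ℝ, ∃ x : Fin 3 × (Fin 3 → Fin (K + 1)),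
      ∀ x' : Fin 3 × (Fin 3 → Fin (K + 1)), |eval (nd K x'.2) (pderiv x'.1 G)| ≤ |eval (nd K x.2) (pderiv x.1 G)| := fun G => by
    obtain ⟨x, -, hx⟩ := Finset.exists_max_image
      (Finset.univ : Finset (Fin 3 × (Fin 3 → Fin (K + 1))))
      (fun x => |eval (nd K x.2) (pderiv x.1 G)|) ⟨(0, fun _ => 0), Finset.mem_univ _⟩
    exact ⟨x, fun x' => hx x' (Finset.mem_univ x')⟩
  choose xm hxm using hex
  obtain ⟨mm, hmm⟩ : ∃ mm : MvPolynomial (Fin 3) ℝ → ℝ, mm = fun G =>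
    |eval (nd K (xm G).2) (pderiv (xm G).1 G)| := ⟨_, rfl⟩
  have hm0 : ∀ G, 0 ≤ mm G := fun G => by rw [hmm]; exact abs_nonneg _
  have hmx : ∀ G i β, |eval (nd K β) (pderiv i G)| ≤ mm G := fun G i β => by
    rw [hmm]
    exact hxm G (i, β)
  have hdd : ∀ ω, B ω → ∀ i, (pderiv i (g ω)).totalDegree ≤ K := fun ω hω i =>
    Pool.GEN.totalDegree_pdσ (hdeg ω hω) i
  have hsup : ∀ ω, B ω → ∀ i b, Bx b → |eval b (pderiv i (g ω))| ≤ C₁ * mm (g ω) :=
    fun ω hω i b hb => hnd hK (hdd ω hω i) (fun β => hmx _ i β) b hb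
  obtain ⟨δ, hδ⟩ : ∃ δ : ℝ, δ = 1 / (2 * 2 ^ h) := ⟨_, rfl⟩
  have hδ0 : 0 < δ := by rw [hδ]; positivity
  have hδh : 2 ^ h * δ = 1 / 2 := by rw [hδ]; field_simp
  obtain ⟨Θ, hΘ⟩ : ∃ Θ : ℝ, Θ = 4 * S₀ / (δ * η) := ⟨_, rfl⟩
  have hΘ0 : 0 < Θ := by rw [hΘ]; positivity
  -- the bad event
  obtain ⟨E, hE⟩ : ∃ E : Ω → Prop, E = fun ω => Θ < mm (g ω) := ⟨_, rfl⟩
  obtain ⟨E', hE'⟩ : ∃ E' : Ω → Prop, E' = fun ω => ∀ i, |eval (y ω) (pderiv i (g ω))| ≤
    δ * mm (g ω) := ⟨_, rfl⟩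
  refine ⟨fun ω => B ω ∧ ¬ E ω, fun ω hω => hω.1, ?_, fun ω hω b hb i => ?_⟩
  swap
  · have h1 : mm (g ω) ≤ Θ := by
      have := hω.2
      rw [hE] at this
      exact not_lt.1 this
    refine (hsup ω hω.1 i b hb).trans ?_
    refine (mul_le_mul_of_nonneg_left h1 (by linarith)).trans ?_
    rw [hΘ, hδ]
    have e1 : C₁ * (4 * S₀ / (1 / (2 * 2 ^ h) * η)) = 8 * C₁ * 2 ^ h * S₀ / η := by
      field_simp
      ring
    rw [e1]
    refine div_le_div_of_nonneg_right ?_ hη.le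
    refine mul_le_mul_of_nonneg_right ?_ hS₀.le
    refine mul_le_mul_of_nonneg_right ?_ (by positivity)
    nlinarith
  by_contra hcon
  have hcon := not_le.1 hcon
  have t1 := Pe_two W.law B E
  have t2 : Pe p B < 2 * Pe p (fun ω => B ω ∧ E ω) := by linarith
  obtain ⟨B₁, hB₁⟩ : ∃ B₁ : Ω → Prop, B₁ = fun ω => B ω ∧ E ω := ⟨_, rfl⟩
  rw [← hB₁] at t2
  have hB₁B : ∀ ω, B₁ ω → B ω := fun ω hω => by rw [hB₁] at hω; exact hω.1
  have hB₁E : ∀ ω, B₁ ω → Θ < mm (g ω) := fun ω hω => by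
    rw [hB₁, hE] at hω
    exact hω.2
  have t3 := Pe_two W.law B₁ E'
  rcases le_total (Pe p (fun ω => B₁ ω ∧ ¬ E' ω)) (Pe p (fun ω => B₁ ω ∧ E' ω)) with hle | hle
  · -- the form is small at the own points
    obtain ⟨B₂, hB₂⟩ : ∃ B₂ : Ω → Prop, B₂ = fun ω => B₁ ω ∧ E' ω := ⟨_, rfl⟩
    rw [← hB₂] at hle t3
    have hB₂1 : ∀ ω, B₂ ω → B₁ ω := fun ω hω => by rw [hB₂] at hω; exact hω.1
    have t4 : Pe p B < 4 * Pe p B₂ := by linarith
    obtain ⟨Pl, hPl⟩ : ∃ Pl : ℕ → Ω → MvPolynomial (Fin 3) ℝ, Pl = fun i ω =>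
      C (1 / mm (g ω)) * pderiv (Fin.ofNat 3 i) (g ω) := ⟨_, rfl⟩
    have hmp : ∀ ω, B₂ ω → 0 < mm (g ω) := fun ω hω => hΘ0.trans (hB₁E ω (hB₂1 ω hω))
    have hev : ∀ ω, B₂ ω → ∀ i b, |eval b (Pl i ω)| = |eval b (pderiv (Fin.ofNat 3 i) (g ω))| /
        mm (g ω) := by
      intro ω hω i b
      rw [hPl]
      show |eval b (C (1 / mm (g ω)) * _)| = _
      rw [map_mul, eval_C, abs_mul, abs_of_pos (one_div_pos.2 (hmp ω hω))]
      ring
    obtain ⟨B₃, b1, b2, b3⟩ := rel_fin W (B₁ := B₂) (fun ω hω => hB₁B ω (hB₂1 ω hω)) 3 (by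
        have : κ * Pe p B * 2 ^ 3 = (8 * κ) * Pe p B := by ring
        rw [this]
        nlinarith) Pl (fun _ => δ) (fun i _ => by
        rw [hPl]
        exact (hg.sub fun ω hω => hB₁B ω (hB₂1 ω hω)).map fun G =>
          C (1 / mm G) * pderiv (Fin.ofNat 3 i) G) (fun i _ ω hω => by
        rw [hPl]
        refine (totalDegree_mul _ _).trans ?_
        rw [totalDegree_C, zero_add]
        exact (hdd ω (hB₁B ω (hB₂1 ω hω)) _).trans hKD) (fun _ _ => hδ0) fun i _ ω hω => by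
        rw [hev ω hω, div_le_iff₀ (hmp ω hω)]
        have h5 := hω
        rw [hB₂, hE'] at h5
        exact h5.2 _
    have hB₃ : 0 < Pe p B₃ := by
      have : 0 < (2 : ℝ) ^ 3 * Pe p B₃ := by linarith
      exact pos_of_mul_pos_right this (by positivity)
    obtain ⟨ω, hω⟩ := ne_of_Pe hB₃
    have h5 := b3 (xm (g ω)).1 (by have := (xm (g ω)).1.2; omega) ω hω (nd K (xm (g ω)).2)
      (nd_bx hK _)
    rw [hev ω (b1 ω hω), hδh] at h5
    have h6 : (Fin.ofNat 3 ((xm (g ω)).1 : ℕ)) = (xm (g ω)).1 := by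
      ext
      show ((xm (g ω)).1 : ℕ) % 3 = _
      exact Nat.mod_eq_of_lt (xm (g ω)).1.2
    rw [h6] at h5
    have h7 : |eval (nd K (xm (g ω)).2) (pderiv (xm (g ω)).1 (g ω))| = mm (g ω) := by rw [hmm]
    rw [h7, div_self (hmp ω (b1 ω hω)).ne'] at h5
    norm_num at h5
  · -- no hyperplane
    obtain ⟨B₂, hB₂⟩ : ∃ B₂ : Ω → Prop, B₂ = fun ω => B₁ ω ∧ ¬ E' ω := ⟨_, rfl⟩
    rw [← hB₂] at hle t3
    have hB₂1 : ∀ ω, B₂ ω → B₁ ω := fun ω hω => by rw [hB₂] at hω; exact hω.1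
    have hB₂B : ∀ ω, B₂ ω → B ω := fun ω hω => hB₁B ω (hB₂1 ω hω)
    have t4 : Pe p B < 4 * Pe p B₂ := by linarith
    have hB₂0 : 0 < Pe p B₂ := by linarith
    have hq := isLaw_cond W.law hB₂0
    have hsupp : ∀ ω, 0 < Pool.Agent.H49.Ent.cond p B₂ True ω → B₂ ω := by
      intro ω hω
      unfold Pool.Agent.H49.Ent.cond at hω
      by_contra hcon
      rw [if_neg (by simpa using hcon)] at hω
      exact lt_irrefl _ hω
    have h5 := (W.nhy B₂ hB₂B (by nlinarith) (fun ω => (yc ω, g ω))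
      ((W.ycc.sub hB₂B).map2 ((hg.fine W.sls).sub hB₂B) fun a b => (a, b))).scale hq.nonneg hη.le
      (by norm_num) (ρ := δ / 2) (by positivity)
      (fun z i => eval z.1 (pderiv i z.2) / mm z.2)
    have h6 : law (Pool.Agent.H49.Ent.cond p B₂ True) (fun ω => (∃ j, δ / 2 ≤
        |eval (yc ω) (pderiv j (g ω)) / mm (g ω)|) ∧ |∑ j, eval (yc ω) (pderiv j (g ω)) /
        mm (g ω) * X ω j| ≤ δ / 2 * η) True = 1 := by
      refine Pool.D2F.law_one hq fun ω hω => ?_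
      have hω' := hsupp ω hω
      have hωB := hB₂B ω hω'
      obtain ⟨μ, hμ⟩ : ∃ μ, μ = mm (g ω) := ⟨_, rfl⟩
      have hΘμ : Θ < μ := by rw [hμ]; exact hB₁E ω (hB₂1 ω hω')
      have hμ0 : 0 < μ := hΘ0.trans hΘμ
      have hdif : ∀ i, |eval (y ω) (pderiv i (g ω)) - eval (yc ω) (pderiv i (g ω))| ≤
          C₂ * (C₁ * μ) * (1 / 2 ^ Q) := fun i =>
        hlip hK (hdd ω hωB i) (fun b hb => by rw [hμ]; exact hsup ω hωB i b hb) (by positivity)
          (y ω) (yc ω) (fun i => (W.y1 ω hωB i).trans (by norm_num)) (W.yc1 ω hωB)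
          (W.ycn ω hωB)
      obtain ⟨A, hA⟩ : ∃ A : ℝ, A = C₁ * C₂ * T / 2 ^ Q := ⟨_, rfl⟩
      have hA0 : 0 ≤ A := by rw [hA]; positivity
      have hAle : 24 * A ≤ 2 * (δ * η) := by
        have e1 : 24 * A = 24 * C₁ * C₂ * T / 2 ^ Q := by rw [hA]; ring
        have e2 : 2 * (δ * η) = η / 2 ^ h := by rw [hδ]; field_simp
        rw [e1, e2, div_le_div_iff₀ (by positivity) (by positivity)]
        exact hQ
      have hAT : C₂ * (C₁ * μ) * (1 / 2 ^ Q) * T = A * μ := by rw [hA]; ring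
      have hA1 : C₂ * (C₁ * μ) * (1 / 2 ^ Q) ≤ A * μ := by
        rw [← hAT]
        exact le_mul_of_one_le_right (by positivity) hT
      constructor
      · have h7 := hω'
        rw [hB₂, hE'] at h7
        have h8 := h7.2
        push Not at h8
        obtain ⟨i, hi⟩ := h8
        refine ⟨i, ?_⟩
        rw [← hμ] at hi ⊢
        rw [abs_div, abs_of_pos hμ0, le_div_iff₀ hμ0]
        have h9 := hdif i
        have h10 := abs_sub_abs_le_abs_sub (eval (y ω) (pderiv i (g ω)))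
          (eval (yc ω) (pderiv i (g ω)))
        have h11 : A * μ ≤ δ * η / 12 * μ := mul_le_mul_of_nonneg_right (by linarith) hμ0.le
        have h12 : δ * η / 12 * μ ≤ δ / 12 * μ := by
          refine mul_le_mul_of_nonneg_right ?_ hμ0.le
          nlinarith
        have h13 : 0 < δ * μ := mul_pos hδ0 hμ0
        linarith
      · rw [← hμ]
        have e1 : ∑ j, eval (yc ω) (pderiv j (g ω)) / μ * X ω j =
            (∑ j, eval (yc ω) (pderiv j (g ω)) * X ω j) / μ := by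
          rw [Finset.sum_div]
          exact Finset.sum_congr rfl fun j _ => by ring
        rw [e1, abs_div, abs_of_pos hμ0, div_le_iff₀ hμ0]
        have h7 : |∑ j, eval (yc ω) (pderiv j (g ω)) * X ω j| ≤ S₀ + 3 * (A * μ) := by
          have e2 : ∑ j, eval (yc ω) (pderiv j (g ω)) * X ω j =
              ∑ j, eval (y ω) (pderiv j (g ω)) * X ω j -
              ∑ j, (eval (y ω) (pderiv j (g ω)) - eval (yc ω) (pderiv j (g ω))) * X ω j := by
            rw [← Finset.sum_sub_distrib]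
            exact Finset.sum_congr rfl fun j _ => by ring
          rw [e2]
          refine (abs_sub _ _).trans (add_le_add (hsm ω hωB) ?_)
          refine (Finset.abs_sum_le_sum_abs _ _).trans ?_
          have h8 : ∀ j, |(eval (y ω) (pderiv j (g ω)) - eval (yc ω) (pderiv j (g ω))) *
              X ω j| ≤ A * μ := fun j => by
            rw [abs_mul, ← hAT]
            exact mul_le_mul (hdif j) (W.XT ω hωB j) (abs_nonneg _) (by positivity)
          refine (Finset.sum_le_sum fun j _ => h8 j).trans (le_of_eq ?_)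
          rw [Finset.sum_const, Finset.card_univ, Fintype.card_fin, nsmul_eq_mul]
          norm_num
        refine h7.trans ?_
        have h9 : S₀ ≤ δ * η / 4 * μ := by
          have : S₀ = δ * η / 4 * Θ := by rw [hΘ]; field_simp
          rw [this]
          exact mul_le_mul_of_nonneg_left hΘμ.le (by positivity)
        have h10 : 3 * (A * μ) ≤ δ * η / 4 * μ := by
          have : 3 * A ≤ δ * η / 4 := by linarith
          calc 3 * (A * μ) = 3 * A * μ := by ring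
            _ ≤ _ := mul_le_mul_of_nonneg_right this hμ0.le
        linarith
    have h7 : law (Pool.Agent.H49.Ent.cond p B₂ True) (fun ω => (∃ j, δ / 2 ≤
        |eval (yc ω) (pderiv j (g ω)) / mm (g ω)|) ∧ |∑ j, eval (yc ω) (pderiv j (g ω)) /
        mm (g ω) * X ω j| ≤ δ / 2 * η) True ≤ c := h5
    rw [h6] at h7
    linarith

end

end Pool.CNC28
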