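import Pool.Agent.H99.D2.Blf

/-!
# The slope of `N` on the slices, for a list of windows

`slc_list`: on a part of each event with the windows `WG`: for all windows of a list the derivative of
the chart of `N = c (r + 1)` in the direction `u = c r` is constant on the own line and its translates
in this direction, if the velocity of `u` is alive over the exact base.
-/

set_option autoImplicit false

namespace Pool.CNC28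

open Finset Real MvPolynomial
open Pool.Agent.H49.Ent Pool.Agent.H32.Dense Pool.STK Pool.KA Pool.KSAT Pool.K2S Pool.PB Pool.S6C
open Pool.GEN Pool.CHT Pool.CHX Pool.ISO Pool.D2R Pool.D2G30 Pool.V1E Pool.CR99
open Pool.FLF (Fam.sub)
open Pool.PB.Trl (rt rt_mem t_rt)

/-- **One window.** -/
theorem slc_one (D r : ℕ) : ∃ C₁ : ℕ, 1 ≤ C₁ ∧ ∀ {m : ℕ} {c : ℕ → Fin m} {Dr N N₂ : ℕ}
    {R : ℕ → Prop} {C a Eb ε₀ η₀ : ℝ} {Pt : ℝ → ℝ → ℝ} {o : ℕ → ℝ} {lv be : ℕ → ℕ → ℝ} {J : ℕ}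
    {F : Fam m J} {b : ℕ → ℕ → ℝ} {κ : ℝ} {z : ℕ → ℕ → ℕ} {B : F.Ω → Prop}
    {gc gT g₀ : ℕ → ℕ → ℕ} {G : ℕ → PtT F → ℕ → MvPolynomial (Option (Fin m)) ℝ}
    {H : ℕ → LnT F → ℕ → MvPolynomial (Option (Fin m)) ℝ}
    {T : ℕ → PtT F → ℕ → MvPolynomial (Option (Fin m)) ℝ}
    {TH : ℕ → LnT F → ℕ → MvPolynomial (Option (Fin m)) ℝ}
    {Gt : ℕ → PtT F → MvPolynomial (Option (Fin m)) ℝ}
    {Ht : ℕ → LnT F → MvPolynomial (Option (Fin m)) ℝ},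
    WG c (r + 1) D Dr N N₂ R C a Eb ε₀ η₀ Pt o lv be F b κ z B gc gT g₀ G H T TH Gt Ht →
    Set.InjOn c (Set.Iio (r + 2)) → 0 ≤ η₀ →
    ∀ {d : ℕ} {hi lvl : ℝ} {A : F.Ω → Prop}, d ≤ N₂ → ⌊o d * J⌋₊ ≤ J → Sub A B →
    0 < Pe F.p A → C₁ ≤ C * (η₀ * J) → 0 ≤ hi → 0 ≤ lvl →
    (∀ l ≤ r + 1, Eb + lv d l + C₁ * (C * η₀) ≤ hi) → lv d r - o d + C * η₀ ≤ lvl →
    (∀ (E : F.Ω → Prop), Sub E A → 1 / 2 * Pe F.p A ≤ Pe F.p E → Real.log (2 * D + 1) <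
      CH (Pool.Agent.H49.Ent.cond F.p E True) (fun ω => F.D ⌊lvl * J⌋₊ ω (c r))
      (fun ω => ((fun l : Fin (r + 2) => H d (slam F ⌊o d * J⌋₊ ω) l), F.T ω,
        (fun l : Fin r => F.X ⌊hi * J⌋₊ ω (c l)), fun l : Fin r => F.D ⌊hi * J⌋₊ ω (c l)))) →
    ∃ A₂ : F.Ω → Prop, Sub A₂ A ∧ Pe F.p A / 2 ≤ Pe F.p A₂ ∧ ∀ ω, A₂ ω →
      ∀ τ ∈ Set.Icc (0 : ℝ) 1, ∀ τ' ∈ Set.Icc (0 : ℝ) 1, ∀ y : ℝ,
        |y| ≤ 2 ^ (⌊C * (η₀ * J)⌋₊ + 3) / 2 ^ g₀ d r →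
        |eval (Function.update (ptw F ⌊o d * J⌋₊ ω τ) (some (c r))
            (ptw F ⌊o d * J⌋₊ ω τ (some (c r)) + y))
            (pderiv (some (c r)) (G d (ptr F J ω) (r + 1))) -
          eval (ptw F ⌊o d * J⌋₊ ω τ') (pderiv (some (c r)) (G d (ptr F J ω) (r + 1)))| ≤
          (2 : ℝ) ^ ((lv d r - lv d (r + 1) + C₁ * (C * η₀) +
            2 * D * D * (lvl - (lv d r - o d))) * J) := by
  classical
  obtain ⟨C₂, hC₂, hk1⟩ := k1_ev D r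
  refine ⟨4 * C₂ + 4 * (D * D) + 20, by omega, ?_⟩
  intro m c Dr N N₂ R C a Eb ε₀ η₀ Pt o lv be J F b κ z B gc gT g₀ G H T TH Gt Ht W hc hη d hi
    lvl A hd hdJ hAB hA hCJ hhi0 hlvl0 hhi hlvl hal
  have hJ0 : (0 : ℝ) ≤ J := Nat.cast_nonneg J
  have h2 : (0 : ℝ) < 2 := by norm_num
  have hC1 : 1 ≤ C := W.win.C1
  have c2 : (1 : ℝ) ≤ C₂ := by exact_mod_cast hC₂
  push_cast at hCJ hhi
  have hDD : (0 : ℝ) ≤ (D : ℝ) * D := by positivity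
  have hηJ : 0 ≤ η₀ * J := mul_nonneg hη hJ0
  obtain ⟨X, hX⟩ : ∃ X : ℝ, X = C * (η₀ * J) := ⟨_, rfl⟩
  have hηX : η₀ * J ≤ X := by rw [hX]; exact le_mul_of_one_le_left hηJ hC1
  have hX0 : 0 ≤ X := hηJ.trans hηX
  rw [← hX] at hCJ
  have hX1 : 20 ≤ X := by linarith
  have hev := W.wb.ev d hd
  obtain ⟨ho0, hoa⟩ := W.wb.ho d hd
  have od1 : (⌊o d * J⌋₊ : ℝ) ≤ o d * J := Nat.floor_le (mul_nonneg ho0 hJ0)
  have od2 : o d * J < ⌊o d * J⌋₊ + 1 := Nat.lt_floor_add_one _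
  obtain ⟨-, -, a1, a2⟩ := W.wb.g_num hd (l := r) (by omega)
  obtain ⟨-, -, b1, b2⟩ := W.wb.g_num hd (l := r + 1) le_rfl
  obtain ⟨K, hK⟩ : ∃ K, K = ⌊lvl * J⌋₊ := ⟨_, rfl⟩
  have K1 : (K : ℝ) ≤ lvl * J := by rw [hK]; exact Nat.floor_le (mul_nonneg hlvl0 hJ0)
  have K2 : lvl * J < K + 1 := by rw [hK]; exact Nat.lt_floor_add_one _
  have hlvlJ : lv d r * J - o d * J + X ≤ lvl * J := by
    have := mul_le_mul_of_nonneg_right hlvl hJ0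
    refine le_trans (le_of_eq ?_) this
    rw [hX]; ring
  have hgK : g₀ d r ≤ ⌊o d * J⌋₊ + K := by
    have : (g₀ d r : ℝ) ≤ ((⌊o d * J⌋₊ + K : ℕ) : ℝ) := by
      push_cast
      linarith
    exact_mod_cast this
  -- the numbers of the code
  have e1 : (⌊(Eb + (fun _ : ℕ => η₀) d + (fun _ : ℕ => η₀) d) * J⌋₊ : ℝ) ≤
      Eb * J + 2 * (η₀ * J) := by
    refine (Nat.floor_le ?_).trans (le_of_eq (by ring))
    have : 0 ≤ (Eb + η₀ + η₀) * (J : ℝ) := mul_nonneg (by linarith [W.win.Eb0]) hJ0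
    exact this
  obtain ⟨n, hn⟩ : ∃ n, n = ⌊C * (η₀ * J)⌋₊ + 1 := ⟨_, rfl⟩
  have n1 : (n : ℝ) ≤ X + 1 := by
    rw [hn, Nat.cast_add, Nat.cast_one, hX]
    have := Nat.floor_le (show 0 ≤ C * (η₀ * J) by rw [← hX]; exact hX0)
    linarith
  have hhiJ : ∀ l ≤ r + 1, Eb * J + lv d l * J + (4 * C₂ + 4 * (D * D) + 20) * X ≤ hi * J :=
    fun l hl => by
      have := mul_le_mul_of_nonneg_right (hhi l hl) hJ0
      refine le_trans (le_of_eq ?_) this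
      rw [hX]; ring
  have hDX : (0 : ℝ) ≤ 4 * ((D : ℝ) * D) * X := by positivity
  have hCX : X ≤ C₂ * X := le_mul_of_one_le_left hX0 c2
  have hhi1 : 1 ≤ ⌊hi * J⌋₊ := by
    refine Nat.le_floor ?_
    have q1 := hhiJ (r + 1) le_rfl
    have q2 : 0 ≤ Eb * (J : ℝ) := mul_nonneg W.win.Eb0 hJ0
    have q3 : (0 : ℝ) ≤ lv d (r + 1) * J := (Nat.cast_nonneg _).trans b2
    push_cast
    nlinarith
  obtain ⟨h', hh'⟩ : ∃ h', ⌊hi * J⌋₊ = h' + 1 := ⟨⌊hi * J⌋₊ - 1, by omega⟩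
  have hh2 : hi * J < ⌊hi * J⌋₊ + 1 := Nat.lt_floor_add_one _
  obtain ⟨β, hβ⟩ : ∃ β : ℝ, β = 2 ^ g₀ d r / 2 ^ (⌊o d * J⌋₊ + K) := ⟨_, rfl⟩
  have hβ0 : 0 < β := by rw [hβ]; positivity
  have hβ1 : β ≤ 1 := by
    rw [hβ, div_le_one (by positivity)]
    exact pow_le_pow_right₀ (by norm_num) hgK
  have hfun : (fun ω => ⌊2 ^ g₀ d r / 2 ^ ⌊o d * J⌋₊ * F.d ω (c r) / β⌋) =
      fun ω => F.D ⌊lvl * J⌋₊ ω (c r) := by
    funext ω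
    show _ = ⌊(2 : ℝ) ^ ⌊lvl * J⌋₊ * F.d ω (c r)⌋
    congr 1
    rw [← hK, hβ, pow_add]
    field_simp
  obtain ⟨A₂, k1, k2, k3⟩ := hk1 (J := J) (F := F) (c := c) (n := n) (w := ⌊o d * J⌋₊)
    (hi := h') (c₀ := 1 / 2) (A := A) (β := β) (G := G d) (H := H d) hc hdJ (hev.ball.sub hAB)
    (hev.cls.sub hAB) (fun ω hω l hl τ hτ => by
      rw [hn]
      exact W.own d hd ω (hAB ω hω) l (by omega) τ hτ)
    (kok_alv hdJ) (fun l hl => by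
      have q1 := hhiJ l (by omega)
      have q2 : (g₀ d l : ℝ) ≤ lv d l * J := (W.wb.g_num hd (l := l) (by omega)).2.2.2
      have q3 : ((⌊(Eb + (fun _ : ℕ => η₀) d + (fun _ : ℕ => η₀) d) * J⌋₊ + g₀ d l +
          C₂ * (n + 1) + 1 : ℕ) : ℝ) ≤ ((h' + 1 : ℕ) : ℝ) := by
        rw [← hh']
        push_cast
        have q4 : (C₂ : ℝ) * (n + 1) ≤ C₂ * (X + 2) :=
          mul_le_mul_of_nonneg_left (by linarith) (by linarith)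
        have q5 : (C₂ : ℝ) * (X + 2) = C₂ * X + 2 * C₂ := by ring
        nlinarith
      have q6 : ⌊(Eb + (fun _ : ℕ => η₀) d + (fun _ : ℕ => η₀) d) * J⌋₊ + g₀ d l +
          C₂ * (n + 1) + 1 ≤ h' + 1 := by exact_mod_cast q3
      beta_reduce at q6 ⊢
      omega) hβ0 hβ1 (by norm_num) hA (fun E hE hPE => by
      rw [hfun, ← hh']
      exact hal E hE hPE)
  refine ⟨A₂, k1, by linarith, fun ω hω τ hτ τ' hτ' y hy => ?_⟩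
  refine (k3 ω hω τ hτ τ' hτ' y (by rw [hn]; exact hy)).trans ?_
  have q0 : 1 / β = (2 : ℝ) ^ (((⌊o d * J⌋₊ + K : ℕ) : ℝ) - g₀ d r) := by
    rw [hβ, one_div_div, Real.rpow_sub h2, Real.rpow_natCast, Real.rpow_natCast]
  have q1 : (1 / β) ^ (2 * D * D) = (2 : ℝ) ^ ((((⌊o d * J⌋₊ + K : ℕ) : ℝ) - g₀ d r) *
      ((2 * D * D : ℕ) : ℝ)) := by
    rw [q0, ← Real.rpow_natCast, ← Real.rpow_mul h2.le]
  have q2 : (1 / β) ^ (2 * D * D) * (2 ^ (C₂ * (n + 1)) * (2 ^ g₀ d r / 2 ^ g₀ d (r + 1))) =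
      (2 : ℝ) ^ ((((⌊o d * J⌋₊ + K : ℕ) : ℝ) - g₀ d r) * ((2 * D * D : ℕ) : ℝ) +
        (((C₂ * (n + 1) : ℕ) : ℝ) + ((g₀ d r : ℝ) - g₀ d (r + 1)))) := by
    rw [q1, Real.rpow_add h2, Real.rpow_add h2, Real.rpow_sub h2 (g₀ d r : ℝ),
      Real.rpow_natCast, Real.rpow_natCast, Real.rpow_natCast]
  rw [q2]
  refine Real.rpow_le_rpow_of_exponent_le (by norm_num) ?_
  have q4 : (C₂ : ℝ) * (n + 1) ≤ C₂ * (X + 2) :=
    mul_le_mul_of_nonneg_left (by linarith) (by linarith)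
  have q5 : (C₂ : ℝ) * (X + 2) = C₂ * X + 2 * C₂ := by ring
  have q6 : (((⌊o d * J⌋₊ + K : ℕ) : ℝ) - g₀ d r) * ((2 * D * D : ℕ) : ℝ) ≤
      (lvl * J - (lv d r * J - o d * J) + X) * (2 * D * D) := by
    push_cast
    refine mul_le_mul_of_nonneg_right ?_ (by positivity)
    linarith
  have q7 : (lvl * J - (lv d r * J - o d * J) + X) * (2 * D * D) =
      2 * D * D * (lvl * J - (lv d r * J - o d * J)) + 2 * ((D : ℝ) * D) * X := by ring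
  have q8 : (lv d r - lv d (r + 1) + ((4 * C₂ + 4 * (D * D) + 20 : ℕ) : ℝ) * (C * η₀) +
      2 * D * D * (lvl - (lv d r - o d))) * (J : ℝ) = lv d r * J - lv d (r + 1) * J +
      (4 * C₂ + 4 * (D * D) + 20) * X + 2 * D * D * (lvl * J - (lv d r * J - o d * J)) := by
    rw [hX]
    push_cast
    ring
  rw [q8]
  push_cast at q6 ⊢
  nlinarith

/-- **A list of windows.** -/
theorem slc_list (D r : ℕ) : ∃ C₁ : ℕ, 1 ≤ C₁ ∧ ∀ {m : ℕ} {c : ℕ → Fin m} {Dr N N₂ : ℕ}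
    {R : ℕ → Prop} {C a Eb ε₀ η₀ : ℝ} {Pt : ℝ → ℝ → ℝ} {o : ℕ → ℝ} {lv be : ℕ → ℕ → ℝ} {J : ℕ}
    {F : Fam m J} {b : ℕ → ℕ → ℝ} {κ : ℝ} {z : ℕ → ℕ → ℕ} {B : F.Ω → Prop}
    {gc gT g₀ : ℕ → ℕ → ℕ} {G : ℕ → PtT F → ℕ → MvPolynomial (Option (Fin m)) ℝ}
    {H : ℕ → LnT F → ℕ → MvPolynomial (Option (Fin m)) ℝ}
    {T : ℕ → PtT F → ℕ → MvPolynomial (Option (Fin m)) ℝ}
    {TH : ℕ → LnT F → ℕ → MvPolynomial (Option (Fin m)) ℝ}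
    {Gt : ℕ → PtT F → MvPolynomial (Option (Fin m)) ℝ}
    {Ht : ℕ → LnT F → MvPolynomial (Option (Fin m)) ℝ},
    WG c (r + 1) D Dr N N₂ R C a Eb ε₀ η₀ Pt o lv be F b κ z B gc gT g₀ G H T TH Gt Ht →
    Set.InjOn c (Set.Iio (r + 2)) → 0 ≤ η₀ →
    ∀ {hi lvl : ℕ → ℝ}, 0 < Pe F.p B → C₁ ≤ C * (η₀ * J) → ∀ n ≤ N₂ + 1,
    (∀ k < n, ⌊o k * J⌋₊ ≤ J ∧ 0 ≤ hi k ∧ 0 ≤ lvl k ∧
      (∀ l ≤ r + 1, Eb + lv k l + C₁ * (C * η₀) ≤ hi k) ∧ lv k r - o k + C * η₀ ≤ lvl k) →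
    (∀ k < n, ∀ (E : F.Ω → Prop), Sub E B → Pe F.p B / 2 ^ n ≤ Pe F.p E →
      Real.log (2 * D + 1) < CH (Pool.Agent.H49.Ent.cond F.p E True)
        (fun ω => F.D ⌊lvl k * J⌋₊ ω (c r))
        (fun ω => ((fun l : Fin (r + 2) => H k (slam F ⌊o k * J⌋₊ ω) l), F.T ω,
          (fun l : Fin r => F.X ⌊hi k * J⌋₊ ω (c l)),
          fun l : Fin r => F.D ⌊hi k * J⌋₊ ω (c l)))) →
    ∃ A₂ : F.Ω → Prop, Sub A₂ B ∧ Pe F.p B / 2 ^ n ≤ Pe F.p A₂ ∧ ∀ k < n, ∀ ω, A₂ ω →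
      ∀ τ ∈ Set.Icc (0 : ℝ) 1, ∀ τ' ∈ Set.Icc (0 : ℝ) 1, ∀ y : ℝ,
        |y| ≤ 2 ^ (⌊C * (η₀ * J)⌋₊ + 3) / 2 ^ g₀ k r →
        |eval (Function.update (ptw F ⌊o k * J⌋₊ ω τ) (some (c r))
            (ptw F ⌊o k * J⌋₊ ω τ (some (c r)) + y))
            (pderiv (some (c r)) (G k (ptr F J ω) (r + 1))) -
          eval (ptw F ⌊o k * J⌋₊ ω τ') (pderiv (some (c r)) (G k (ptr F J ω) (r + 1)))| ≤
          (2 : ℝ) ^ ((lv k r - lv k (r + 1) + C₁ * (C * η₀) +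
            2 * D * D * (lvl k - (lv k r - o k))) * J) := by
  classical
  obtain ⟨C₁, hC₁, h1⟩ := slc_one D r
  refine ⟨C₁, hC₁, ?_⟩
  intro m c Dr N N₂ R C a Eb ε₀ η₀ Pt o lv be J F b κ z B gc gT g₀ G H T TH Gt Ht W hc hη hi
    lvl hB hCJ n hn hnum hal
  have key : ∀ n' ≤ n, ∃ A₂ : F.Ω → Prop, Sub A₂ B ∧ Pe F.p B / 2 ^ n' ≤ Pe F.p A₂ ∧
      ∀ k < n', ∀ ω, A₂ ω →
      ∀ τ ∈ Set.Icc (0 : ℝ) 1, ∀ τ' ∈ Set.Icc (0 : ℝ) 1, ∀ y : ℝ,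
        |y| ≤ 2 ^ (⌊C * (η₀ * J)⌋₊ + 3) / 2 ^ g₀ k r →
        |eval (Function.update (ptw F ⌊o k * J⌋₊ ω τ) (some (c r))
            (ptw F ⌊o k * J⌋₊ ω τ (some (c r)) + y))
            (pderiv (some (c r)) (G k (ptr F J ω) (r + 1))) -
          eval (ptw F ⌊o k * J⌋₊ ω τ') (pderiv (some (c r)) (G k (ptr F J ω) (r + 1)))| ≤
          (2 : ℝ) ^ ((lv k r - lv k (r + 1) + C₁ * (C * η₀) +
            2 * D * D * (lvl k - (lv k r - o k))) * J) := by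
    intro n'
    induction n' with
    | zero =>
      intro _
      exact ⟨B, fun _ h => h, by rw [pow_zero, div_one], fun k hk => absurd hk (Nat.not_lt_zero k)⟩
    | succ n' ih =>
      intro hn'
      obtain ⟨A₁, a1, a2, a3⟩ := ih (by omega)
      have hA₁ : 0 < Pe F.p A₁ := lt_of_lt_of_le (by positivity) a2
      obtain ⟨q1, q2, q3, q4, q5⟩ := hnum n' (by omega)
      obtain ⟨A₂, b1, b2, b3⟩ := h1 W hc hη (d := n') (hi := hi n') (lvl := lvl n') (A := A₁)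
        (by omega) q1 a1 hA₁ hCJ q2 q3 q4 q5 (fun E hE hPE => by
          refine hal n' (by omega) E (fun ω hω => a1 ω (hE ω hω)) ?_
          have h5 : Pe F.p B / 2 ^ n ≤ Pe F.p B / 2 ^ (n' + 1) := by
            refine div_le_div_of_nonneg_left hB.le (by positivity) ?_
            exact pow_le_pow_right₀ (by norm_num) (by omega)
          have h6 : Pe F.p B / 2 ^ (n' + 1) = 1 / 2 * (Pe F.p B / 2 ^ n') := by
            rw [pow_succ]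
            field_simp
          linarith)
      refine ⟨A₂, fun ω hω => a1 ω (b1 ω hω), ?_, fun k hk ω hω => ?_⟩
      · have h6 : Pe F.p B / 2 ^ (n' + 1) = Pe F.p B / 2 ^ n' / 2 := by
          rw [pow_succ]
          field_simp
        rw [h6]
        linarith
      · rcases Nat.lt_succ_iff_lt_or_eq.1 hk with h | h
        · exact a3 k h ω (b1 ω hω)
        · rw [h]
          exact b3 ω hω
  exact key n le_rfl

end Pool.CNC28
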