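import Pool.Agent.H28.CNC.Cor
import Pool.Agent.H28.CNC.Slc

/-!
# The charts of the windows from `WG`

`slc_ix`: `slc_list` for any list of windows. `nph_wg`: the structure `Nph` on a part of the event.
-/

set_option autoImplicit false

namespace Pool.CNC28

open Finset Real MvPolynomial
open Pool.Agent.H49.Ent Pool.Agent.H32.Dense Pool.STK Pool.KA Pool.KSAT Pool.K2S Pool.PB Pool.S6C
open Pool.GEN Pool.CHT Pool.CHX Pool.ISO Pool.D2R Pool.D2G30 Pool.V1E Pool.CR99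
open Pool.FLF (Fam.sub)
open Pool.PB.Trl (rt rt_mem t_rt)

/-- **A list of windows.** -/
theorem slc_ix (D r : ℕ) : ∃ C₁ : ℕ, 1 ≤ C₁ ∧ ∀ {m : ℕ} {c : ℕ → Fin m} {Dr N N₂ : ℕ}
    {R : ℕ → Prop} {C a Eb ε₀ η₀ : ℝ} {Pt : ℝ → ℝ → ℝ} {o : ℕ → ℝ} {lv be : ℕ → ℕ → ℝ} {J : ℕ}
    {F : Fam m J} {b : ℕ → ℕ → ℝ} {κ : ℝ} {z : ℕ → ℕ → ℕ} {B : F.Ω → Prop}
    {gc gT g₀ : ℕ → ℕ → ℕ} {G : ℕ → PtT F → ℕ → MvPolynomial (Option (Fin m)) ℝ}
    {H : ℕ → LnT F → ℕ → MvPolynomial (Option (Fin m)) ℝ}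
    {T : ℕ → PtT F → ℕ → MvPolynomial (Option (Fin m)) ℝ}
    {TH : ℕ → LnT F → ℕ → MvPolynomial (Option (Fin m)) ℝ}
    {Gt : ℕ → PtT F → MvPolynomial (Option (Fin m)) ℝ}
    {Ht : ℕ → LnT F → MvPolynomial (Option (Fin m)) ℝ},
    WG c (r + 1) D Dr N N₂ R C a Eb ε₀ η₀ Pt o lv be F b κ z B gc gT g₀ G H T TH Gt Ht →
    Set.InjOn c (Set.Iio (r + 2)) → 0 ≤ η₀ →
    ∀ {ix : ℕ → ℕ} {hi lvl : ℕ → ℝ}, 0 < Pe F.p B → C₁ ≤ C * (η₀ * J) → ∀ n : ℕ,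
    (∀ k < n, ix k ≤ N₂ ∧ ⌊o (ix k) * J⌋₊ ≤ J ∧ 0 ≤ hi k ∧ 0 ≤ lvl k ∧
      (∀ l ≤ r + 1, Eb + lv (ix k) l + C₁ * (C * η₀) ≤ hi k) ∧
      lv (ix k) r - o (ix k) + C * η₀ ≤ lvl k) →
    (∀ k < n, ∀ (E : F.Ω → Prop), Sub E B → Pe F.p B / 2 ^ n ≤ Pe F.p E →
      Real.log (2 * D + 1) < CH (Pool.Agent.H49.Ent.cond F.p E True)
        (fun ω => F.D ⌊lvl k * J⌋₊ ω (c r))
        (fun ω => ((fun l : Fin (r + 2) => H (ix k) (slam F ⌊o (ix k) * J⌋₊ ω) l), F.T ω,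
          (fun l : Fin r => F.X ⌊hi k * J⌋₊ ω (c l)),
          fun l : Fin r => F.D ⌊hi k * J⌋₊ ω (c l)))) →
    ∃ A₂ : F.Ω → Prop, Sub A₂ B ∧ Pe F.p B / 2 ^ n ≤ Pe F.p A₂ ∧ ∀ k < n, ∀ ω, A₂ ω →
      ∀ τ ∈ Set.Icc (0 : ℝ) 1, ∀ τ' ∈ Set.Icc (0 : ℝ) 1, ∀ y : ℝ,
        |y| ≤ 2 ^ (⌊C * (η₀ * J)⌋₊ + 3) / 2 ^ g₀ (ix k) r →
        |eval (Function.update (ptw F ⌊o (ix k) * J⌋₊ ω τ) (some (c r))
            (ptw F ⌊o (ix k) * J⌋₊ ω τ (some (c r)) + y))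
            (pderiv (some (c r)) (G (ix k) (ptr F J ω) (r + 1))) -
          eval (ptw F ⌊o (ix k) * J⌋₊ ω τ')
            (pderiv (some (c r)) (G (ix k) (ptr F J ω) (r + 1)))| ≤
          (2 : ℝ) ^ ((lv (ix k) r - lv (ix k) (r + 1) + C₁ * (C * η₀) +
            2 * D * D * (lvl k - (lv (ix k) r - o (ix k)))) * J) := by
  classical
  obtain ⟨C₁, hC₁, h1⟩ := slc_one D r
  refine ⟨C₁, hC₁, ?_⟩
  intro m c Dr N N₂ R C a Eb ε₀ η₀ Pt o lv be J F b κ z B gc gT g₀ G H T TH Gt Ht W hc hη ix hi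
    lvl hB hCJ n hnum hal
  have key : ∀ n' ≤ n, ∃ A₂ : F.Ω → Prop, Sub A₂ B ∧ Pe F.p B / 2 ^ n' ≤ Pe F.p A₂ ∧
      ∀ k < n', ∀ ω, A₂ ω →
      ∀ τ ∈ Set.Icc (0 : ℝ) 1, ∀ τ' ∈ Set.Icc (0 : ℝ) 1, ∀ y : ℝ,
        |y| ≤ 2 ^ (⌊C * (η₀ * J)⌋₊ + 3) / 2 ^ g₀ (ix k) r →
        |eval (Function.update (ptw F ⌊o (ix k) * J⌋₊ ω τ) (some (c r))
            (ptw F ⌊o (ix k) * J⌋₊ ω τ (some (c r)) + y))
            (pderiv (some (c r)) (G (ix k) (ptr F J ω) (r + 1))) -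
          eval (ptw F ⌊o (ix k) * J⌋₊ ω τ')
            (pderiv (some (c r)) (G (ix k) (ptr F J ω) (r + 1)))| ≤
          (2 : ℝ) ^ ((lv (ix k) r - lv (ix k) (r + 1) + C₁ * (C * η₀) +
            2 * D * D * (lvl k - (lv (ix k) r - o (ix k)))) * J) := by
    intro n'
    induction n' with
    | zero =>
      intro _
      exact ⟨B, fun _ h => h, by rw [pow_zero, div_one], fun k hk => absurd hk (Nat.not_lt_zero k)⟩
    | succ n' ih =>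
      intro hn'
      obtain ⟨A₁, a1, a2, a3⟩ := ih (by omega)
      have hA₁ : 0 < Pe F.p A₁ := lt_of_lt_of_le (by positivity) a2
      obtain ⟨q0, q1, q2, q3, q4, q5⟩ := hnum n' (by omega)
      obtain ⟨A₂, b1, b2, b3⟩ := h1 W hc hη (d := ix n') (hi := hi n') (lvl := lvl n') (A := A₁)
        q0 q1 a1 hA₁ hCJ q2 q3 q4 q5 (fun E hE hPE => by
          refine hal n' (by omega) E (fun ω hω => a1 ω (hE ω hω)) ?_
          have h5 : Pe F.p B / 2 ^ n ≤ Pe F.p B / 2 ^ (n' + 1) := by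
            refine div_le_div_of_nonneg_left hB.le (by positivity) ?_
            exact pow_le_pow_right₀ (by norm_num) (by omega)
          have h6 : Pe F.p B / 2 ^ (n' + 1) = 1 / 2 * (Pe F.p B / 2 ^ n') := by
            rw [pow_succ]
            field_simp
          linarith)
      refine ⟨A₂, fun ω hω => a1 ω (b1 ω hω), ?_, fun k hk ω hω => ?_⟩
      · have h6 : Pe F.p B / 2 ^ (n' + 1) = Pe F.p B / 2 ^ n' / 2 := by
          rw [pow_succ]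
          field_simp
        rw [h6]
        linarith
      · rcases Nat.lt_succ_iff_lt_or_eq.1 hk with h | h
        · exact a3 k h ω (b1 ω hω)
        · rw [h]
          exact b3 ω hω
  exact key n le_rfl

/-- **The charts of the windows.** -/
theorem nph_wg (D : ℕ) : ∃ C₁ : ℕ, 1 ≤ C₁ ∧ ∀ {m : ℕ} {c : ℕ → Fin m} {Dr N N₂ : ℕ}
    {R : ℕ → Prop} {C a Eb ε₀ η₀ : ℝ} {Pt : ℝ → ℝ → ℝ} {o : ℕ → ℝ} {lv be : ℕ → ℕ → ℝ} {J : ℕ}
    {F : Fam m J} {b : ℕ → ℕ → ℝ} {κ : ℝ} {z : ℕ → ℕ → ℕ} {B : F.Ω → Prop}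
    {gc gT g₀ : ℕ → ℕ → ℕ} {G : ℕ → PtT F → ℕ → MvPolynomial (Option (Fin m)) ℝ}
    {H : ℕ → LnT F → ℕ → MvPolynomial (Option (Fin m)) ℝ}
    {T : ℕ → PtT F → ℕ → MvPolynomial (Option (Fin m)) ℝ}
    {TH : ℕ → LnT F → ℕ → MvPolynomial (Option (Fin m)) ℝ}
    {Gt : ℕ → PtT F → MvPolynomial (Option (Fin m)) ℝ}
    {Ht : ℕ → LnT F → MvPolynomial (Option (Fin m)) ℝ},
    WG c 3 D Dr N N₂ R C a Eb ε₀ η₀ Pt o lv be F b κ z B gc gT g₀ G H T TH Gt Ht →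
    Set.InjOn c (Set.Iio 4) → 0 ≤ η₀ →
    ∀ {ix : ℕ → ℕ} {hi lvl : ℕ → ℝ} {δ : ℝ} {n μ : ℕ}, 0 < Pe F.p B → C₁ ≤ C * (η₀ * J) →
    (∀ k ≤ n, ix k ≤ N₂ ∧ ⌊o (ix k) * J⌋₊ ≤ J ∧ 0 ≤ hi k ∧ 0 ≤ lvl k ∧
      (∀ l ≤ 3, Eb + lv (ix k) l + C₁ * (C * η₀) ≤ hi k) ∧
      lv (ix k) 2 - o (ix k) + C * η₀ ≤ lvl k ∧ lvl k ≤ lv (ix k) 2 - o (ix k) + δ) →
    (∀ j ≤ n, ∀ k ≤ n, j < k → o (ix j) + η₀ ≤ o (ix k)) →
    (∀ j ≤ n, ∀ k ≤ n, j ≤ k → ∀ l, 2 ≤ l → l ≤ 3 → lv (ix j) l ≤ lv (ix k) l + δ) →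
    (∀ i < n, lv (ix (i + 1)) 2 ≤ lv (ix i) 2 + δ) →
    (∀ j ≤ n, ∀ k ≤ n, j ≤ k →
      lv (ix k) 2 + lv (ix j) 3 ≤ lv (ix j) 2 + lv (ix k) 3 + δ) →
    (C₁ * (C * η₀) + (2 * D * D + 1) * δ) * J ≤ μ →
    (∀ k ≤ n, ∀ (E : F.Ω → Prop), Sub E B → Pe F.p B / 2 ^ (n + 1) ≤ Pe F.p E →
      Real.log (2 * D + 1) < CH (Pool.Agent.H49.Ent.cond F.p E True)
        (fun ω => F.D ⌊lvl k * J⌋₊ ω (c 2))
        (fun ω => ((fun l : Fin 4 => H (ix k) (slam F ⌊o (ix k) * J⌋₊ ω) l), F.T ω,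
          (fun l : Fin 2 => F.X ⌊hi k * J⌋₊ ω (c l)),
          fun l : Fin 2 => F.D ⌊hi k * J⌋₊ ω (c l)))) →
    ∃ A₂ : F.Ω → Prop, Sub A₂ B ∧ Pe F.p B / 2 ^ (n + 1) ≤ Pe F.p A₂ ∧
      Nph F c A₂ n D (⌊C * (η₀ * J)⌋₊ + 1) μ (fun k => ⌊o (ix k) * J⌋₊) (fun k => g₀ (ix k))
        (fun k => G (ix k)) (fun k => H (ix k)) := by
  classical
  obtain ⟨C₂, hC₂, hsl⟩ := slc_ix D 2
  refine ⟨C₂ + 8, by omega, ?_⟩
  intro m c Dr N N₂ R C a Eb ε₀ η₀ Pt o lv be J F b κ z B gc gT g₀ G H T TH Gt Ht W hc hη ix hi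
    lvl δ n μ hB hCJ hnum hord hmon hst hexc hμ hal
  have hJ0 : (0 : ℝ) ≤ J := Nat.cast_nonneg J
  have h2 : (0 : ℝ) < 2 := by norm_num
  have hC1 : 1 ≤ C := W.win.C1
  have c2 : (1 : ℝ) ≤ C₂ := by exact_mod_cast hC₂
  push_cast at hCJ hnum hμ
  have hηJ : 0 ≤ η₀ * J := mul_nonneg hη hJ0
  obtain ⟨x, hx⟩ : ∃ x : ℝ, x = C * (η₀ * J) := ⟨_, rfl⟩
  have hηx : η₀ * J ≤ x := by rw [hx]; exact le_mul_of_one_le_left hηJ hC1
  have hx0 : 0 ≤ x := hηJ.trans hηx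
  rw [← hx] at hCJ
  have hx1 : 8 ≤ x := by linarith
  have hCη0 : 0 ≤ C * η₀ := mul_nonneg (by linarith) hη
  have hδ0 : 0 ≤ δ := by
    obtain ⟨-, -, -, -, -, q1, q2⟩ := hnum 0 (Nat.zero_le n)
    linarith
  have hδJ : 0 ≤ δ * J := mul_nonneg hδ0 hJ0
  have hDD : (0 : ℝ) ≤ 2 * D * D := by positivity
  have hμ' : (C₂ + 8) * x + (2 * D * D + 1) * (δ * J) ≤ μ := by
    refine le_trans (le_of_eq ?_) hμ
    rw [hx]
    ring
  have hDδ : 0 ≤ 2 * D * D * (δ * J) := mul_nonneg hDD hδJ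
  have hfl : (⌊C * (η₀ * J)⌋₊ : ℝ) ≤ x := by
    rw [hx]
    exact Nat.floor_le (by rw [← hx]; exact hx0)
  have hCx : C₂ * x ≤ C₂ * x := le_rfl
  have hC₂x : x ≤ C₂ * x := le_mul_of_one_le_left hx0 c2
  obtain ⟨A₂, a1, a2, a3⟩ := hsl (ix := ix) (hi := hi) (lvl := lvl) W hc hη hB
    (by rw [← hx]; linarith) (n + 1) (fun k hk => by
      obtain ⟨q1, q2, q3, q4, q5, q6, q7⟩ := hnum k (by omega)
      refine ⟨q1, q2, q3, q4, fun l hl => ?_, q6⟩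
      have := q5 l hl
      nlinarith) (fun k hk => hal k (by omega))
  refine ⟨A₂, a1, a2, ?_⟩
  have hev := fun k (hk : k ≤ n) => W.wb.ev (ix k) (hnum k hk).1
  have gn := fun k (hk : k ≤ n) l (hl : l ≤ 3) => W.wb.g_num (hnum k hk).1 (l := l) hl
  have hmul : ∀ {p q : ℝ}, p ≤ q → p * J ≤ q * J := fun h => mul_le_mul_of_nonneg_right h hJ0
  refine ⟨?_, fun k hk => (hnum k hk).2.1, ?_, fun k hk => (hev k hk).ball.degG,
    fun k hk => (hev k hk).ball.depG, fun k hk => (hev k hk).cls.sub a1, ?_, ?_, ?_, ?_, ?_⟩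
  · have : ((⌊C * (η₀ * J)⌋₊ + 1 : ℕ) : ℝ) ≤ μ := by
      push_cast
      nlinarith
    exact_mod_cast this
  · intro j hj k hk hjk
    refine Nat.floor_le_floor (hmul ?_)
    rcases Nat.lt_or_ge j k with h | h
    · linarith [hord j hj k hk h]
    · rw [le_antisymm hjk h]
  · intro k hk ω hω l _ hl τ hτ
    have h5 := W.own (ix k) (hnum k hk).1 ω (a1 ω hω) l hl τ hτ
    have h6 : (dv ⌊o (ix k) * J⌋₊ (fun s _ => H (ix k) s l) (c l)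
        (slam F ⌊o (ix k) * J⌋₊ ω)).eval τ = ptw F ⌊o (ix k) * J⌋₊ ω τ (some (c l)) -
        eval (ptw F ⌊o (ix k) * J⌋₊ ω τ) (G (ix k) (ptr F J ω) l) := by
      rw [(hev k hk).cls ω (a1 ω hω) l (by omega)]
      unfold dv
      rw [Polynomial.eval_sub, aeval_lc]
      rfl
    rw [h6] at h5
    exact h5
  · intro k hk ω hω τ hτ τ' hτ' y hy
    have h5 := a3 k (by omega) ω hω τ hτ τ' hτ' y (hy.trans (le_of_eq (by
      rw [show ⌊C * (η₀ * J)⌋₊ + 3 = (⌊C * (η₀ * J)⌋₊ + 1) + 2 from rfl, pow_add _ _ 2]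
      ring)))
    refine h5.trans ?_
    obtain ⟨-, -, u1, u2⟩ := gn k hk 2 (by norm_num)
    obtain ⟨-, -, v1, v2⟩ := gn k hk 3 le_rfl
    obtain ⟨-, -, -, -, -, w1, w2⟩ := hnum k hk
    have e1 : (2 : ℝ) ^ μ * (2 ^ g₀ (ix k) 2 / 2 ^ g₀ (ix k) 3) =
        (2 : ℝ) ^ ((μ : ℝ) + ((g₀ (ix k) 2 : ℝ) - g₀ (ix k) 3)) := by
      rw [Real.rpow_add h2, Real.rpow_sub h2, Real.rpow_natCast, Real.rpow_natCast,
        Real.rpow_natCast]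
    rw [e1]
    refine Real.rpow_le_rpow_of_exponent_le (by norm_num) ?_
    have e2 : (lv (ix k) 2 - lv (ix k) (2 + 1) + C₂ * (C * η₀) +
        2 * D * D * (lvl k - (lv (ix k) 2 - o (ix k)))) * J =
        lv (ix k) 2 * J - lv (ix k) 3 * J + C₂ * x +
        2 * D * D * (lvl k * J - (lv (ix k) 2 * J - o (ix k) * J)) := by
      rw [hx]
      ring
    rw [e2]
    have e3 : lvl k * J - (lv (ix k) 2 * J - o (ix k) * J) ≤ δ * J := by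
      have := hmul w2
      linarith
    have e4 := mul_le_mul_of_nonneg_left e3 hDD
    linarith
  · intro j hj k hk hjk ω hω l hl2 hl3 b' hb'
    rcases Nat.lt_or_ge j k with h | h
    swap
    · have e : j = k := le_antisymm hjk h
      subst e
      rw [sub_self, abs_zero]
      positivity
    · have ho := hord j hj k hk h
      have hz := W.zz (ix j) (hnum j hj).1 (ix k) (hnum k hk).1 ho
      have hle : ⌊o (ix j) * J⌋₊ ≤ ⌊o (ix k) * J⌋₊ :=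
        Nat.floor_le_floor (hmul (by linarith))
      have h5 := W.wb.bal (ix j) (hnum j hj).1 (ix k) (hnum k hk).1 (ix k) (hnum k hk).1 hle hz ω
        (a1 ω hω) l hl3 b' hb'
      have h6 := (hev j hj).near ω (a1 ω hω) l hl3 b'
      obtain ⟨u1, u2, u3, u4⟩ := gn j hj l hl3
      obtain ⟨-, -, v3, v4⟩ := gn k hk l hl3
      have hml := hmul (hmon j hj k hk hjk l hl2 hl3)
      obtain ⟨M, hM⟩ : ∃ M : ℕ, M = min (⌊b (ix j) l * J⌋₊ + (⌊o (ix k) * J⌋₊ -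
        ⌊o (ix j) * J⌋₊)) (g₀ (ix k) l) := ⟨_, rfl⟩
      rw [← hM] at h5
      have hMg : (g₀ (ix j) l : ℝ) ≤ M + (x + 1 + δ * J) := by
        rcases Nat.le_total (⌊b (ix j) l * J⌋₊ + (⌊o (ix k) * J⌋₊ - ⌊o (ix j) * J⌋₊))
          (g₀ (ix k) l) with hh | hh
        · have : M = ⌊b (ix j) l * J⌋₊ + (⌊o (ix k) * J⌋₊ - ⌊o (ix j) * J⌋₊) := by
            rw [hM]
            exact min_eq_left hh
          rw [this]
          push_cast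
          have : (0 : ℝ) ≤ ((⌊o (ix k) * J⌋₊ - ⌊o (ix j) * J⌋₊ : ℕ) : ℝ) := Nat.cast_nonneg _
          linarith
        · have : M = g₀ (ix k) l := by
            rw [hM]
            exact min_eq_right hh
          rw [this]
          have e5 : (lv (ix k) l + δ) * J = lv (ix k) l * J + δ * J := by ring
          linarith
      have h7 : (2 : ℝ) ^ ⌊C * (η₀ * J)⌋₊ / 2 ^ M ≤ 2 ^ μ / 2 / 2 ^ g₀ (ix j) l := by
        rw [div_div, div_le_div_iff₀ (by positivity) (by positivity), ← Real.rpow_natCast,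
          ← Real.rpow_natCast 2 (g₀ (ix j) l), ← Real.rpow_natCast 2 μ, ← Real.rpow_natCast 2 M]
        have e6 : (2 : ℝ) ^ ((⌊C * (η₀ * J)⌋₊ : ℕ) : ℝ) * (2 * 2 ^ ((g₀ (ix j) l : ℕ) : ℝ)) =
            2 ^ ((⌊C * (η₀ * J)⌋₊ : ℝ) + (1 + (g₀ (ix j) l : ℝ))) := by
          rw [Real.rpow_add h2, Real.rpow_add h2, Real.rpow_one]
        rw [e6, ← Real.rpow_add h2]
        refine Real.rpow_le_rpow_of_exponent_le (by norm_num) ?_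
        nlinarith
      have h8 : (2 : ℝ) / 2 ^ g₀ (ix j) l ≤ 2 ^ μ / 2 / 2 ^ g₀ (ix j) l := by
        refine div_le_div_of_nonneg_right ?_ (by positivity)
        rw [le_div_iff₀ h2]
        calc (2 : ℝ) * 2 = 2 ^ 2 := by norm_num
          _ ≤ 2 ^ μ := by
            refine pow_le_pow_right₀ (by norm_num) ?_
            have : ((2 : ℕ) : ℝ) ≤ μ := by
              push_cast
              nlinarith
            exact_mod_cast this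
      have e7 : eval b' (G (ix j) (ptr F J ω) l) - eval b' (G (ix k) (ptr F J ω) l) =
          (eval b' (Gno (c l) J J (fun y => G (ix j) y l) (ptr F J ω)) -
            eval b' (G (ix k) (ptr F J ω) l)) -
          (eval b' (Gno (c l) J J (fun y => G (ix j) y l) (ptr F J ω)) -
            eval b' (G (ix j) (ptr F J ω) l)) := by ring
      rw [e7]
      refine (abs_sub _ _).trans ((add_le_add (h5.trans h7) (h6.trans h8)).trans (le_of_eq ?_))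
      ring
  · intro i hi
    obtain ⟨-, -, u3, u4⟩ := gn i hi.le 2 (by norm_num)
    obtain ⟨-, -, v3, v4⟩ := gn (i + 1) hi 2 (by norm_num)
    have h5 := hmul (hst i hi)
    have : ((g₀ (ix (i + 1)) 2 : ℕ) : ℝ) ≤ ((g₀ (ix i) 2 + μ : ℕ) : ℝ) := by
      push_cast
      nlinarith
    exact_mod_cast this
  · intro j hj k hk hjk
    obtain ⟨-, -, u3, u4⟩ := gn j hj 2 (by norm_num)
    obtain ⟨-, -, v3, v4⟩ := gn k hk 2 (by norm_num)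
    obtain ⟨-, -, s3, s4⟩ := gn j hj 3 le_rfl
    obtain ⟨-, -, t3, t4⟩ := gn k hk 3 le_rfl
    have h5 := hmul (hexc j hj k hk hjk)
    have : ((g₀ (ix k) 2 + g₀ (ix j) 3 : ℕ) : ℝ) ≤ ((g₀ (ix j) 2 + g₀ (ix k) 3 + μ : ℕ) : ℝ) := by
      push_cast
      nlinarith
    exact_mod_cast this

end Pool.CNC28
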