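import Pool.Agent.H28.CNC.Nph
import Pool.Agent.H28.CNC.Nwg

/-!
# The chain of the charts of `u` and `N` on the windows `WG`

`nph_ev`: `nph_core` for the windows `WG c 3`.
-/

set_option autoImplicit false

namespace Pool.CNC28

open Finset Real MvPolynomial
open Pool.Agent.H49.Ent Pool.Agent.H32.Dense Pool.STK Pool.KA Pool.KSAT Pool.K2S Pool.PB Pool.S6C
open Pool.GEN Pool.CHT Pool.CHX Pool.ISO Pool.D2R Pool.D2G30 Pool.V1E Pool.CR99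
open Pool.PB.Trl (rt rt_mem t_rt)
open Pool.AFF82 (AfN afc afp afs pul vlc)
open Pool.CNC76

theorem Frm.sub {m J : ℕ} {F : Fam m J} {c : ℕ → Fin m} {B B₁ : F.Ω → Prop} {n : ℕ} {w : ℕ → ℕ}
    {g : ℕ → ℕ → ℕ} {G : ℕ → PtT F → ℕ → MvPolynomial (Option (Fin m)) ℝ} {N : F.Ω → AfN}
    {o s0 s1 sm : ℕ} {ctr : ℕ → F.Ω → Fin 3 → ℝ} {ρ : ℕ → ℝ}
    (V : Frm F c B n w g G N o s0 s1 sm ctr ρ) (h : Sub B₁ B) :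
    Frm F c B₁ n w g G N o s0 s1 sm ctr ρ where
  sm1 := V.sm1
  Nc k hk := (V.Nc k hk).sub h
  cc k hk := (V.cc k hk).sub h
  ρ0 := V.ρ0
  ρd := V.ρd
  ρw := V.ρw
  sml k hk ω hω := V.sml k hk ω (h ω hω)

/-- **The chain of the charts**, windows `WG`. -/
theorem nph_ev (D : ℕ) (hD : 1 ≤ D) : ∃ (C₁ : ℕ) (C₂ : ℝ), 1 ≤ C₁ ∧ 1 ≤ C₂ ∧
    ∀ {m : ℕ} {c : ℕ → Fin m} {Dr N N₂ : ℕ}
    {R : ℕ → Prop} {C a Eb ε₀ η₀ : ℝ} {Pt : ℝ → ℝ → ℝ} {o : ℕ → ℝ} {lv be : ℕ → ℕ → ℝ} {J : ℕ}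
    {F : Fam m J} {b : ℕ → ℕ → ℝ} {κ : ℝ} {z : ℕ → ℕ → ℕ} {B : F.Ω → Prop}
    {gc gT g₀ : ℕ → ℕ → ℕ} {G : ℕ → PtT F → ℕ → MvPolynomial (Option (Fin m)) ℝ}
    {H : ℕ → LnT F → ℕ → MvPolynomial (Option (Fin m)) ℝ}
    {T : ℕ → PtT F → ℕ → MvPolynomial (Option (Fin m)) ℝ}
    {TH : ℕ → LnT F → ℕ → MvPolynomial (Option (Fin m)) ℝ}
    {Gt : ℕ → PtT F → MvPolynomial (Option (Fin m)) ℝ}
    {Ht : ℕ → LnT F → MvPolynomial (Option (Fin m)) ℝ},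
    WG c 3 D Dr N N₂ R C a Eb ε₀ η₀ Pt o lv be F b κ z B gc gT g₀ G H T TH Gt Ht →
    Set.InjOn c (Set.Iio 4) → 0 ≤ η₀ →
    ∀ {ix : ℕ → ℕ} {hi lvl : ℕ → ℝ} {δ : ℝ} {n μ : ℕ}, 0 < Pe F.p B → C₁ ≤ C * (η₀ * J) →
    (∀ k ≤ n, ix k ≤ N₂ ∧ ⌊o (ix k) * J⌋₊ ≤ J ∧ 0 ≤ hi k ∧ 0 ≤ lvl k ∧
      (∀ l ≤ 3, Eb + lv (ix k) l + C₁ * (C * η₀) ≤ hi k) ∧
      lv (ix k) 2 - o (ix k) + C * η₀ ≤ lvl k ∧ lvl k ≤ lv (ix k) 2 - o (ix k) + δ) →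
    (∀ j ≤ n, ∀ k ≤ n, j < k → o (ix j) + η₀ ≤ o (ix k)) →
    (∀ j ≤ n, ∀ k ≤ n, j ≤ k → ∀ l, 2 ≤ l → l ≤ 3 → lv (ix j) l ≤ lv (ix k) l + δ) →
    (∀ i < n, lv (ix (i + 1)) 2 ≤ lv (ix i) 2 + δ) →
    (∀ j ≤ n, ∀ k ≤ n, j ≤ k →
      lv (ix k) 2 + lv (ix j) 3 ≤ lv (ix j) 2 + lv (ix k) 3 + δ) →
    (C₁ * (C * η₀) + (2 * D * D + 1) * δ) * J ≤ μ →
    (∀ k ≤ n, ∀ (E : F.Ω → Prop), Sub E B → Pe F.p B / 2 ^ (n + 1) ≤ Pe F.p E →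
      Real.log (2 * D + 1) < CH (Pool.Agent.H49.Ent.cond F.p E True)
        (fun ω => F.D ⌊lvl k * J⌋₊ ω (c 2))
        (fun ω => ((fun l : Fin 4 => H (ix k) (slam F ⌊o (ix k) * J⌋₊ ω) l), F.T ω,
          (fun l : Fin 2 => F.X ⌊hi k * J⌋₊ ω (c l)),
          fun l : Fin 2 => F.D ⌊hi k * J⌋₊ ω (c l)))) →
    ∀ {S' : Type} {Nf : F.Ω → AfN} {of s0 s1 sm : ℕ} {ctr : ℕ → F.Ω → Fin 3 → ℝ} {ρ : ℕ → ℝ}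
    {sd : F.Ω → S'} {Yc : F.Ω → Fin 3 → ℝ} {DB h Q : ℕ} {κ₀ η c₀ T₀ : ℝ},
    Frm F c B n (fun k => ⌊o (ix k) * J⌋₊) (fun k => g₀ (ix k)) (fun k => G (ix k)) Nf of s0 s1 sm
      ctr ρ →
    (∀ k ≤ n, Bll F.p B (ptr F J) (slam F ⌊o (ix k) * J⌋₊) sd
      (unt (fun ω => afc c (Nf ω) of s0 s1 (bt F ω)) (ctr k) (ρ k)) (unt Yc (ctr k) (ρ k))
      (fun ω => vlc c (Nf ω) of s0 s1 (bd F ω)) DB h Q κ₀ η c₀ T₀) →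
    D * D ≤ DB → κ₀ * 2 ^ ((D + 2) * (n + 1) + 4) ≤ 1 → c₀ < 1 → 0 < η → η ≤ 1 → 1 ≤ T₀ →
    C₂ * T₀ * 2 ^ h ≤ η * 2 ^ Q →
    ∃ B' : F.Ω → Prop, Sub B' B ∧ Pe F.p B ≤ 2 ^ ((D + 2) * (n + 1)) * Pe F.p B' ∧
      Chn F.p B' (ptr F J) (fun k => slam F ⌊o (ix k) * J⌋₊) sd
        (fun ω => afc c (Nf ω) of s0 s1 (bt F ω)) Yc
        (fun ω => vlc c (Nf ω) of s0 s1 (bd F ω)) n ctr ρ (fun k => 1 / 2 ^ g₀ (ix k) 2)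
        (fun k => 1 / 2 ^ g₀ (ix k) 3) (UU F c (fun k => G (ix k)) Nf of s0 s1)
        (PH F c (fun k => G (ix k)) Nf of s0 s1 ctr) (CS F c (fun k => G (ix k)) Nf of s0 s1 ctr)
        (D * D) DB h Q (κ₀ * 2 ^ ((D + 2) * (n + 1))) η c₀ T₀
        (C₂ * (n + 1) * 2 ^ (h + (D * D + 4) * (sm + μ + 1)) / η) ∧
      ∀ k ≤ n, ∀ ω, B' ω →
        |eval (bt F ω) (pderiv (some (c 2)) (G (ix k) (ptr F J ω) 3)) -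
          CS F c (fun k => G (ix k)) Nf of s0 s1 ctr k ω| ≤
          C₂ * (n + 1) * 2 ^ (h + (D * D + 4) * (sm + μ + 1)) / η *
            (1 / 2 ^ g₀ (ix k) 3 / (1 / 2 ^ g₀ (ix k) 2)) := by
  obtain ⟨C₁, hC₁, hwg⟩ := nph_wg D
  obtain ⟨C₂, hC₂, hcore⟩ := nph_core D hD
  refine ⟨C₁, C₂, hC₁, hC₂, ?_⟩
  intro m c Dr N N₂ R C a Eb ε₀ η₀ Pt o lv be J F b κ z B gc gT g₀ G H T TH Gt Ht W hc hη ix hi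
    lvl δ n μ hB hCJ hnum hord hmon hst hexc hμ hal S' Nf of s0 s1 sm ctr ρ sd Yc DB h Q κ₀ η c₀
    T₀ V hb hDB hκ hc0 hη0 hη1 hT hQ
  obtain ⟨A₂, a1, a2, a3⟩ := hwg W hc hη hB hCJ hnum hord hmon hst hexc hμ hal
  have hp : (0 : ℝ) < 2 ^ (n + 1) := by positivity
  have a2' : Pe F.p B ≤ 2 ^ (n + 1) * Pe F.p A₂ := by
    rw [div_le_iff₀ hp] at a2
    rw [mul_comm]
    exact a2
  have hA₂ : 0 < Pe F.p A₂ := lt_of_lt_of_le (by positivity) a2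
  have hb' := fun k (hk : k ≤ n) => Bll.subk (hb k hk) (B₁ := A₂) a1 hp a2'
  have e1 : (D + 2) * (n + 1) = (n + 1) + (D + 1) * (n + 1) := by ring
  obtain ⟨B', b1, b2, b3, b4⟩ := hcore (hc.mono fun i hi => by
      have : i < 3 := hi
      show i < 4
      omega) a3 (V.sub a1) hA₂ hb' hDB (by
      rw [mul_assoc, ← pow_add]
      have e2 : n + 1 + ((D + 1) * (n + 1) + 4) = (D + 2) * (n + 1) + 4 := by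
        rw [e1]
        omega
      rw [e2]
      exact hκ) hc0 hη0 hη1 hT hQ
  have e3 : κ₀ * 2 ^ (n + 1) * 2 ^ ((D + 1) * (n + 1)) = κ₀ * 2 ^ ((D + 2) * (n + 1)) := by
    rw [e1, pow_add _ (n + 1) ((D + 1) * (n + 1)), mul_assoc]
  rw [e3] at b3
  refine ⟨B', fun ω hω => a1 ω (b1 ω hω), ?_, b3, b4⟩
  calc Pe F.p B ≤ 2 ^ (n + 1) * Pe F.p A₂ := a2'
    _ ≤ 2 ^ (n + 1) * (2 ^ ((D + 1) * (n + 1)) * Pe F.p B') :=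
        mul_le_mul_of_nonneg_left b2 hp.le
    _ = _ := by rw [e1, pow_add _ (n + 1) ((D + 1) * (n + 1)), mul_assoc]

end Pool.CNC28
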