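import Pool.Agent.H28.CNC.Cor

/-!
# The charts of `u` and `N` of all windows in one frame: the chain

`nph_core`: on a part of the event the charts of `u` and `N` of the windows are a chain `Chn`, and the
own value of the slope is the closed number of the window up to a natural error.
-/

set_option autoImplicit false

namespace Pool.CNC28

open Finset Real MvPolynomial
open Pool.Agent.H49.Ent Pool.Agent.H32.Dense Pool.STK Pool.KA Pool.KSAT Pool.K2S Pool.PB Pool.S6C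
open Pool.GEN Pool.CHT Pool.CHX Pool.ISO Pool.D2R
open Pool.PB.Trl (rt rt_mem t_rt)
open Pool.CUB46 (phi q2 hh h3 gpt eval_phi)
open Pool.AFF82 (AfN afc afp afs pul vlc eval_afs eval_pul pul_deg afp_afc afc_add pul_afc)
open Pool.CNC76

/-- **The chain of the charts.** -/
theorem nph_core (D : ℕ) (hD : 1 ≤ D) : ∃ C : ℝ, 1 ≤ C ∧ ∀ {m J : ℕ} {S' : Type} {F : Fam m J}
    {c : ℕ → Fin m} {B : F.Ω → Prop} {n ν μ : ℕ} {w : ℕ → ℕ} {g : ℕ → ℕ → ℕ}
    {G : ℕ → PtT F → ℕ → MvPolynomial (Option (Fin m)) ℝ}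
    {H : ℕ → LnT F → ℕ → MvPolynomial (Option (Fin m)) ℝ} {N : F.Ω → AfN} {o s0 s1 sm : ℕ}
    {ctr : ℕ → F.Ω → Fin 3 → ℝ} {ρ : ℕ → ℝ} {sd : F.Ω → S'} {Yc : F.Ω → Fin 3 → ℝ}
    {DB h Q : ℕ} {κ η c₀ T : ℝ}, Set.InjOn c (Set.Iio 3) → Nph F c B n D ν μ w g G H →
    Frm F c B n w g G N o s0 s1 sm ctr ρ → 0 < Pe F.p B →
    (∀ k ≤ n, Bll F.p B (ptr F J) (slam F (w k)) sd
      (unt (fun ω => afc c (N ω) o s0 s1 (bt F ω)) (ctr k) (ρ k)) (unt Yc (ctr k) (ρ k))
      (fun ω => vlc c (N ω) o s0 s1 (bd F ω)) DB h Q κ η c₀ T) →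
    D * D ≤ DB → κ * 2 ^ ((D + 1) * (n + 1) + 4) ≤ 1 → c₀ < 1 → 0 < η → η ≤ 1 → 1 ≤ T →
    C * T * 2 ^ h ≤ η * 2 ^ Q →
    ∃ B' : F.Ω → Prop, Sub B' B ∧ Pe F.p B ≤ 2 ^ ((D + 1) * (n + 1)) * Pe F.p B' ∧
      Chn F.p B' (ptr F J) (fun k => slam F (w k)) sd (fun ω => afc c (N ω) o s0 s1 (bt F ω)) Yc
        (fun ω => vlc c (N ω) o s0 s1 (bd F ω)) n ctr ρ (fun k => 1 / 2 ^ g k 2)
        (fun k => 1 / 2 ^ g k 3) (UU F c G N o s0 s1) (PH F c G N o s0 s1 ctr)
        (CS F c G N o s0 s1 ctr) (D * D) DB h Q (κ * 2 ^ ((D + 1) * (n + 1))) η c₀ T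
        (C * (n + 1) * 2 ^ (h + (D * D + 4) * (sm + μ + 1)) / η) ∧
      ∀ k ≤ n, ∀ ω, B' ω →
        |eval (bt F ω) (pderiv (some (c 2)) (G k (ptr F J ω) 3)) -
          CS F c G N o s0 s1 ctr k ω| ≤
          C * (n + 1) * 2 ^ (h + (D * D + 4) * (sm + μ + 1)) / η *
            (1 / 2 ^ g k 3 / (1 / 2 ^ g k 2)) := by
  classical
  obtain ⟨C₁, hC₁, hnv⟩ := nv_all D D hD hD
  obtain ⟨C₂, hC₂, hgr⟩ := gro_own (D * D)
  obtain ⟨C₃, hC₃, hdn⟩ := dn_int D
  obtain ⟨C, hC⟩ : ∃ C : ℝ, C = 4 * C₁ ^ 2 * C₂ * C₃ := ⟨_, rfl⟩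
  have h11 : C₁ ≤ C₁ ^ 2 := by nlinarith
  have h12 : 1 ≤ C₁ ^ 2 := hC₁.trans h11
  have h23 : 1 ≤ C₂ * C₃ := one_le_mul_of_one_le_of_one_le hC₂ hC₃
  have hCe : C = 4 * (C₁ ^ 2 * (C₂ * C₃)) := by rw [hC]; ring
  have ca : C₁ ≤ C := by
    rw [hCe]
    nlinarith [mul_le_mul h11 h23 zero_le_one (by positivity)]
  have cb : 2 * C₁ ^ 2 ≤ C := by
    rw [hCe]
    nlinarith [le_mul_of_one_le_right (by positivity : (0 : ℝ) ≤ C₁ ^ 2) h23]
  have cc2 : 2 * C₁ * C₂ ≤ C := by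
    have h1 : C₁ * C₂ ≤ C₁ ^ 2 * (C₂ * C₃) :=
      mul_le_mul h11 (le_mul_of_one_le_right (by linarith) hC₃) (by linarith) (by positivity)
    rw [hCe]
    nlinarith
  have cd : C₂ ≤ C := by
    have : C₂ ≤ C₁ * C₂ := le_mul_of_one_le_left (by linarith) hC₁
    nlinarith
  have ce : 2 * C₁ + C₃ ≤ C := by
    have h1 : C₁ ≤ C₁ ^ 2 * (C₂ * C₃) := h11.trans (le_mul_of_one_le_right (by positivity) h23)
    have h2 : C₃ ≤ C₁ ^ 2 * (C₂ * C₃) := by
      have : C₃ ≤ C₂ * C₃ := le_mul_of_one_le_left (by linarith) hC₂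
      exact this.trans (le_mul_of_one_le_left (by positivity) h12)
    rw [hCe]
    linarith
  have hC1 : 1 ≤ C := hC₁.trans ca
  refine ⟨C, hC1, ?_⟩
  intro m J S' F c B n ν μ w g G H N o s0 s1 sm ctr ρ sd Yc DB h Q κ η c₀ T hc W V hB hb hDB hκ
    hc0 hη hη1 hT hQ
  obtain ⟨Y, hY⟩ : ∃ Y : F.Ω → Fin 3 → ℝ, Y = fun ω => afc c (N ω) o s0 s1 (bt F ω) :=
    ⟨_, rfl⟩
  obtain ⟨X, hX⟩ : ∃ X : F.Ω → Fin 3 → ℝ, X = fun ω => vlc c (N ω) o s0 s1 (bd F ω) :=
    ⟨_, rfl⟩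
  obtain ⟨U, hU⟩ : ∃ U, U = UU F c G N o s0 s1 := ⟨_, rfl⟩
  obtain ⟨Fn, hFn⟩ : ∃ Fn, Fn = NN F c G N o s0 s1 := ⟨_, rfl⟩
  obtain ⟨cs, hcs⟩ : ∃ cs, cs = CS F c G N o s0 s1 ctr := ⟨_, rfl⟩
  obtain ⟨R, hR⟩ : ∃ R : ℕ → ℝ, R = fun k => 2 ^ g k 2 / 2 ^ g k 3 := ⟨_, rfl⟩
  have hR0 : ∀ k, 0 < R k := fun k => by rw [hR]; positivity
  obtain ⟨Λ, hΛ⟩ : ∃ Λ : ℕ, Λ = h + (D * D + 4) * (sm + μ + 1) := ⟨_, rfl⟩
  obtain ⟨E, hE⟩ : ∃ E : ℝ, E = 2 ^ Λ / η := ⟨_, rfl⟩
  have hE0 : 0 < E := by rw [hE]; positivity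
  obtain ⟨s, hs⟩ : ∃ s : ℝ, s = C * (n + 1) * 2 ^ (h + (D * D + 4) * (sm + μ + 1)) / η :=
    ⟨_, rfl⟩
  have hsE : s = (n + 1) * (C * E) := by
    rw [hs, hE, hΛ]
    ring
  have hn0 : (0 : ℝ) ≤ n := Nat.cast_nonneg n
  have hCs : C * E ≤ s := by
    rw [hsE]
    exact le_mul_of_one_le_left (by positivity) (by linarith)
  have pw : ∀ {a : ℕ}, a ≤ Λ → (2 : ℝ) ^ a ≤ E := by
    intro a ha
    rw [hE, le_div_iff₀ hη]
    calc (2 : ℝ) ^ a * η ≤ 2 ^ a * 1 := mul_le_mul_of_nonneg_left hη1 (by positivity)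
      _ = 2 ^ a := mul_one _
      _ ≤ 2 ^ Λ := pow_le_pow_right₀ (by norm_num) ha
  have pwd : ∀ {a : ℕ}, a ≤ Λ → (2 : ℝ) ^ a / η ≤ E := by
    intro a ha
    rw [hE]
    exact div_le_div_of_nonneg_right (pow_le_pow_right₀ (by norm_num) ha) hη.le
  have pwm : ∀ {a : ℕ} {x : ℝ}, 0 ≤ x → x ≤ 2 ^ a → x ≤ 2 ^ a / η := by
    intro a x hx hxa
    refine hxa.trans ?_
    rw [le_div_iff₀ hη]
    exact mul_le_of_le_one_right (by positivity) hη1
  rw [← hY, ← hX] at hb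
  rw [← hY, ← hX, ← hU, ← hcs, ← hs]
  have hDD : D ≤ D * D := Nat.le_mul_of_pos_left D hD
  -- the slopes of all windows
  obtain ⟨B', h1, h2, h3⟩ := hnv (A := 2 ^ sm) (lam := fun k => 2 ^ o / 2 ^ w k)
    (ε₀ := fun k => 2 ^ ν / 2 ^ g k 2) (εN := fun k => 2 ^ ν / 2 ^ g k 3)
    (S₀ := fun k => 2 ^ μ * R k) (Fn := Fn) (U := U) hB hb hDB hκ hc0 hη hη1 hT
    (le_trans (by gcongr) hQ)
    (fun k hk => by rw [hFn]; exact clo_NN W V hk) (fun k hk => by rw [hU]; exact clo_UU W V hk)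
    V.cc (fun k hk ω _ => by rw [hFn]; exact deg_NN W hk ω)
    (fun k hk ω _ => by rw [hU]; exact deg_UU W hk ω)
    (fun k hk => ⟨(V.ρ0 k hk).1, by positivity, V.ρw k hk, by have := hR0 k; positivity⟩)
    (one_le_pow₀ (by norm_num)) (fun k hk ω hω => by
      rw [hFn, hU, hY, hX]
      exact sgm_ex hc (W.wJ k hk) (W.dep k hk _ 2) (W.dep k hk _ 3) (by positivity)
        (W.own k hk ω hω 2 le_rfl (by norm_num)) (W.own k hk ω hω 3 (by norm_num) le_rfl)
        (fun τ hτ τ' hτ' y hy => by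
          rw [hR]
          exact W.slp k hk ω hω τ hτ τ' hτ' y hy))
  have hcsl : ∀ k ω, csl (Fn k ω) (U k ω) (ctr k ω) = cs k ω := fun k ω => by
    rw [hFn, hU, hcs]
    rfl
  simp only [hcsl] at h3
  -- the numbers
  have hsm0 : (0 : ℝ) < 2 ^ sm := by positivity
  obtain ⟨M, hM⟩ : ∃ M : ℕ → ℝ, M = fun k => C₁ * 2 ^ h * (2 ^ sm * (2 ^ μ * R k)) / η :=
    ⟨_, rfl⟩
  have hMe : ∀ k, M k = C₁ * (2 ^ (h + sm + μ) / η) * R k := fun k => by
    rw [hM]
    show C₁ * 2 ^ h * (2 ^ sm * (2 ^ μ * R k)) / η = _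
    rw [pow_add, pow_add]
    ring
  have hM0 : ∀ k, 0 ≤ M k := fun k => by
    rw [hMe]
    have := hR0 k
    positivity
  have hyc : ∀ j ≤ n, ∀ ω, B ω → ∀ i, |Y ω i - ctr j ω i| ≤ ρ j / 2 := by
    intro j hj ω hω i
    have h4 := (hb j hj).y1 ω hω i
    unfold unt at h4
    rw [abs_div, abs_of_pos (V.ρ0 j hj).1, div_le_iff₀ (V.ρ0 j hj).1] at h4
    linarith
  have hcY : ∀ j ≤ n, ∀ ω, B ω → ∀ i, |Y ω i - ctr j ω i| ≤ ρ j := fun j hj ω hω i => by
    linarith [hyc j hj ω hω i, (V.ρ0 j hj).1]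
  have hcub : ∀ j ≤ n, ∀ k ≤ n, j ≤ k → ∀ ω, B ω → ∀ b : Fin 3 → ℝ,
      (∀ i, |b i - ctr k ω i| ≤ ρ k / 2 ^ sm) → ∀ i, |b i - ctr j ω i| ≤ ρ j := by
    intro j hj k hk hjk ω hω b hb' i
    have h6 : ρ k / 2 ^ sm ≤ ρ k / 2 := by
      refine div_le_div_of_nonneg_left (V.ρ0 k hk).1.le (by norm_num) ?_
      calc (2 : ℝ) = 2 ^ 1 := (pow_one 2).symm
        _ ≤ 2 ^ sm := pow_le_pow_right₀ (by norm_num) V.sm1
    have h7 := hb' i
    rcases Nat.lt_or_ge j k with h | h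
    · have h5 := V.ρd j hj k hk h
      have h8 := hyc j hj ω hω i
      have h9 := hyc k hk ω hω i
      rw [abs_sub_comm] at h9
      have e1 : b i - ctr j ω i = (b i - ctr k ω i) + (ctr k ω i - Y ω i) +
        (Y ω i - ctr j ω i) := by ring
      rw [e1]
      refine (abs_add_le _ _).trans ?_
      have h10 := abs_add_le (b i - ctr k ω i) (ctr k ω i - Y ω i)
      linarith [(V.ρ0 k hk).1, (V.ρ0 j hj).1]
    · have : j = k := le_antisymm hjk h
      subst this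
      linarith [(V.ρ0 j hj).1]
  have hctr0 : ∀ k ≤ n, ∀ ω, ∀ i, |ctr k ω i - ctr k ω i| ≤ ρ k / 2 ^ sm := fun k hk ω i => by
    rw [sub_self, abs_zero]
    exact div_nonneg (V.ρ0 k hk).1.le hsm0.le
  have hdU : ∀ j ≤ n, ∀ k ≤ n, j ≤ k → ∀ ω, B ω → ∀ b : Fin 3 → ℝ,
      (∀ i, |b i - ctr k ω i| ≤ ρ k / 2 ^ sm) → |eval b (U k ω) - eval b (U j ω)| ≤
        2 ^ μ / 2 ^ g j 2 := by
    intro j hj k hk hjk ω hω b hb'
    rw [hU]
    exact dif_U hc W V hj hk hjk hω hb'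
  -- the slope near the chart of `u`
  have hslp : ∀ k ≤ n, ∀ ω, B' ω → ∀ b : Fin 3 → ℝ, (∀ i, |b i - ctr k ω i| ≤ ρ k) → ∀ v,
      |v - eval b (U k ω)| ≤ 2 ^ μ / 2 ^ g k 2 →
      |eval (pn b v) (pderiv none (Fn k ω)) - cs k ω| ≤ 2 ^ (μ * D) * M k := by
    intro k hk ω hω b hb' v hv
    have h4 := (h3 k hk ω hω).1 b hb' (2 ^ μ) (one_le_pow₀ (by norm_num)) v (hv.trans (by
      have h5 : (1 : ℝ) ≤ 2 * 2 ^ ν := by
        have : (1 : ℝ) ≤ 2 ^ ν := one_le_pow₀ (by norm_num)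
        linarith
      have e1 : (2 : ℝ) ^ μ * (2 * (2 ^ ν / 2 ^ g k 2)) = 2 * 2 ^ ν * (2 ^ μ / 2 ^ g k 2) := by
        ring
      rw [e1]
      exact le_mul_of_one_le_left (by positivity) h5))
    rw [← pow_mul] at h4
    rw [hM]
    exact h4
  -- the growth
  have hgrow : ∀ k ≤ n, ∀ ω, ∀ P : MvPolynomial (Fin 3) ℝ, P.totalDegree ≤ D * D →
      ∀ Z : ℝ, (∀ b : Fin 3 → ℝ, (∀ i, |b i - ctr k ω i| ≤ ρ k / 2 ^ sm) → |eval b P| ≤ Z) →
      ∀ b : Fin 3 → ℝ, (∀ i, |b i - ctr k ω i| ≤ ρ k) →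
        |eval b P| ≤ C₂ * 2 ^ (sm * (D * D)) * Z := by
    intro k hk ω P hP Z hZ b hb'
    have h4 := hgr (P := P) (M := Z) (r := ρ k / 2 ^ sm) (N := 2 ^ sm) (y := ctr k ω) hP
      (div_pos (V.ρ0 k hk).1 hsm0) (one_le_pow₀ (by norm_num)) hZ b (fun i => by
        have e1 : (2 : ℝ) ^ sm * (ρ k / 2 ^ sm) = ρ k := by
          field_simp
        rw [e1]
        exact hb' i)
    rw [← pow_mul] at h4
    exact h4
  have hΛe : Λ = h + D * D * sm + D * D * μ + D * D + 4 * sm + 4 * μ + 4 := by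
    rw [hΛ]
    ring
  have hDμ : D * μ ≤ D * D * μ := Nat.mul_le_mul_right μ hDD
  have hνμ := W.νμ
  obtain ⟨q, hq⟩ : ∃ q : ℝ, q = 2 ^ (h + sm + μ) / η := ⟨_, rfl⟩
  have hq1 : 1 ≤ q := by
    rw [hq, le_div_iff₀ hη, one_mul]
    exact hη1.trans (one_le_pow₀ (by norm_num))
  have hCq : 1 ≤ C₁ * q := one_le_mul_of_one_le_of_one_le hC₁ hq1
  have hqE : ∀ {a : ℕ}, a + (h + sm + μ) ≤ Λ → 2 ^ a * q ≤ E := by
    intro a ha
    have e1 : 2 ^ a * q = (2 : ℝ) ^ (a + (h + sm + μ)) / η := by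
      rw [hq, pow_add]
      ring
    rw [e1]
    exact pwd ha
  have hPH : ∀ k ω, PH F c G N o s0 s1 ctr k ω = phc (Fn k ω) (U k ω) (cs k ω) := fun k ω => by
    rw [hFn, hU, hcs]
    rfl
  have hMq : ∀ k, M k = C₁ * q * R k := fun k => by rw [hMe, hq]
  have hP2 : ∀ k : ℕ, (0 : ℝ) < 1 / 2 ^ g k 2 := fun k => by positivity
  have hP3 : ∀ k : ℕ, (0 : ℝ) < 1 / 2 ^ g k 3 := fun k => by positivity
  have hRd : ∀ k, R k = 1 / 2 ^ g k 3 / (1 / 2 ^ g k 2) := fun k => by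
    rw [hR]
    show (2 : ℝ) ^ g k 2 / 2 ^ g k 3 = _
    field_simp
  have hRU : ∀ k, R k * (1 / 2 ^ g k 2) = 1 / 2 ^ g k 3 := fun k => by
    rw [hR]
    show (2 : ℝ) ^ g k 2 / 2 ^ g k 3 * (1 / 2 ^ g k 2) = _
    field_simp
  refine ⟨B', h1, h2, ?_, ?_⟩
  · refine ⟨fun k hk => Bll.subk (hb k hk) h1 (by positivity) h2, V.ρ0, V.ρd, fun k _ => hP2 k,
      fun k _ => hP3 k, fun ω _ => ?_, ?_, fun k hk => (V.cc k hk).sub h1, fun k hk => ?_,
      fun k hk => ?_, fun k hk => ?_, fun k hk ω _ => ?_, fun k hk ω _ => ?_, fun k hk ω hω => ?_,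
      fun k hk ω hω => ?_, ?_, ?_, ?_⟩
    · rw [hX]
      rfl
    · intro j hj k hk hjk ω ω' _ _ e
      show slam F (w j) ω = slam F (w j) ω'
      have e' : slam F (w k) ω = slam F (w k) ω' := e
      rw [slam_coarse F (W.wm j hj k hk hjk) (W.wJ k hk) ω,
        slam_coarse F (W.wm j hj k hk hjk) (W.wJ k hk) ω', e']
    · rw [hU]
      exact (clo_UU W V hk).sub h1
    · exact (clo_PH W V hk).sub h1
    · rw [hcs]
      exact (clo_CS W V hk).sub h1
    · rw [hU]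
      exact (deg_UU W hk ω).trans hDD
    · exact deg_PH W hk hD ω
    · -- ownU
      refine (h3 k hk ω hω).2.1.trans ?_
      refine div_le_div_of_nonneg_right ?_ (by have := (V.ρ0 k hk).1; positivity)
      have e1 : C₁ * (2 ^ sm) ^ 2 * (2 ^ ν / 2 ^ g k 2) =
          C₁ * 2 ^ (sm * 2 + ν) * (1 / 2 ^ g k 2) := by
        rw [← pow_mul, pow_add]
        ring
      rw [e1]
      refine mul_le_mul_of_nonneg_right (le_trans ?_ hCs) (hP2 k).le
      exact mul_le_mul ca (pw (by omega)) (by positivity) (by linarith)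
    · -- ownP
      rw [hPH]
      refine (h3 k hk ω hω).2.2.trans ?_
      refine div_le_div_of_nonneg_right ?_ (by have := (V.ρ0 k hk).1; positivity)
      have e0 : C₁ * 2 ^ h * (2 ^ sm * (2 ^ μ * R k)) / η = C₁ * q * R k := by
        rw [← hMq, hM]
      have e1 : C₁ * (2 ^ sm) ^ 2 * (2 ^ ν / 2 ^ g k 3 +
          C₁ * 2 ^ h * (2 ^ sm * (2 ^ μ * R k)) / η * (2 ^ ν / 2 ^ g k 2)) =
          C₁ * 2 ^ (sm * 2 + ν) * (1 + C₁ * q) * (1 / 2 ^ g k 3) := by
        rw [e0, ← hRU k, ← pow_mul, pow_add]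
        have e2 : (2 : ℝ) ^ ν / 2 ^ g k 3 = 2 ^ ν * (R k * (1 / 2 ^ g k 2)) := by
          rw [hRU]
          ring
        rw [e2]
        ring
      rw [e1]
      refine mul_le_mul_of_nonneg_right (le_trans ?_ hCs) (hP3 k).le
      calc C₁ * 2 ^ (sm * 2 + ν) * (1 + C₁ * q) ≤ C₁ * 2 ^ (sm * 2 + ν) * (2 * (C₁ * q)) :=
            mul_le_mul_of_nonneg_left (by linarith) (by positivity)
        _ = 2 * C₁ ^ 2 * (2 ^ (sm * 2 + ν) * q) := by ring
        _ ≤ C * E := mul_le_mul cb (hqE (by omega)) (by positivity) (by linarith)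
    · -- telU
      intro j hj k hk hjk ω hω b hb'
      have h4 := hgrow k hk ω (U k ω - U j ω) ((totalDegree_sub _ _).trans (by
        rw [hU]
        exact max_le ((deg_UU W hk ω).trans hDD) ((deg_UU W hj ω).trans hDD)))
        (2 ^ μ / 2 ^ g j 2) (fun b hb => by
          rw [map_sub]
          exact hdU j hj k hk hjk ω (h1 ω hω) b hb) b hb'
      rw [map_sub] at h4
      refine h4.trans ?_
      have e1 : C₂ * 2 ^ (sm * (D * D)) * (2 ^ μ / 2 ^ g j 2) =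
          C₂ * 2 ^ (sm * (D * D) + μ) * (1 / 2 ^ g j 2) := by
        rw [pow_add]
        ring
      rw [e1]
      refine mul_le_mul_of_nonneg_right (le_trans ?_ hCs) (hP2 j).le
      refine mul_le_mul cd (pw ?_) (by positivity) (by linarith)
      have e2 : sm * (D * D) = D * D * sm := by ring
      omega
    · -- telP
      intro j hj k hk hjk ω hω b hb'
      have hdeg : (phc (Fn k ω) (U k ω) (cs k ω) + MvPolynomial.C (cs k ω - cs j ω) * U k ω -
          phc (Fn j ω) (U j ω) (cs j ω)).totalDegree ≤ D * D := by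
        rw [← hPH, ← hPH]
        refine (totalDegree_sub _ _).trans (max_le ((totalDegree_add _ _).trans (max_le
          (deg_PH W hk hD ω) ?_)) (deg_PH W hj hD ω))
        refine (totalDegree_mul _ _).trans ?_
        rw [totalDegree_C, zero_add, hU]
        exact (deg_UU W hk ω).trans hDD
      have hev : ∀ b, eval b (phc (Fn k ω) (U k ω) (cs k ω) + MvPolynomial.C (cs k ω - cs j ω) *
          U k ω - phc (Fn j ω) (U j ω) (cs j ω)) = eval b (phc (Fn k ω) (U k ω) (cs k ω)) +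
          (cs k ω - cs j ω) * eval b (U k ω) - eval b (phc (Fn j ω) (U j ω) (cs j ω)) :=
        fun b => by
          rw [map_sub, map_add, map_mul, MvPolynomial.eval_C]
      have h4 := hgrow k hk ω _ hdeg
        (2 ^ μ / 2 ^ g j 3 + 2 ^ (μ * D) * M j * (2 ^ μ / 2 ^ g j 2)) (fun b hb => by
          rw [hev]
          refine phn_dif (hdU j hj k hk hjk ω (h1 ω hω) b hb) ?_ ?_
          · rw [hFn, hU]
            refine dif_N hc W V hj hk hjk (h1 ω hω) hb ?_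
            rw [sub_self, abs_zero]
            positivity
          · intro v hv
            refine hslp j hj ω hω b (hcub j hj k hk hjk ω (h1 ω hω) b hb) v (hv.trans ?_)
            exact hdU j hj k hk hjk ω (h1 ω hω) b hb) b hb'
      rw [hev] at h4
      rw [hPH, hPH]
      refine h4.trans ?_
      have e1 : C₂ * 2 ^ (sm * (D * D)) * (2 ^ μ / 2 ^ g j 3 +
          2 ^ (μ * D) * M j * (2 ^ μ / 2 ^ g j 2)) =
          C₂ * 2 ^ (sm * (D * D) + μ) * (1 + 2 ^ (μ * D) * (C₁ * q)) *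
            (1 / 2 ^ g j 3) := by
        rw [hMq, ← hRU j, pow_add _ _ μ]
        have e2 : (2 : ℝ) ^ μ / 2 ^ g j 3 = 2 ^ μ * (R j * (1 / 2 ^ g j 2)) := by
          rw [hRU]
          ring
        rw [e2]
        ring
      rw [e1]
      refine mul_le_mul_of_nonneg_right (le_trans ?_ hCs) (hP3 j).le
      have h5 : (1 : ℝ) ≤ 2 ^ (μ * D) * (C₁ * q) :=
        one_le_mul_of_one_le_of_one_le (one_le_pow₀ (by norm_num)) hCq
      calc C₂ * 2 ^ (sm * (D * D) + μ) * (1 + 2 ^ (μ * D) * (C₁ * q)) ≤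
            C₂ * 2 ^ (sm * (D * D) + μ) * (2 * (2 ^ (μ * D) * (C₁ * q))) :=
            mul_le_mul_of_nonneg_left (by linarith) (by positivity)
        _ = 2 * C₁ * C₂ * (2 ^ (sm * (D * D) + μ + μ * D) * q) := by
            rw [pow_add _ _ (μ * D)]
            ring
        _ ≤ C * E := by
            refine mul_le_mul cc2 (hqE ?_) (by positivity) (by linarith)
            have e2 : sm * (D * D) = D * D * sm := by ring
            have e3 : μ * D = D * μ := Nat.mul_comm _ _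
            omega
    · -- telc
      intro j hj k hk hjk ω hω
      obtain ⟨d, rfl⟩ : ∃ d, k = j + d := ⟨k - j, by omega⟩
      have hRm : ∀ i, j ≤ i → i ≤ n → R i ≤ 2 ^ μ * R j := by
        intro i hi hin
        have h5 := W.exc j hj i hin hi
        rw [hR]
        show (2 : ℝ) ^ g i 2 / 2 ^ g i 3 ≤ 2 ^ μ * (2 ^ g j 2 / 2 ^ g j 3)
        rw [← mul_div_assoc, div_le_div_iff₀ (by positivity) (by positivity), ← pow_add, ← pow_add,
          ← pow_add]
        exact pow_le_pow_right₀ (by norm_num) (by omega)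
      have hst : ∀ i, j ≤ i → i < n → |cs (i + 1) ω - cs i ω| ≤
          (2 * C₁ + C₃) * (2 ^ (D * μ + μ) * q) * (2 ^ μ * R j) := by
        intro i hi hin
        obtain ⟨p₀, hp₀⟩ : ∃ p₀, p₀ = ctr (i + 1) ω := ⟨_, rfl⟩
        have hp0 : ∀ i', |p₀ i' - ctr (i + 1) ω i'| ≤ ρ (i + 1) / 2 ^ sm := fun i' => by
          rw [hp₀]
          exact hctr0 (i + 1) hin ω i'
        obtain ⟨v, hv⟩ : ∃ v, v = eval p₀ (U (i + 1) ω) := ⟨_, rfl⟩
        have q1 := hslp (i + 1) hin ω hω p₀ (hcub (i + 1) hin (i + 1) hin le_rfl ω (h1 ω hω)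
          p₀ hp0) v (by
            rw [hv, sub_self, abs_zero]
            positivity)
        have q2 := hslp i hin.le ω hω p₀ (hcub i hin.le (i + 1) hin (Nat.le_succ i) ω (h1 ω hω)
          p₀ hp0) v (by
            rw [hv]
            exact hdU i hin.le (i + 1) hin (Nat.le_succ i) ω (h1 ω hω) p₀ hp0)
        have q3 := hdn (F := Fn (i + 1) ω - Fn i ω) (p := p₀) (u₀ := v)
          (ε := 1 / 2 ^ g (i + 1) 2) (S := 2 ^ μ / 2 ^ g i 3) (a := 0)
          ((totalDegree_sub _ _).trans (by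
            rw [hFn]
            exact max_le (deg_NN W hin ω) (deg_NN W hin.le ω))) (hP2 _) (fun v' hv' => by
            rw [sub_zero, map_sub, hFn]
            refine dif_N hc W V hin.le hin (Nat.le_succ i) (h1 ω hω) hp0 ?_
            rw [hv, hU] at hv'
            exact hv') 1 le_rfl hD
        rw [dn_succ, dn_zero, pow_one, map_sub, map_sub] at q3
        have q4 : |eval (pn p₀ v) (pderiv none (Fn (i + 1) ω)) -
            eval (pn p₀ v) (pderiv none (Fn i ω))| ≤ C₃ * 2 ^ (2 * μ) * R i := by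
          have h5 : (0 : ℝ) < 2 ^ g (i + 1) 2 := by positivity
          have h6 : |eval (pn p₀ v) (pderiv none (Fn (i + 1) ω)) -
            eval (pn p₀ v) (pderiv none (Fn i ω))| ≤ C₃ * (2 ^ μ / 2 ^ g i 3) *
              2 ^ g (i + 1) 2 := by
            rw [mul_one_div, div_le_iff₀ h5] at q3
            exact q3
          refine h6.trans ?_
          have h7 : (2 : ℝ) ^ g (i + 1) 2 ≤ 2 ^ (g i 2 + μ) :=
            pow_le_pow_right₀ (by norm_num) (W.stp i hin)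
          calc C₃ * (2 ^ μ / 2 ^ g i 3) * 2 ^ g (i + 1) 2 ≤
                C₃ * (2 ^ μ / 2 ^ g i 3) * 2 ^ (g i 2 + μ) :=
                mul_le_mul_of_nonneg_left h7 (by positivity)
            _ = C₃ * 2 ^ (2 * μ) * R i := by
                rw [hR, pow_add, two_mul, pow_add]
                ring
        have q5 : |cs (i + 1) ω - cs i ω| ≤ 2 ^ (μ * D) * M (i + 1) + C₃ * 2 ^ (2 * μ) * R i +
            2 ^ (μ * D) * M i := by
          rw [abs_le] at q1 q2 q4 ⊢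
          constructor <;> linarith [q1.1, q1.2, q2.1, q2.2, q4.1, q4.2]
        refine q5.trans ?_
        have h5 := hRm i hi hin.le
        have h6 := hRm (i + 1) (by omega) hin
        obtain ⟨Z, hZ⟩ : ∃ Z : ℝ, Z = 2 ^ (D * μ + μ) * q := ⟨_, rfl⟩
        obtain ⟨Rj, hRj⟩ : ∃ Rj : ℝ, Rj = 2 ^ μ * R j := ⟨_, rfl⟩
        rw [← hZ]
        rw [← hRj] at h5 h6 ⊢
        have hRj0 : 0 < Rj := by
          rw [hRj]
          have := hR0 j
          positivity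
        have h7 : (2 : ℝ) ^ (μ * D) * q ≤ Z := by
          rw [hZ]
          refine mul_le_mul_of_nonneg_right (pow_le_pow_right₀ (by norm_num) ?_) (by linarith)
          rw [Nat.mul_comm]
          omega
        have h8 : (2 : ℝ) ^ (2 * μ) ≤ Z := by
          rw [hZ]
          have h9 : (2 : ℝ) ^ (2 * μ) ≤ 2 ^ (D * μ + μ) := by
            refine pow_le_pow_right₀ (by norm_num) ?_
            have := Nat.mul_le_mul_right μ hD
            omega
          exact h9.trans (le_mul_of_one_le_right (by positivity) hq1)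
        have hZ0 : 0 < Z := lt_of_lt_of_le (by positivity) h8
        have k1 : 2 ^ (μ * D) * M (i + 1) ≤ C₁ * Z * Rj := by
          rw [hMq]
          calc 2 ^ (μ * D) * (C₁ * q * R (i + 1)) = C₁ * (2 ^ (μ * D) * q) * R (i + 1) := by ring
            _ ≤ C₁ * Z * Rj := by
              refine mul_le_mul (mul_le_mul_of_nonneg_left h7 (by linarith)) h6
                (hR0 _).le (by positivity)
        have k2 : 2 ^ (μ * D) * M i ≤ C₁ * Z * Rj := by
          rw [hMq]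
          calc 2 ^ (μ * D) * (C₁ * q * R i) = C₁ * (2 ^ (μ * D) * q) * R i := by ring
            _ ≤ C₁ * Z * Rj := by
              refine mul_le_mul (mul_le_mul_of_nonneg_left h7 (by linarith)) h5
                (hR0 _).le (by positivity)
        have k3 : C₃ * 2 ^ (2 * μ) * R i ≤ C₃ * Z * Rj :=
          mul_le_mul (mul_le_mul_of_nonneg_left h8 (by linarith)) h5 (hR0 _).le (by positivity)
        nlinarith
      have h4 := tel_sum (f := fun i => cs i ω) (j := j) (n := n) hst d hk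
      refine h4.trans ?_
      rw [← hRd]
      have hdn : (d : ℝ) ≤ n + 1 := by
        have : (d : ℝ) ≤ n := by exact_mod_cast (by omega : d ≤ n)
        linarith
      have h5 : 2 ^ (D * μ + μ + μ) * q ≤ E := hqE (by omega)
      calc (d : ℝ) * ((2 * C₁ + C₃) * (2 ^ (D * μ + μ) * q) * (2 ^ μ * R j)) =
            d * ((2 * C₁ + C₃) * (2 ^ (D * μ + μ + μ) * q)) * R j := by
            rw [pow_add _ _ μ]
            ring
        _ ≤ (n + 1) * (C * E) * R j := by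
            refine mul_le_mul_of_nonneg_right ?_ (hR0 j).le
            refine mul_le_mul hdn ?_ (by positivity) (by positivity)
            exact mul_le_mul ce h5 (by positivity) (by linarith)
        _ = _ := by rw [← hsE]
  · -- the own value
    intro k hk ω hω
    have h4 := hslp k hk ω hω (Y ω) (hcY k hk ω (h1 ω hω)) (bt F ω (some (c 2))) (by
        have h5 := W.own k hk ω (h1 ω hω) 2 le_rfl (by norm_num) (rt F (w k) ω) (rt_mem F (w k) ω)
        rw [ptw_rt F (W.wJ k hk)] at h5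
        rw [hU, hY]
        unfold UU
        rw [pul_afc (hc.mono fun i hi => by
          have : i < 2 := hi
          show i < 3
          omega) (W.dep k hk _ 2)]
        refine h5.trans ?_
        exact div_le_div_of_nonneg_right (pow_le_pow_right₀ (by norm_num) hνμ) (by positivity))
    have e1 : eval (pn (Y ω) (bt F ω (some (c 2)))) (pderiv none (Fn k ω)) =
        eval (bt F ω) (pderiv (some (c 2)) (G k (ptr F J ω) 3)) := by
      rw [hFn, hY]
      unfold NN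
      rw [pd_puo hc, afp_dep3 hc ((W.dep k hk _ 3).pderiv 2), Function.update_eq_self]
    rw [e1] at h4
    refine h4.trans ?_
    rw [hMq, ← hRd]
    calc 2 ^ (μ * D) * (C₁ * q * R k) = C₁ * (2 ^ (μ * D) * q) * R k := by ring
      _ ≤ s * R k := by
        refine mul_le_mul_of_nonneg_right (le_trans ?_ hCs) (hR0 k).le
        refine mul_le_mul ca (hqE ?_) (by positivity) (by linarith)
        have e3 : μ * D = D * μ := Nat.mul_comm _ _
        omega

end Pool.CNC28
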