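import Pool.Agent.H28.CNC.Nvo

/-!
# The slopes of all windows on their balls

`nv_all`: `nv_one` for all windows `k ≤ n` on one event. `gro_own`: the growth of a polynomial from a
cube to a larger cube.
-/

set_option autoImplicit false

namespace Pool.CNC28

open Finset MvPolynomial
open Pool.Agent.H49.Ent
open Pool.STK (IsLaw)
open Pool.K2S (Pe Pe_eq Pe_nonneg Pe_mono isLaw_cond)
open Pool.CUB46 (phi q2 l1 h3 eval_phi)
open Pool.D2Con (NoHyp)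
open Pool.CNC76

/-- **All windows.** -/
theorem nv_all (D K : ℕ) (hK : 1 ≤ K) (hD : 1 ≤ D) : ∃ C : ℝ, 1 ≤ C ∧
    ∀ {Ω P S S' : Type} [Fintype Ω] {p : Ω → ℝ} {B : Ω → Prop} {pt : Ω → P} {sl : ℕ → Ω → S}
    {sd : Ω → S'} {Y Yc X : Ω → Fin 3 → ℝ} {ctr : ℕ → Ω → Fin 3 → ℝ} {DB h Q n : ℕ}
    {κ η c T A : ℝ} {ρ lam ε₀ εN S₀ : ℕ → ℝ} {Fn : ℕ → Ω → MvPolynomial (Option (Fin 3)) ℝ}
    {U : ℕ → Ω → MvPolynomial (Fin 3) ℝ},
    0 < Pe p B → (∀ k ≤ n, Bll p B pt (sl k) sd (unt Y (ctr k) (ρ k)) (unt Yc (ctr k) (ρ k)) X DB h Q κ η c T) →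
    K * D ≤ DB → κ * 2 ^ ((D + 1) * (n + 1) + 4) ≤ 1 → c < 1 → 0 < η → η ≤ 1 → 1 ≤ T →
    C * T * 2 ^ h ≤ η * 2 ^ Q →
    (∀ k ≤ n, Clo B pt (sl k) (Fn k)) → (∀ k ≤ n, Clo B pt (sl k) (U k)) →
    (∀ k ≤ n, Clo B pt (sl k) (ctr k)) →
    (∀ k ≤ n, ∀ ω, B ω → (Fn k ω).totalDegree ≤ D) →
    (∀ k ≤ n, ∀ ω, B ω → (U k ω).totalDegree ≤ K) →
    (∀ k ≤ n, 0 < ρ k ∧ 0 < lam k ∧ ρ k ≤ A * lam k ∧ 0 < S₀ k) → 1 ≤ A →
    (∀ k ≤ n, ∀ ω, B ω → ∃ r₀ α β α' β' a,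
      Sgm (Fn k ω) (U k ω) (Y ω) (X ω) (lam k) r₀ α β α' β' (ε₀ k) (εN k) (S₀ k) a) →
    ∃ B' : Ω → Prop, (∀ ω, B' ω → B ω) ∧ Pe p B ≤ 2 ^ ((D + 1) * (n + 1)) * Pe p B' ∧
      ∀ k ≤ n, ∀ ω, B' ω →
      (∀ b : Fin 3 → ℝ, (∀ i, |b i - ctr k ω i| ≤ ρ k) → ∀ N : ℝ, 1 ≤ N → ∀ w,
        |w - eval b (U k ω)| ≤ N * (2 * ε₀ k) →
        |eval (pn b w) (pderiv none (Fn k ω)) - csl (Fn k ω) (U k ω) (ctr k ω)| ≤
          N ^ D * (C * 2 ^ h * (A * S₀ k) / η)) ∧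
      |q2 (h3 (U k ω) (Y ω)) (X ω) (X ω)| ≤ C * A ^ 2 * ε₀ k / ρ k ^ 2 ∧
      |q2 (h3 (phc (Fn k ω) (U k ω) (csl (Fn k ω) (U k ω) (ctr k ω))) (Y ω)) (X ω) (X ω)| ≤
        C * A ^ 2 * (εN k + C * 2 ^ h * (A * S₀ k) / η * ε₀ k) / ρ k ^ 2 := by
  classical
  obtain ⟨C, hC, hone⟩ := nv_one D K hK hD
  refine ⟨C, hC, ?_⟩
  intro Ω P S S' _ p B pt sl sd Y Yc X ctr DB h Q n κ η c T A ρ lam ε₀ εN S₀ Fn U hB hb hDB hκ hc
    hη hη1 hT hQ hFc hUc hcc hFd hUd hnum hA hseg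
  have key : ∀ n' ≤ n + 1, ∃ B' : Ω → Prop, (∀ ω, B' ω → B ω) ∧
      Pe p B ≤ 2 ^ ((D + 1) * n') * Pe p B' ∧ ∀ k < n', ∀ ω, B' ω →
      (∀ b : Fin 3 → ℝ, (∀ i, |b i - ctr k ω i| ≤ ρ k) → ∀ N : ℝ, 1 ≤ N → ∀ w,
        |w - eval b (U k ω)| ≤ N * (2 * ε₀ k) →
        |eval (pn b w) (pderiv none (Fn k ω)) - csl (Fn k ω) (U k ω) (ctr k ω)| ≤
          N ^ D * (C * 2 ^ h * (A * S₀ k) / η)) ∧
      |q2 (h3 (U k ω) (Y ω)) (X ω) (X ω)| ≤ C * A ^ 2 * ε₀ k / ρ k ^ 2 ∧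
      |q2 (h3 (phc (Fn k ω) (U k ω) (csl (Fn k ω) (U k ω) (ctr k ω))) (Y ω)) (X ω) (X ω)| ≤
        C * A ^ 2 * (εN k + C * 2 ^ h * (A * S₀ k) / η * ε₀ k) / ρ k ^ 2 := by
    intro n'
    induction n' with
    | zero =>
      intro _
      exact ⟨B, fun _ h => h, by rw [mul_zero, pow_zero, one_mul],
        fun k hk => absurd hk (Nat.not_lt_zero k)⟩
    | succ n' ih =>
      intro hn'
      obtain ⟨B₁, a1, a2, a3⟩ := ih (by omega)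
      have hk : n' ≤ n := by omega
      have W := hb n' hk
      have W₁ := Bll.subk W a1 (by positivity) a2
      obtain ⟨q1, q2, q3, q4⟩ := hnum n' hk
      obtain ⟨B₂, b1, b2, b3⟩ := hone W₁ hDB (by
          have e1 : κ * 2 ^ ((D + 1) * n') * 2 ^ (D + 5) =
              κ * 2 ^ ((D + 1) * (n' + 1) + 4) := by
            rw [mul_assoc, ← pow_add]
            congr 2
          rw [e1]
          refine le_trans ?_ hκ
          refine mul_le_mul_of_nonneg_left (pow_le_pow_right₀ (by norm_num) ?_) W.κ0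
          have := Nat.mul_le_mul_left (D + 1) (show n' + 1 ≤ n + 1 by omega)
          omega) hc hη hη1 hT hQ ((hFc n' hk).sub a1) ((hUc n' hk).sub a1) ((hcc n' hk).sub a1)
        (fun ω hω => hFd n' hk ω (a1 ω hω)) (fun ω hω => hUd n' hk ω (a1 ω hω)) q1 q2 hA q3 q4
        fun ω hω => hseg n' hk ω (a1 ω hω)
      refine ⟨B₂, fun ω hω => a1 ω (b1 ω hω), ?_, fun k hk' ω hω => ?_⟩
      · calc Pe p B ≤ 2 ^ ((D + 1) * n') * Pe p B₁ := a2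
          _ ≤ 2 ^ ((D + 1) * n') * (2 ^ (D + 1) * Pe p B₂) :=
              mul_le_mul_of_nonneg_left b2 (by positivity)
          _ = _ := by rw [← mul_assoc, ← pow_add]; congr 2
      · rcases Nat.lt_succ_iff_lt_or_eq.1 hk' with h5 | h5
        · exact a3 k h5 ω (b1 ω hω)
        · rw [h5]
          exact b3 ω hω
  obtain ⟨B', h1, h2, h3⟩ := key (n + 1) le_rfl
  exact ⟨B', h1, h2, fun k hk => h3 k (by omega)⟩

/-- **Growth** from a cube to a larger cube. -/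
theorem gro_own (K : ℕ) : ∃ C : ℝ, 1 ≤ C ∧ ∀ {P : MvPolynomial (Fin 3) ℝ} {M r N : ℝ}
    {y : Fin 3 → ℝ}, P.totalDegree ≤ K → 0 < r → 1 ≤ N →
    (∀ b : Fin 3 → ℝ, (∀ i, |b i - y i| ≤ r) → |eval b P| ≤ M) →
    ∀ b : Fin 3 → ℝ, (∀ i, |b i - y i| ≤ N * r) → |eval b P| ≤ C * N ^ K * M := by
  classical
  obtain ⟨C, hC, h⟩ := Pool.Agent.H40.FR.unit_coef K
  refine ⟨C * (K + 1), by
    have : (0 : ℝ) ≤ K := Nat.cast_nonneg K
    nlinarith, ?_⟩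
  intro P M r N y hP hr hN hM b hb
  have hN0 : 0 < N := by linarith
  obtain ⟨q, hq⟩ : ∃ q : Polynomial ℝ, q = aeval (fun i => Polynomial.C (y i) +
    Polynomial.C ((b i - y i) / N) * Polynomial.X) P := ⟨_, rfl⟩
  have hqe : ∀ t : ℝ, q.eval t = eval (fun i => y i + (b i - y i) / N * t) P := fun t => by
    rw [hq, eval_seg]
  have hqd : q.natDegree ≤ K := by
    rw [hq]
    exact deg_seg hP _ _
  have hqM : ∀ t ∈ Set.Icc (0 : ℝ) 1, |q.eval t| ≤ M := by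
    intro t ht
    rw [hqe]
    refine hM _ fun i => ?_
    have e1 : y i + (b i - y i) / N * t - y i = (b i - y i) / N * t := by ring
    rw [e1, abs_mul, abs_div, abs_of_pos hN0, abs_of_nonneg ht.1]
    have h1 : |b i - y i| / N ≤ r := by
      rw [div_le_iff₀ hN0, mul_comm]
      exact hb i
    calc _ ≤ r * 1 := mul_le_mul h1 ht.2 ht.1 hr.le
      _ = r := mul_one r
  have hM0 : 0 ≤ M := (abs_nonneg _).trans (hqM 0 ⟨le_rfl, zero_le_one⟩)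
  have h1 := h q M hqd hqM
  have h2 : eval b P = q.eval N := by
    rw [hqe]
    congr 2
    funext i
    field_simp
    ring
  rw [h2, Polynomial.eval_eq_sum_range' (n := K + 1) (Nat.lt_succ_of_le hqd)]
  refine (Finset.abs_sum_le_sum_abs _ _).trans ?_
  have h3 : ∀ j ∈ range (K + 1), |q.coeff j * N ^ j| ≤ C * M * N ^ K := by
    intro j hj
    rw [abs_mul, abs_of_nonneg (by positivity : (0 : ℝ) ≤ N ^ j)]
    have h4 : N ^ j ≤ N ^ K := pow_le_pow_right₀ hN (Nat.lt_succ_iff.1 (Finset.mem_range.1 hj))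
    exact mul_le_mul (h1 j) h4 (by positivity) (by positivity)
  refine (Finset.sum_le_sum h3).trans (le_of_eq ?_)
  rw [Finset.sum_const, Finset.card_range, nsmul_eq_mul]
  push_cast
  ring

end Pool.CNC28
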