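import Pool.Agent.H28.CNC.Nvp
import Pool.Agent.H46.D2.T2l

/-!
# One line and the charts of `u` and `N` of one window

`Sgm`: the own line of a window in the coordinates of a frame, the chart `U` of `u` and the chart `Fn`
of `N` as a polynomial of the frame and of `u`. `sgm_out`: the consequences at the own point.
-/

set_option autoImplicit false

namespace Pool.CNC28

open Finset MvPolynomial
open Pool.CUB46 (phi q2 hh h3 gpt eval_phi)

/-- **The own line of a window**, in the coordinates of a frame. `Y`: own point, `X`: direction;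
`lam`: the length of the window; `r₀`: own time; `u`, `x`: the paths of `u` and `N`. -/
structure Sgm (Fn : MvPolynomial (Option (Fin 3)) ℝ) (U : MvPolynomial (Fin 3) ℝ)
    (Y X : Fin 3 → ℝ) (lam r₀ α β α' β' ε₀ εN S a : ℝ) : Prop where
  r0 : r₀ ∈ Set.Icc (0 : ℝ) 1
  lam0 : 0 < lam
  ε0 : 0 < ε₀
  nu : ∀ τ ∈ Set.Icc (0 : ℝ) 1,
    |α + β * τ - eval (fun i => Y i + lam * (τ - r₀) * X i) U| ≤ ε₀
  nx : ∀ τ ∈ Set.Icc (0 : ℝ) 1,
    |α' + β' * τ - eval (pn (fun i => Y i + lam * (τ - r₀) * X i) (α + β * τ)) Fn| ≤ εN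
  slp : ∀ τ ∈ Set.Icc (0 : ℝ) 1, ∀ y : ℝ, |y| ≤ 4 * ε₀ →
    |eval (pn (fun i => Y i + lam * (τ - r₀) * X i) (α + β * τ + y)) (pderiv none Fn) - a| ≤ S

theorem q2_sc (Q : Fin 3 → Fin 3 → ℝ) (X : Fin 3 → ℝ) (lam : ℝ) :
    q2 Q (fun i => lam * X i) (fun i => lam * X i) = lam ^ 2 * q2 Q X X := by
  unfold q2
  rw [Finset.mul_sum]
  refine Finset.sum_congr rfl fun i _ => ?_
  rw [Finset.mul_sum]
  refine Finset.sum_congr rfl fun j _ => ?_
  ring

/-- **The consequences.** -/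
theorem sgm_out (D K : ℕ) (hK : 1 ≤ K) (hD : 1 ≤ D) : ∃ C : ℝ, 1 ≤ C ∧
    ∀ {Fn : MvPolynomial (Option (Fin 3)) ℝ} {U : MvPolynomial (Fin 3) ℝ} {Y X : Fin 3 → ℝ}
    {lam r₀ α β α' β' ε₀ εN S a : ℝ}, Sgm Fn U Y X lam r₀ α β α' β' ε₀ εN S a →
    Fn.totalDegree ≤ D → U.totalDegree ≤ K →
    |q2 (h3 U Y) X X| ≤ C * ε₀ / lam ^ 2 ∧
    |eval Y (phi (pderiv none Fn) U) - a| ≤ S ∧
    |∑ i, eval Y (pderiv i (phi (pderiv none Fn) U)) * X i| ≤ C * S / lam ∧
    (∀ j, 1 ≤ j → j ≤ D →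
      |eval Y (phi (dn j (pderiv none Fn)) U)| * (2 * ε₀) ^ j ≤ C * S) ∧
    (∀ w, |w - eval Y U| ≤ 2 * ε₀ → |eval (pn Y w) (pderiv none Fn) - a| ≤ S) ∧
    ∀ cs : ℝ, |q2 (h3 (phc Fn U cs) Y) X X| ≤ C * (εN + (S + |a - cs|) * ε₀) / lam ^ 2 := by
  obtain ⟨C₁, hC₁, h1⟩ := snd_aff (K * D)
  obtain ⟨C₂, hC₂, h2⟩ := nv_seg D K hK
  refine ⟨C₁ + C₂, by linarith, ?_⟩
  intro Fn U Y X lam r₀ α β α' β' ε₀ εN S a W hFn hU
  have hlam := W.lam0
  have hε := W.ε0
  have hS0 : 0 ≤ S := (abs_nonneg _).trans (W.slp r₀ W.r0 0 (by rw [abs_zero]; linarith))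
  have hεN : 0 ≤ εN := (abs_nonneg _).trans (W.nx r₀ W.r0)
  obtain ⟨p, hp⟩ : ∃ p : Fin 3 → ℝ, p = fun i => Y i - lam * r₀ * X i := ⟨_, rfl⟩
  obtain ⟨V, hV⟩ : ∃ V : Fin 3 → ℝ, V = fun i => lam * X i := ⟨_, rfl⟩
  have hpath : ∀ τ : ℝ, (fun i => Y i + lam * (τ - r₀) * X i) =
      fun i => p i + V ((Equiv.refl (Fin 3)).symm i) * τ := by
    intro τ
    funext i
    rw [hp, hV]
    show _ = Y i - lam * r₀ * X i + lam * X i * τ
    ring
  have hown : (fun i => p i + V ((Equiv.refl (Fin 3)).symm i) * r₀) = Y := by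
    rw [← hpath]
    funext i
    ring
  have hdF : (pderiv none Fn).totalDegree ≤ D := Pool.GEN.totalDegree_pdσ hFn _
  have hdU : U.totalDegree ≤ K * D := hU.trans (Nat.le_mul_of_pos_right _ hD)
  have hsc : ∀ P : MvPolynomial (Fin 3) ℝ, |q2 (hh (Equiv.refl (Fin 3)) P Y) V V| =
      lam ^ 2 * |q2 (h3 P Y) X X| := by
    intro P
    rw [Pool.CUB46.h3_eq, hV, q2_sc, abs_mul, abs_of_nonneg (sq_nonneg lam)]
  -- the form of `u`
  have k1 := (h1 (Equiv.refl (Fin 3)) (Q := U) (p := p) (V := V) (a := α) (b := β) (ε := ε₀) hdU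
    (fun τ hτ => by
      rw [← hpath, abs_sub_comm]
      exact W.nu τ hτ) r₀ W.r0).2
  rw [hown, hsc] at k1
  -- the slope
  have k2 := h2 (Equiv.refl (Fin 3)) (F := pderiv none Fn) (g := U) (p := p) (V := V)
    (u := fun τ => α + β * τ) (ε := 2 * ε₀) (S := S) (a := a) hdF hU (by linarith)
    (fun τ hτ => by
      rw [← hpath]
      exact (W.nu τ hτ).trans (by linarith))
    (fun τ hτ y hy => by
      rw [← hpath]
      exact W.slp τ hτ y (hy.trans (by linarith))) r₀ W.r0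
  rw [hown] at k2
  obtain ⟨k2, k3, k4⟩ := k2
  have k5 : ∑ i, eval Y (pderiv ((Equiv.refl (Fin 3)) i) (phi (pderiv none Fn) U)) * V i =
      lam * ∑ i, eval Y (pderiv i (phi (pderiv none Fn) U)) * X i := by
    rw [Finset.mul_sum, hV]
    refine Finset.sum_congr rfl fun i _ => ?_
    show eval Y (pderiv i (phi (pderiv none Fn) U)) * (lam * X i) = _
    ring
  rw [k5, abs_mul, abs_of_pos hlam] at k3
  have hnear : ∀ τ ∈ Set.Icc (0 : ℝ) 1, ∀ w,
      |w - eval (fun i => Y i + lam * (τ - r₀) * X i) U| ≤ 2 * ε₀ →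
      |eval (pn (fun i => Y i + lam * (τ - r₀) * X i) w) (pderiv none Fn) - a| ≤ S := by
    intro τ hτ w hw
    have h3 := W.slp τ hτ (w - (α + β * τ)) (by
      have h4 := W.nu τ hτ
      rw [abs_le] at hw h4 ⊢
      constructor <;> linarith [hw.1, hw.2, h4.1, h4.2])
    rwa [add_sub_cancel] at h3
  refine ⟨?_, k2, ?_, fun j hj hjD => ?_, fun w hw => ?_, fun cs => ?_⟩
  · rw [le_div_iff₀ (by positivity), mul_comm]
    refine k1.trans (mul_le_mul_of_nonneg_right (by linarith) hε.le)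
  · rw [le_div_iff₀ hlam, mul_comm]
    exact k3.trans (mul_le_mul_of_nonneg_right (by linarith) hS0)
  · exact (k4 j hj hjD).trans (mul_le_mul_of_nonneg_right (by linarith) hS0)
  · have h3 := hnear r₀ W.r0 w (by
      have e1 : (fun i => Y i + lam * (r₀ - r₀) * X i) = Y := by
        funext i
        ring
      rw [e1]
      exact hw)
    have e1 : (fun i => Y i + lam * (r₀ - r₀) * X i) = Y := by
      funext i
      ring
    rwa [e1] at h3
  · have hS1 : 0 ≤ S + |a - cs| := by positivity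
    have k6 := (h1 (Equiv.refl (Fin 3)) (Q := phc Fn U cs) (p := p) (V := V)
      (a := α' - cs * α) (b := β' - cs * β) (ε := εN + (S + |a - cs|) * ε₀)
      (deg_phc cs hFn hU hK hD) (fun τ hτ => by
        rw [← hpath]
        have h3 := phn_seg (F := Fn) (g := U) (p := fun i => Y i + lam * (τ - r₀) * X i)
          (u := α + β * τ) (x := α' + β' * τ) (c := cs) (S := S + |a - cs|) (εu := ε₀)
          (εN := εN) (W.nu τ hτ) (W.nx τ hτ) (fun w hw => by
            have h4 := hnear τ hτ w (hw.trans ((W.nu τ hτ).trans (by linarith)))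
            have h5 : eval (pn (fun i => Y i + lam * (τ - r₀) * X i) w) (pderiv none Fn) - cs =
              (eval (pn (fun i => Y i + lam * (τ - r₀) * X i) w) (pderiv none Fn) - a) +
                (a - cs) := by ring
            rw [h5]
            exact (abs_add_le _ _).trans (add_le_add h4 le_rfl))
        have e2 : α' - cs * α + (β' - cs * β) * τ = α' + β' * τ - cs * (α + β * τ) := by ring
        rw [e2]
        exact h3) r₀ W.r0).2
    rw [hown, hsc] at k6
    rw [le_div_iff₀ (by positivity), mul_comm]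
    exact k6.trans (mul_le_mul_of_nonneg_right (by linarith) (by positivity))

end Pool.CNC28
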