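import Pool.Agent.H28.CNC.Lnb
import Pool.Agent.H28.CNC.Sgm
import Pool.Agent.H82.CNC.Afc

/-!
# The slope of one window on its ball

`Bll.subk`: a part of the event. `nv_one`: if the slope of `N` is constant along the own lines and in
the direction of `u`, then it is constant on the ball, up to the natural error.
-/

set_option autoImplicit false

namespace Pool.CNC28

open Finset MvPolynomial
open Pool.Agent.H49.Ent
open Pool.STK (IsLaw)
open Pool.K2S (Pe Pe_eq Pe_nonneg Pe_mono isLaw_cond)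
open Pool.CUB46 (phi q2 l1 h3 eval_phi)
open Pool.D2G30 (nd)
open Pool.D2Con (NoHyp)
open Pool.CNC76

/-- A part of the event. -/
theorem Bll.subk {Ω P S S' : Type} [Fintype Ω] {p : Ω → ℝ} {B B₁ : Ω → Prop} {pt : Ω → P}
    {sl : Ω → S} {sd : Ω → S'} {y yc X : Ω → Fin 3 → ℝ} {D h Q : ℕ} {κ η c T : ℝ}
    (W : Bll p B pt sl sd y yc X D h Q κ η c T) (hB : ∀ ω, B₁ ω → B ω) {K₀ : ℝ} (hK : 0 < K₀)
    (hP : Pe p B ≤ K₀ * Pe p B₁) : Bll p B₁ pt sl sd y yc X D h Q (κ * K₀) η c T where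
  law := W.law
  κ0 := mul_nonneg W.κ0 hK.le
  pos := by
    have := W.pos
    exact pos_of_mul_pos_right (lt_of_lt_of_le this hP) hK.le
  sls ω ω' h1 h2 := W.sls ω ω' (hB ω h1) (hB ω' h2)
  y1 ω h := W.y1 ω (hB ω h)
  yc1 ω h := W.yc1 ω (hB ω h)
  ycc := W.ycc.sub hB
  ycn ω h := W.ycn ω (hB ω h)
  XT ω h := W.XT ω (hB ω h)
  rel B' h1 h2 := W.rel B' (fun ω hω => hB ω (h1 ω hω)) (le_trans (by
    rw [mul_assoc]
    exact mul_le_mul_of_nonneg_left hP W.κ0) h2)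
  nhy B' h1 h2 := W.nhy B' (fun ω hω => hB ω (h1 ω hω)) (le_trans (by
    rw [mul_assoc]
    exact mul_le_mul_of_nonneg_left hP W.κ0) h2)

/-! ### The cube -/

theorem eval_dil (a : Fin 3 → ℝ) (ρ : ℝ) (P : MvPolynomial (Fin 3) ℝ) (z : Fin 3 → ℝ) :
    eval z (dil a ρ P) = eval (fun i => a i + ρ * z i) P := by
  unfold dil
  rw [aeval_eq_bind₁, Pool.AFF82.eval_bd]
  congr 1
  congr 1
  funext i
  simp

theorem pd_dil (a : Fin 3 → ℝ) (ρ : ℝ) (P : MvPolynomial (Fin 3) ℝ) (z : Fin 3 → ℝ) (l : Fin 3) :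
    eval z (pderiv l (dil a ρ P)) = ρ * eval (fun i => a i + ρ * z i) (pderiv l P) := by
  classical
  unfold dil
  rw [aeval_eq_bind₁, Pool.AFF82.pd_bd]
  have e1 : (fun k => eval z (C (a k) + C ρ * X k : MvPolynomial (Fin 3) ℝ)) =
      fun i => a i + ρ * z i := by
    funext i
    simp
  rw [e1, Finset.sum_eq_single l]
  · rw [map_add, pderiv_C, zero_add, pderiv_mul, pderiv_C, pderiv_X_self, zero_mul, zero_add,
      mul_one, eval_C]
    ring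
  · intro k _ hk
    rw [map_add, pderiv_C, zero_add, pderiv_mul, pderiv_C, pderiv_X_of_ne hk, zero_mul, zero_add,
      mul_zero, map_zero, mul_zero]
  · intro h
    exact absurd (Finset.mem_univ l) h

theorem deg_dil {a : Fin 3 → ℝ} {ρ : ℝ} {P : MvPolynomial (Fin 3) ℝ} {D : ℕ}
    (h : P.totalDegree ≤ D) : (dil a ρ P).totalDegree ≤ D := by
  unfold dil
  rw [aeval_eq_bind₁]
  refine (Pool.AFF82.deg_bd _ (K := 1) (fun i => ?_) P).trans (by rw [mul_one]; exact h)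
  refine (totalDegree_add _ _).trans (max_le ?_ ?_)
  · rw [totalDegree_C]
    exact Nat.zero_le _
  · refine (totalDegree_mul _ _).trans ?_
    rw [totalDegree_C, totalDegree_X]

/-- The variation of a polynomial on the cube. -/
theorem var_bx {P : MvPolynomial (Fin 3) ℝ} {M : ℝ}
    (h : ∀ b, Bx b → ∀ i, |eval b (pderiv i P)| ≤ M) {z : Fin 3 → ℝ} (hz : Bx z) :
    |eval z P - eval (fun _ => 0) P| ≤ 3 * M := by
  have h1 := pol_mv (aeval (fun i => Polynomial.C ((fun _ => (0 : ℝ)) i) + Polynomial.C (z i) *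
    Polynomial.X) P) (x := 0) (y := 1) (M := 3 * M) fun u hu => by
    rw [der_seg]
    refine (Finset.abs_sum_le_sum_abs _ _).trans ?_
    have h2 : ∀ i, |eval (fun i => (0 : ℝ) + z i * u) (pderiv i P) * z i| ≤ M := by
      intro i
      rw [abs_mul]
      have h3 := h (fun i => (0 : ℝ) + z i * u) (fun i => by
        show |(0 : ℝ) + z i * u| ≤ 1
        rw [zero_add, abs_mul]
        rw [sub_zero, sub_zero, abs_one] at hu
        exact mul_le_one₀ (hz i) (abs_nonneg _) hu) i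
      calc _ ≤ M * 1 := mul_le_mul h3 (hz i) (abs_nonneg _) ((abs_nonneg _).trans h3)
        _ = M := mul_one M
    refine (Finset.sum_le_sum fun i _ => h2 i).trans (le_of_eq ?_)
    rw [Finset.sum_const, Finset.card_univ, Fintype.card_fin, nsmul_eq_mul]
    norm_num
  rw [eval_seg, eval_seg] at h1
  have e1 : (fun i => (0 : ℝ) + z i * 1) = z := by funext i; ring
  have e2 : (fun i => (0 : ℝ) + z i * 0) = fun _ => 0 := by funext i; ring
  rw [e1, e2, sub_zero, abs_one, mul_one] at h1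
  exact h1

/-- The slope at the centre. -/
noncomputable def csl (Fn : MvPolynomial (Option (Fin 3)) ℝ) (U : MvPolynomial (Fin 3) ℝ)
    (a : Fin 3 → ℝ) : ℝ := eval a (phi (pderiv none Fn) U)

/-- **The slope on the ball of one window.** -/
theorem nv_one (D K : ℕ) (hK : 1 ≤ K) (hD : 1 ≤ D) : ∃ C : ℝ, 1 ≤ C ∧
    ∀ {Ω P S S' : Type} [Fintype Ω] {p : Ω → ℝ} {B : Ω → Prop} {pt : Ω → P} {sl : Ω → S}
    {sd : Ω → S'} {Y Yc X ctr : Ω → Fin 3 → ℝ} {DB h Q : ℕ} {κ η c T ρ lam A ε₀ εN S₀ : ℝ}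
    {Fn : Ω → MvPolynomial (Option (Fin 3)) ℝ} {U : Ω → MvPolynomial (Fin 3) ℝ},
    Bll p B pt sl sd (unt Y ctr ρ) (unt Yc ctr ρ) X DB h Q κ η c T → K * D ≤ DB →
    κ * 2 ^ (D + 5) ≤ 1 → c < 1 → 0 < η → η ≤ 1 → 1 ≤ T → C * T * 2 ^ h ≤ η * 2 ^ Q →
    Clo B pt sl Fn → Clo B pt sl U → Clo B pt sl ctr →
    (∀ ω, B ω → (Fn ω).totalDegree ≤ D) → (∀ ω, B ω → (U ω).totalDegree ≤ K) →
    0 < ρ → 0 < lam → 1 ≤ A → ρ ≤ A * lam → 0 < S₀ →
    (∀ ω, B ω → ∃ r₀ α β α' β' a, Sgm (Fn ω) (U ω) (Y ω) (X ω) lam r₀ α β α' β' ε₀ εN S₀ a) →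
    ∃ B' : Ω → Prop, (∀ ω, B' ω → B ω) ∧ Pe p B ≤ 2 ^ (D + 1) * Pe p B' ∧ ∀ ω, B' ω →
      (∀ b : Fin 3 → ℝ, (∀ i, |b i - ctr ω i| ≤ ρ) → ∀ N : ℝ, 1 ≤ N → ∀ w,
        |w - eval b (U ω)| ≤ N * (2 * ε₀) →
        |eval (pn b w) (pderiv none (Fn ω)) - csl (Fn ω) (U ω) (ctr ω)| ≤
          N ^ D * (C * 2 ^ h * (A * S₀) / η)) ∧
      |q2 (h3 (U ω) (Y ω)) (X ω) (X ω)| ≤ C * A ^ 2 * ε₀ / ρ ^ 2 ∧
      |q2 (h3 (phc (Fn ω) (U ω) (csl (Fn ω) (U ω) (ctr ω))) (Y ω)) (X ω) (X ω)| ≤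
        C * A ^ 2 * (εN + C * 2 ^ h * (A * S₀) / η * ε₀) / ρ ^ 2 := by
  classical
  obtain ⟨C₁, hC₁, hsg⟩ := sgm_out D K hK hD
  obtain ⟨C₂, hC₂, hlin⟩ := lin_bll (K * D) (Nat.mul_pos hK hD)
  obtain ⟨C, hC⟩ : ∃ C : ℝ, C = 8 * (D + 1) * C₁ * C₂ := ⟨_, rfl⟩
  have hD1 : (1 : ℝ) ≤ D := by exact_mod_cast hD
  have hC12 : 1 ≤ C₁ * C₂ := one_le_mul_of_one_le_of_one_le hC₁ hC₂
  have hCa : C₁ ≤ C := by
    rw [hC]
    nlinarith
  have hCb : C₂ ≤ C := by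
    rw [hC]
    nlinarith
  have hC1 : 1 ≤ C := hC₁.trans hCa
  have hC0 : 0 < C := by linarith
  refine ⟨C, hC1, ?_⟩
  intro Ω P S S' _ p B pt sl sd Y Yc X ctr DB h Q κ η c T ρ lam A ε₀ εN S₀ Fn U W hDB hκ hc hη
    hη1 hT hQ hFc hUc hcc hFd hUd hρ hlam hA hρl hS₀ hseg
  have h2h : (1 : ℝ) ≤ 2 ^ h := one_le_pow₀ (by norm_num)
  have hA0 : 0 < A := by linarith
  obtain ⟨S₁, hS₁⟩ : ∃ S₁ : ℝ, S₁ = A * S₀ := ⟨_, rfl⟩
  have hS₁0 : 0 < S₁ := by rw [hS₁]; positivity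
  have hS01 : S₀ ≤ S₁ := by rw [hS₁]; exact le_mul_of_one_le_left hS₀.le hA
  rw [← hS₁]
  have hε : 0 < ε₀ := by
    obtain ⟨ω, hω⟩ := ne_of_Pe W.pos
    obtain ⟨r₀, α, β, α', β', a, Wg⟩ := hseg ω hω
    exact Wg.ε0
  -- the polynomials on the cube
  obtain ⟨Ps, hPs⟩ : ∃ Ps : ℕ → Ω → MvPolynomial (Fin 3) ℝ, Ps = fun j ω =>
    dil (ctr ω) ρ (phi (dn j (pderiv none (Fn ω))) (U ω)) := ⟨_, rfl⟩
  have hPc : ∀ j, Clo B pt sl (Ps j) := fun j => by
    rw [hPs]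
    exact (hFc.map2 (hUc.map2 hcc fun a b => (a, b)) fun F x =>
      dil x.2 ρ (phi (dn j (pderiv none F)) x.1))
  have hPd : ∀ j, ∀ ω, B ω → (Ps j ω).totalDegree ≤ K * D := fun j ω hω => by
    rw [hPs]
    exact deg_dil (Pool.CUB46.deg_phi (deg_dn (Pool.GEN.totalDegree_pdσ (hFd ω hω) _) j)
      (hUd ω hω) hK)
  have hun : ∀ ω, (fun i => ctr ω i + ρ * unt Y ctr ρ ω i) = Y ω := fun ω => by
    funext i
    unfold unt
    field_simp
    ring
  have hPy : ∀ j ω, eval (unt Y ctr ρ ω) (Ps j ω) =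
      eval (Y ω) (phi (dn j (pderiv none (Fn ω))) (U ω)) := fun j ω => by
    rw [hPs]
    show eval (unt Y ctr ρ ω) (dil _ _ _) = _
    rw [eval_dil, hun]
  -- the derivatives in the direction of `u`
  obtain ⟨B₁, b1, b2, b3⟩ := rel_fin W (B₁ := B) (fun _ h => h) D (by
      have h1 : κ * Pe p B * 2 ^ D ≤ (κ * 2 ^ (D + 5)) * Pe p B := by
        have h2 : κ * Pe p B * 2 ^ D = (κ * 2 ^ D) * Pe p B := by ring
        rw [h2]
        refine mul_le_mul_of_nonneg_right ?_ W.pos.le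
        exact mul_le_mul_of_nonneg_left (pow_le_pow_right₀ (by norm_num) (by omega)) W.κ0
      refine h1.trans ?_
      calc (κ * 2 ^ (D + 5)) * Pe p B ≤ 1 * Pe p B := mul_le_mul_of_nonneg_right hκ W.pos.le
        _ = _ := one_mul _) (fun j => Ps (j + 1)) (fun j => C₁ * S₀ / (2 * ε₀) ^ (j + 1))
    (fun j _ => hPc _) (fun j _ ω hω => (hPd _ ω hω).trans hDB) (fun j _ => by positivity)
    (fun j hj ω hω => by
      obtain ⟨r₀, α, β, α', β', a, Wg⟩ := hseg ω hω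
      have h1 := (hsg Wg (hFd ω hω) (hUd ω hω)).2.2.2.1 (j + 1) (by omega) (by omega)
      rw [hPy, le_div_iff₀ (by positivity)]
      exact h1)
  have W₁ := Bll.subk W b1 (by positivity) b2
  -- the derivative in the direction of the line
  obtain ⟨B₂, d1, d2, d3⟩ := hlin W₁ hDB (by
      have h1 : 32 * (κ * 2 ^ D) = κ * 2 ^ (D + 5) := by rw [pow_add]; norm_num; ring
      rw [h1]
      exact hκ) hc hη hη1 hT (g := Ps 0) ((hPc 0).sub b1) (fun ω hω => hPd 0 ω (b1 ω hω))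
    (S₀ := C₁ * S₁) (by positivity) (fun ω hω => by
      obtain ⟨r₀, α, β, α', β', a, Wg⟩ := hseg ω (b1 ω hω)
      have h1 := (hsg Wg (hFd ω (b1 ω hω)) (hUd ω (b1 ω hω))).2.2.1
      have h2 : ∑ i, eval (unt Y ctr ρ ω) (pderiv i (Ps 0 ω)) * X ω i =
          ρ * ∑ i, eval (Y ω) (pderiv i (phi (pderiv none (Fn ω)) (U ω))) * X ω i := by
        rw [Finset.mul_sum]
        refine Finset.sum_congr rfl fun i _ => ?_
        rw [hPs]
        show eval _ (pderiv i (dil _ _ _)) * _ = _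
        rw [pd_dil, hun, dn_zero]
        ring
      rw [h2, abs_mul, abs_of_pos hρ]
      refine (mul_le_mul_of_nonneg_left h1 hρ.le).trans ?_
      rw [← mul_div_assoc, div_le_iff₀ hlam, hS₁]
      calc ρ * (C₁ * S₀) ≤ (A * lam) * (C₁ * S₀) := mul_le_mul_of_nonneg_right hρl (by positivity)
        _ = _ := by ring) (by
      refine le_trans ?_ hQ
      gcongr)
  refine ⟨B₂, fun ω hω => b1 ω (d1 ω hω), ?_, fun ω hω => ?_⟩
  · calc Pe p B ≤ 2 ^ D * Pe p B₁ := b2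
      _ ≤ 2 ^ D * (2 * Pe p B₂) := mul_le_mul_of_nonneg_left d2 (by positivity)
      _ = _ := by ring
  have hωB : B ω := b1 ω (d1 ω hω)
  obtain ⟨M, hM⟩ : ∃ M : ℝ, M = 3 * (C₂ * 2 ^ h * (C₁ * S₁) / η) := ⟨_, rfl⟩
  have hM0 : 0 ≤ M := by rw [hM]; positivity
  have hcs : csl (Fn ω) (U ω) (ctr ω) = eval (fun _ => 0) (Ps 0 ω) := by
    rw [hPs]
    show _ = eval _ (dil _ _ _)
    rw [eval_dil, dn_zero]
    unfold csl
    congr 1
    congr 1
    funext i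
    ring
  have hcube : ∀ b : Fin 3 → ℝ, (∀ i, |b i - ctr ω i| ≤ ρ) → Bx (fun i => (b i - ctr ω i) / ρ) ∧
      (fun i => ctr ω i + ρ * ((b i - ctr ω i) / ρ)) = b := fun b hb => by
    refine ⟨fun i => ?_, ?_⟩
    · rw [abs_div, abs_of_pos hρ, div_le_one hρ]
      exact hb i
    · funext i
      field_simp
      ring
  have hv0 : ∀ b : Fin 3 → ℝ, (∀ i, |b i - ctr ω i| ≤ ρ) →
      |eval b (phi (pderiv none (Fn ω)) (U ω)) - csl (Fn ω) (U ω) (ctr ω)| ≤ M := by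
    intro b hb
    obtain ⟨q1, q2⟩ := hcube b hb
    have h1 := var_bx (P := Ps 0 ω) (M := C₂ * 2 ^ h * (C₁ * S₁) / η) (fun b hb i =>
      d3 ω hω b hb i) q1
    rw [← hcs, hPs] at h1
    have h2 : eval (fun i => (b i - ctr ω i) / ρ) (dil (ctr ω) ρ
        (phi (dn 0 (pderiv none (Fn ω))) (U ω))) =
        eval b (phi (pderiv none (Fn ω)) (U ω)) := by
      rw [eval_dil, q2, dn_zero]
    rw [h2] at h1
    rw [hM]
    exact h1
  have hM2 : 2 ^ h * (C₁ * S₀) ≤ M := by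
    have h0 : 2 ^ h * (C₁ * S₀) ≤ 2 ^ h * (C₁ * S₁) := by gcongr
    have h1 : 2 ^ h * (C₁ * S₁) ≤ 2 ^ h * (C₁ * S₁) / η := by
      rw [le_div_iff₀ hη]
      exact mul_le_of_le_one_right (by positivity) hη1
    have h2 : 2 ^ h * (C₁ * S₁) / η ≤ M := by
      have e1 : M = 3 * C₂ * (2 ^ h * (C₁ * S₁) / η) := by rw [hM]; ring
      rw [e1]
      exact le_mul_of_one_le_left (by positivity) (by linarith)
    exact h0.trans (h1.trans h2)
  have hvj : ∀ b : Fin 3 → ℝ, (∀ i, |b i - ctr ω i| ≤ ρ) → ∀ j, 1 ≤ j → j ≤ D →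
      |eval b (phi (dn j (pderiv none (Fn ω))) (U ω))| * (2 * ε₀) ^ j ≤ M := by
    intro b hb j hj hjD
    obtain ⟨q1, q2⟩ := hcube b hb
    obtain ⟨i, rfl⟩ : ∃ i, j = i + 1 := ⟨j - 1, by omega⟩
    have h1 := b3 i (by omega) ω (d1 ω hω) _ q1
    have h2 : eval (fun i => (b i - ctr ω i) / ρ) (Ps (i + 1) ω) =
        eval b (phi (dn (i + 1) (pderiv none (Fn ω))) (U ω)) := by
      rw [hPs]
      show eval _ (dil _ _ _) = _
      rw [eval_dil, q2]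
    rw [h2, ← mul_div_assoc, le_div_iff₀ (by positivity)] at h1
    exact h1.trans hM2
  have hbig : (D + 1) * M ≤ C * 2 ^ h * S₁ / η / 2 := by
    have e1 : (D + 1) * M = (3 * (D + 1) * C₁ * C₂) * 2 ^ h * S₁ / η := by rw [hM]; ring
    have e2 : C * 2 ^ h * S₁ / η / 2 = (4 * (D + 1) * C₁ * C₂) * 2 ^ h * S₁ / η := by
      rw [hC]; ring
    rw [e1, e2]
    refine div_le_div_of_nonneg_right ?_ hη.le
    refine mul_le_mul_of_nonneg_right ?_ hS₁0.le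
    refine mul_le_mul_of_nonneg_right ?_ (by positivity)
    nlinarith
  have hMb : M ≤ C * 2 ^ h * S₁ / η / 2 := by
    refine le_trans ?_ hbig
    nlinarith
  have hSb : S₀ ≤ C * 2 ^ h * S₁ / η / 2 := by
    refine le_trans ?_ hMb
    refine le_trans ?_ hM2
    have : 1 * S₀ ≤ 2 ^ h * C₁ * S₀ := by
      refine mul_le_mul_of_nonneg_right ?_ hS₀.le
      exact one_le_mul_of_one_le_of_one_le h2h hC₁
    linarith
  have hM'0 : 0 ≤ C * 2 ^ h * S₁ / η := by positivity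
  obtain ⟨r₀, α, β, α', β', a, Wg⟩ := hseg ω hωB
  obtain ⟨s1, s2, -, -, -, s6⟩ := hsg Wg (hFd ω hωB) (hUd ω hωB)
  have hYc : ∀ i, |Y ω i - ctr ω i| ≤ ρ := fun i => by
    have h1 := W.y1 ω hωB i
    unfold unt at h1
    rw [abs_div, abs_of_pos hρ, div_le_iff₀ hρ] at h1
    linarith
  have hrl : ρ ^ 2 ≤ A ^ 2 * lam ^ 2 := by
    rw [← mul_pow]
    exact pow_le_pow_left₀ hρ.le hρl 2
  have hdiv : ∀ {x : ℝ}, 0 ≤ x → x / lam ^ 2 ≤ A ^ 2 * x / ρ ^ 2 := by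
    intro x hx
    rw [div_le_div_iff₀ (by positivity) (by positivity)]
    calc x * ρ ^ 2 ≤ x * (A ^ 2 * lam ^ 2) := mul_le_mul_of_nonneg_left hrl hx
      _ = _ := by ring
  have hρ2 : 0 < ρ ^ 2 := by positivity
  have hεN : 0 ≤ εN := (abs_nonneg _).trans (Wg.nx r₀ Wg.r0)
  refine ⟨fun b hb N hN w hw => ?_, ?_, ?_⟩
  · have hN0 : 0 < N := by linarith
    have hND : 1 ≤ N ^ D := one_le_pow₀ hN
    refine (nv_ball (D := D) (F := pderiv none (Fn ω)) (M := N ^ D * M)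
      (hF := Pool.GEN.totalDegree_pdσ (hFd ω hωB) _) (hε := by positivity) (hM := by positivity)
      (h0 := (hv0 b hb).trans (le_mul_of_one_le_left hM0 hND))
      (h1 := fun j hj hjD => by
        have h1 := hvj b hb j hj hjD
        have h2 : N ^ j ≤ N ^ D := pow_le_pow_right₀ hN hjD
        calc |eval b (phi (dn j (pderiv none (Fn ω))) (U ω))| * (N * (2 * ε₀)) ^ j =
              N ^ j * (|eval b (phi (dn j (pderiv none (Fn ω))) (U ω))| * (2 * ε₀) ^ j) := by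
              rw [mul_pow]; ring
          _ ≤ N ^ D * M := mul_le_mul h2 h1 (by positivity) (by positivity)) (hw := hw)).trans ?_
    have h3 : (D + 1) * M ≤ C * 2 ^ h * S₁ / η := by linarith
    calc (D + 1) * (N ^ D * M) = N ^ D * ((D + 1) * M) := by ring
      _ ≤ _ := mul_le_mul_of_nonneg_left h3 (by positivity)
  · refine (s1.trans (hdiv (by positivity))).trans ?_
    refine div_le_div_of_nonneg_right ?_ hρ2.le
    calc A ^ 2 * (C₁ * ε₀) ≤ A ^ 2 * (C * ε₀) := by gcongr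
      _ = _ := by ring
  · refine (s6 _).trans ?_
    have h1 : |a - csl (Fn ω) (U ω) (ctr ω)| ≤ S₀ + M := by
      have h2 := hv0 (Y ω) hYc
      rw [abs_le] at s2 h2 ⊢
      constructor <;> linarith [s2.1, s2.2, h2.1, h2.2]
    have h3 : C₁ * (εN + (S₀ + |a - csl (Fn ω) (U ω) (ctr ω)|) * ε₀) ≤
        C * (εN + C * 2 ^ h * S₁ / η * ε₀) := by
      have h4 : (S₀ + |a - csl (Fn ω) (U ω) (ctr ω)|) * ε₀ ≤
          2 * (C * 2 ^ h * S₁ / η * ε₀) := by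
        have h5 : S₀ + |a - csl (Fn ω) (U ω) (ctr ω)| ≤ 2 * (C * 2 ^ h * S₁ / η) := by linarith
        calc _ ≤ 2 * (C * 2 ^ h * S₁ / η) * ε₀ := mul_le_mul_of_nonneg_right h5 hε.le
          _ = _ := by ring
      have h6 : C₁ * (εN + (S₀ + |a - csl (Fn ω) (U ω) (ctr ω)|) * ε₀) ≤
          2 * C₁ * (εN + C * 2 ^ h * S₁ / η * ε₀) := by nlinarith
      refine h6.trans (mul_le_mul_of_nonneg_right ?_ (by positivity))
      rw [hC]
      nlinarith
    refine (hdiv (by positivity)).trans ?_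
    refine div_le_div_of_nonneg_right ?_ hρ2.le
    rw [mul_comm C, mul_assoc]
    exact mul_le_mul_of_nonneg_left h3 (by positivity)

end Pool.CNC28
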