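import Pool.Agent.H28.CNC.Phn

/-!
# The slope near a graph: pure part

`up_last`: a polynomial whose derivatives in the direction of the last coordinate are small at a
point is nearly constant in this direction. `nv_seg`: if the slope is constant along a straight path
near a graph and in the direction of the last coordinate, then its derivatives on the graph are small
in the direction of the path and in the direction of the last coordinate. `nv_ball`: conversely.
-/

set_option autoImplicit false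

namespace Pool.CNC28

open Finset MvPolynomial
open Pool.CUB46 (phi q2 hh gpt eval_phi)

variable {σ : Type}

/-- The iterated derivative in the direction of the last coordinate. -/
noncomputable def dn (j : ℕ) (F : MvPolynomial (Option σ) ℝ) : MvPolynomial (Option σ) ℝ :=
  (fun Q => pderiv none Q)^[j] F

theorem dn_zero (F : MvPolynomial (Option σ) ℝ) : dn 0 F = F := rfl

theorem dn_succ (j : ℕ) (F : MvPolynomial (Option σ) ℝ) : dn (j + 1) F = dn j (pderiv none F) := rfl

theorem dn_succ' (j : ℕ) (F : MvPolynomial (Option σ) ℝ) : dn (j + 1) F = pderiv none (dn j F) :=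
  Function.iterate_succ_apply' _ _ _

theorem deg_dn {F : MvPolynomial (Option σ) ℝ} {D : ℕ} (h : F.totalDegree ≤ D) (j : ℕ) :
    (dn j F).totalDegree ≤ D := by
  induction j generalizing F with
  | zero => exact h
  | succ j ih =>
    rw [dn_succ]
    exact ih (Pool.GEN.totalDegree_pdσ h _)

/-- The degree decreases. -/
theorem deg_pdn {F : MvPolynomial (Option σ) ℝ} {D : ℕ} (h : F.totalDegree ≤ D + 1) :
    (pderiv none F).totalDegree ≤ D := by
  classical
  rw [totalDegree]
  refine Finset.sup_le fun k hk => ?_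
  have h1 : coeff k (MvPolynomial.pderiv none F) ≠ 0 := mem_support_iff.1 hk
  rw [coeff_pderiv] at h1
  have h2 : (k + Finsupp.single none 1) ∈ F.support := mem_support_iff.2 (left_ne_zero_of_mul h1)
  have h3 : ((k + Finsupp.single none 1).sum fun _ x => x) ≤ F.totalDegree := le_totalDegree h2
  have h4 : ((k + Finsupp.single none 1).sum fun _ x => x) = (k.sum fun _ x => x) + 1 := by
    rw [Finsupp.sum_add_index' (fun _ => rfl) (fun _ _ _ => rfl), Finsupp.sum_single_index rfl]
  omega

/-- **Small derivatives at a point** in the direction of the last coordinate. -/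
theorem up_last [Fintype σ] (D : ℕ) : ∀ {F : MvPolynomial (Option σ) ℝ} {p : σ → ℝ} {u₀ ε M : ℝ},
    F.totalDegree ≤ D → 0 < ε → 0 ≤ M →
    (∀ j, 1 ≤ j → j ≤ D → |eval (pn p u₀) (dn j F)| * ε ^ j ≤ M) → ∀ w, |w - u₀| ≤ ε →
      |eval (pn p w) F - eval (pn p u₀) F| ≤ D * M := by
  induction D with
  | zero =>
    intro F p u₀ ε M hF hε hM h w hw
    have h1 : F = C (coeff 0 F) := totalDegree_eq_zero_iff_eq_C.1 (Nat.le_zero.1 hF)
    rw [h1, eval_C, eval_C, sub_self, abs_zero, Nat.cast_zero, zero_mul]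
  | succ D ih =>
    intro F p u₀ ε M hF hε hM h w hw
    have h0 := h 1 le_rfl (by omega)
    rw [pow_one] at h0
    have h1 : |eval (pn p u₀) (pderiv none F)| ≤ M / ε := by
      rw [le_div_iff₀ hε]
      exact h0
    have h2 : ∀ w, |w - u₀| ≤ ε → |eval (pn p w) (pderiv none F)| ≤ (D + 1) * (M / ε) := by
      intro w hw
      have h3 := ih (F := pderiv none F) (p := p) (u₀ := u₀) (ε := ε) (M := M / ε) (deg_pdn hF) hε
        (by positivity) (fun j hj hjD => by
          have h4 := h (j + 1) (by omega) (by omega)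
          rw [dn_succ, pow_succ, ← mul_assoc] at h4
          rw [le_div_iff₀ hε]
          exact h4) w hw
      rw [abs_le] at h1 h3 ⊢
      constructor <;> linarith [h1.1, h1.2, h3.1, h3.2]
    have h5 := mv_none (F := F) (p := p) (u := w) (v := u₀) (c := 0) (S := (D + 1) * (M / ε))
      fun x hx => by
        rw [sub_zero]
        exact h2 x (hx.trans hw)
    rw [zero_mul, sub_zero] at h5
    refine h5.trans ?_
    have h6 : 0 ≤ (D + 1) * (M / ε) := by positivity
    refine (mul_le_mul_of_nonneg_left hw h6).trans (le_of_eq ?_)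
    push_cast
    field_simp

/-- The derivatives in the direction of the last coordinate, from an interval. -/
theorem dn_int (D : ℕ) : ∃ C : ℝ, 1 ≤ C ∧ ∀ {σ : Type} [Fintype σ]
    {F : MvPolynomial (Option σ) ℝ} {p : σ → ℝ} {u₀ ε S a : ℝ}, F.totalDegree ≤ D → 0 < ε →
    (∀ w, |w - u₀| ≤ ε → |eval (pn p w) F - a| ≤ S) → ∀ j, 1 ≤ j → j ≤ D →
      |eval (pn p u₀) (dn j F)| * ε ^ j ≤ C * S := by
  classical
  obtain ⟨C, hC, hder⟩ := Pool.D2R.der_one D
  refine ⟨C ^ D, one_le_pow₀ hC, ?_⟩
  intro σ _ F p u₀ ε S a hF hε h j hj hjD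
  obtain ⟨V, hV⟩ : ∃ V : Option σ → ℝ, V = fun o => Option.elim o ε fun _ => 0 := ⟨_, rfl⟩
  have e1 : ∀ s : ℝ, (fun o => pn p u₀ o + V o * s) = pn p (u₀ + ε * s) := by
    intro s
    funext o
    rw [hV]
    cases o with
    | none => rfl
    | some i => show p i + 0 * s = p i; ring
  obtain ⟨q, hq⟩ : ∃ q : ℕ → Polynomial ℝ, q = fun i => aeval (fun o => Polynomial.C (pn p u₀ o) +
    Polynomial.C (V o) * Polynomial.X) (dn i F) := ⟨_, rfl⟩
  have hqe : ∀ i s, (q i).eval s = eval (pn p (u₀ + ε * s)) (dn i F) := by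
    intro i s
    rw [hq]
    show Polynomial.eval s _ = _
    rw [eval_seg, e1]
  have hqd : ∀ i s, (Polynomial.derivative (q i)).eval s = ε * (q (i + 1)).eval s := by
    intro i s
    rw [hqe, hq]
    show Polynomial.eval s (Polynomial.derivative _) = _
    rw [der_seg, Fintype.sum_option, e1, hV, dn_succ']
    simp
    ring
  have hqn : ∀ i, (q i).natDegree ≤ D := by
    intro i
    rw [hq]
    exact deg_seg (deg_dn hF i) _ _
  have key : ∀ i, ∀ t ∈ Set.Icc (0 : ℝ) 1, |(q (i + 1)).eval t| * ε ^ (i + 1) ≤ C ^ (i + 1) * S := by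
    intro i
    induction i with
    | zero =>
      intro t ht
      have h1 := hder (q 0 - Polynomial.C a) S ((Polynomial.natDegree_sub_le _ _).trans
        (max_le (hqn 0) (by rw [Polynomial.natDegree_C]; exact Nat.zero_le _))) (fun s hs => by
          rw [Polynomial.eval_sub, hqe, Polynomial.eval_C]
          refine h _ ?_
          rw [add_sub_cancel_left, abs_mul, abs_of_pos hε, abs_of_nonneg hs.1]
          exact mul_le_of_le_one_right hε.le hs.2) t (by
          rw [abs_of_nonneg ht.1]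
          exact ht.2)
      rw [Polynomial.derivative_sub, Polynomial.derivative_C, sub_zero, hqd, abs_mul,
        abs_of_pos hε] at h1
      rw [zero_add, pow_one, pow_one, mul_comm]
      exact h1
    | succ i ih =>
      intro t ht
      have hp : (0 : ℝ) < ε ^ (i + 1) := by positivity
      have h1 := hder (q (i + 1)) (C ^ (i + 1) * S / ε ^ (i + 1)) (hqn _) (fun s hs => by
          rw [le_div_iff₀ hp]
          exact ih s hs) t (by
          rw [abs_of_nonneg ht.1]
          exact ht.2)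
      rw [hqd, abs_mul, abs_of_pos hε, ← mul_div_assoc, le_div_iff₀ hp] at h1
      calc |(q (i + 1 + 1)).eval t| * ε ^ (i + 1 + 1) =
            ε * |(q (i + 1 + 1)).eval t| * ε ^ (i + 1) := by ring
        _ ≤ C * (C ^ (i + 1) * S) := h1
        _ = C ^ (i + 1 + 1) * S := by ring
  have hS : 0 ≤ S := (abs_nonneg _).trans (h u₀ (by rw [sub_self, abs_zero]; exact hε.le))
  obtain ⟨i, rfl⟩ : ∃ i, j = i + 1 := ⟨j - 1, by omega⟩
  have h1 := key i 0 ⟨le_rfl, zero_le_one⟩
  rw [hqe, mul_zero, add_zero] at h1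
  refine h1.trans (mul_le_mul_of_nonneg_right ?_ hS)
  exact pow_le_pow_right₀ hC hjD

/-- **The slope along a straight path near a graph.** Let `F` be constant up to `S` along the path
`(p + τ V, u)` and its translates in the direction of the last coordinate. Then the derivatives on the
graph of `g` are small: in the direction of the path, and in the direction of the last coordinate. -/
theorem nv_seg (D K : ℕ) (hK : 1 ≤ K) : ∃ C : ℝ, 1 ≤ C ∧ ∀ {σ : Type} [Fintype σ] (e : Fin 3 ≃ σ)
    {F : MvPolynomial (Option σ) ℝ} {g : MvPolynomial σ ℝ} {p : σ → ℝ} {V : Fin 3 → ℝ}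
    {u : ℝ → ℝ} {ε S a : ℝ}, F.totalDegree ≤ D → g.totalDegree ≤ K → 0 < ε →
    (∀ τ ∈ Set.Icc (0 : ℝ) 1, |u τ - eval (fun i => p i + V (e.symm i) * τ) g| ≤ ε) →
    (∀ τ ∈ Set.Icc (0 : ℝ) 1, ∀ y : ℝ, |y| ≤ 2 * ε →
      |eval (pn (fun i => p i + V (e.symm i) * τ) (u τ + y)) F - a| ≤ S) →
    ∀ τ ∈ Set.Icc (0 : ℝ) 1,
      |eval (fun i => p i + V (e.symm i) * τ) (phi F g) - a| ≤ S ∧
      |∑ i, eval (fun i => p i + V (e.symm i) * τ) (pderiv (e i) (phi F g)) * V i| ≤ C * S ∧
      ∀ j, 1 ≤ j → j ≤ D →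
        |eval (fun i => p i + V (e.symm i) * τ) (phi (dn j F) g)| * ε ^ j ≤ C * S := by
  obtain ⟨C₁, hC₁, h1⟩ := snd_aff (K * D)
  obtain ⟨C₂, hC₂, h2⟩ := dn_int D
  refine ⟨C₁ + C₂, by linarith, ?_⟩
  intro σ _ e F g p V u ε S a hF hg hε hu hS τ hτ
  have hSn : 0 ≤ S := (abs_nonneg _).trans (hS τ hτ 0 (by rw [abs_zero]; linarith))
  have hgr : ∀ τ ∈ Set.Icc (0 : ℝ) 1,
      |eval (fun i => p i + V (e.symm i) * τ) (phi F g) - (a + 0 * τ)| ≤ S := by
    intro s hs
    obtain ⟨y, hy⟩ : ∃ y, y = eval (fun i => p i + V (e.symm i) * s) g - u s := ⟨_, rfl⟩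
    have h2 := hS s hs y (by
      rw [hy, abs_sub_comm]
      linarith [hu s hs])
    rw [hy, add_sub_cancel] at h2
    rw [eval_phi, ← pn_gpt, zero_mul, add_zero]
    exact h2
  refine ⟨?_, ?_, ?_⟩
  · have := hgr τ hτ
    rwa [zero_mul, add_zero] at this
  · have h3 := (h1 e (Q := phi F g) (p := p) (V := V) (a := a) (b := 0) (ε := S)
      (Pool.CUB46.deg_phi hF hg hK) hgr τ hτ).1
    rw [sub_zero] at h3
    refine h3.trans ?_
    nlinarith
  · intro j hj hjD
    have h3 := h2 (F := F) (p := fun i => p i + V (e.symm i) * τ)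
      (u₀ := eval (fun i => p i + V (e.symm i) * τ) g) (ε := ε) (S := S) (a := a) hF hε
      (fun w hw => by
        have h4 := hS τ hτ (w - u τ) (by
          have h5 := hu τ hτ
          rw [abs_le] at hw h5 ⊢
          constructor <;> linarith [hw.1, hw.2, h5.1, h5.2])
        rwa [add_sub_cancel] at h4) j hj hjD
    rw [eval_phi, ← pn_gpt]
    refine h3.trans ?_
    nlinarith

/-- **The slope on a tube.** -/
theorem nv_ball [Fintype σ] {D : ℕ} {F : MvPolynomial (Option σ) ℝ} {g : MvPolynomial σ ℝ}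
    {b : σ → ℝ} {ε M a : ℝ} (hF : F.totalDegree ≤ D) (hε : 0 < ε) (hM : 0 ≤ M)
    (h0 : |eval b (phi F g) - a| ≤ M)
    (h1 : ∀ j, 1 ≤ j → j ≤ D → |eval b (phi (dn j F) g)| * ε ^ j ≤ M) {w : ℝ}
    (hw : |w - eval b g| ≤ ε) : |eval (pn b w) F - a| ≤ (D + 1) * M := by
  have h2 := up_last D (F := F) (p := b) (u₀ := eval b g) (ε := ε) (M := M) hF hε hM
    (fun j hj hjD => by
      have h3 := h1 j hj hjD
      rwa [eval_phi, ← pn_gpt] at h3) w hw
  rw [eval_phi, ← pn_gpt] at h0
  rw [abs_le] at h0 h2 ⊢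
  constructor <;> linarith [h0.1, h0.2, h2.1, h2.2]

end Pool.CNC28
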