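import Pool.Agent.H46.D2.T2c
import Pool.Agent.H23.D2.Nat

/-!
# The chart of `N` against the chart of `u`: pure part

`pn`: the point with the last coordinate. `mv_none`: the mean value in the direction of the last
coordinate. `snd_aff`: the second derivative of a polynomial which is nearly affine on a segment.
`phn_seg`: the polynomial `F (p, g p) - c * g p` on a straight path. `phn_dif`: two charts.
-/

set_option autoImplicit false

namespace Pool.CNC28

open Finset MvPolynomial
open Pool.CUB46 (phi q2 hh gpt eval_phi)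

variable {σ : Type}

/-- The point with the last coordinate. -/
def pn (p : σ → ℝ) (u : ℝ) : Option σ → ℝ := fun o => Option.elim o u p

theorem pn_gpt (g : MvPolynomial σ ℝ) (p : σ → ℝ) : pn p (eval p g) = gpt g p := rfl

/-- A polynomial between two points. -/
theorem pol_mv (p : Polynomial ℝ) {x y M : ℝ}
    (h : ∀ u, |u - x| ≤ |y - x| → |(Polynomial.derivative p).eval u| ≤ M) :
    |p.eval y - p.eval x| ≤ M * |y - x| := by
  have h1 := Convex.norm_image_sub_le_of_norm_deriv_le (f := fun t => p.eval t) (C := M)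
    (s := Set.uIcc x y) (x := x) (y := y) (fun u _ => p.differentiable u)
    (fun u hu => by
      rw [Polynomial.deriv, Real.norm_eq_abs]
      exact h u (by
        rw [Set.mem_uIcc] at hu
        rcases hu with ⟨h1, h2⟩ | ⟨h1, h2⟩
        · rw [abs_of_nonneg (by linarith), abs_of_nonneg (by linarith)]
          linarith
        · rw [abs_of_nonpos (by linarith), abs_of_nonpos (by linarith)]
          linarith)) (convex_uIcc x y) Set.left_mem_uIcc Set.right_mem_uIcc
  rw [Real.norm_eq_abs, Real.norm_eq_abs] at h1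
  exact h1

/-- The derivative on a straight path. -/
theorem der_seg [Fintype σ] (Q : MvPolynomial σ ℝ) (p V : σ → ℝ) (τ : ℝ) :
    (Polynomial.derivative (aeval (fun i => Polynomial.C (p i) + Polynomial.C (V i) *
      Polynomial.X) Q)).eval τ = ∑ i, eval (fun i => p i + V i * τ) (pderiv i Q) * V i := by
  classical
  rw [Pool.GEN.der_aevalσ, Polynomial.eval_finsetSum]
  refine Finset.sum_congr rfl fun i _ => ?_
  rw [Polynomial.eval_mul, Pool.KBX.eval_aeval_poly]
  have e1 : (fun j => (Polynomial.C (p j) + Polynomial.C (V j) * Polynomial.X).eval τ) =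
      fun j => p j + V j * τ := by
    funext j
    simp
  rw [e1]
  simp

theorem eval_seg (Q : MvPolynomial σ ℝ) (p V : σ → ℝ) (τ : ℝ) :
    (aeval (fun i => Polynomial.C (p i) + Polynomial.C (V i) * Polynomial.X) Q).eval τ =
      eval (fun i => p i + V i * τ) Q := by
  rw [Pool.KBX.eval_aeval_poly]
  congr 1
  congr 1
  funext j
  simp

theorem deg_seg {Q : MvPolynomial σ ℝ} {D : ℕ} (hQ : Q.totalDegree ≤ D) (p V : σ → ℝ) :
    (aeval (fun i => Polynomial.C (p i) + Polynomial.C (V i) * Polynomial.X) Q :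
      Polynomial ℝ).natDegree ≤ D := by
  have h := Pool.CHT.natDegree_aeval_mul Q
    (fun i => Polynomial.C (p i) + Polynomial.C (V i) * Polynomial.X) (E := 1)
    (fun i => by
      refine (Polynomial.natDegree_add_le _ _).trans (max_le ?_ ?_)
      · rw [Polynomial.natDegree_C]
        exact Nat.zero_le _
      · exact (Polynomial.natDegree_C_mul_le _ _).trans Polynomial.natDegree_X_le) (D := D) hQ
  rwa [mul_one] at h

/-- **The mean value** in the direction of the last coordinate. -/
theorem mv_none [Fintype σ] {F : MvPolynomial (Option σ) ℝ} {p : σ → ℝ} {u v c S : ℝ}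
    (h : ∀ w, |w - v| ≤ |u - v| → |eval (pn p w) (pderiv none F) - c| ≤ S) :
    |eval (pn p u) F - eval (pn p v) F - c * (u - v)| ≤ S * |u - v| := by
  classical
  obtain ⟨V, hV⟩ : ∃ V : Option σ → ℝ, V = fun o => Option.elim o 1 fun _ => 0 := ⟨_, rfl⟩
  obtain ⟨q, hq⟩ : ∃ q : Polynomial ℝ, q = aeval (fun o => Polynomial.C (pn p 0 o) +
    Polynomial.C (V o) * Polynomial.X) F - Polynomial.C c * Polynomial.X := ⟨_, rfl⟩
  have e1 : ∀ s : ℝ, (fun o => pn p 0 o + V o * s) = pn p s := by
    intro s
    funext o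
    rw [hV]
    cases o with
    | none => show (0 : ℝ) + 1 * s = s; ring
    | some i => show p i + 0 * s = p i; ring
  have e2 : ∀ s : ℝ, q.eval s = eval (pn p s) F - c * s := by
    intro s
    rw [hq, Polynomial.eval_sub, eval_seg, e1]
    simp
  have e3 : ∀ s : ℝ, (Polynomial.derivative q).eval s = eval (pn p s) (pderiv none F) - c := by
    intro s
    rw [hq, Polynomial.derivative_sub, Polynomial.eval_sub, der_seg, Fintype.sum_option, e1, hV]
    simp
  have h1 := pol_mv q (x := v) (y := u) (M := S) fun w hw => by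
    rw [e3]
    exact h w hw
  rw [e2, e2] at h1
  have e4 : eval (pn p u) F - eval (pn p v) F - c * (u - v) =
      eval (pn p u) F - c * u - (eval (pn p v) F - c * v) := by ring
  rw [e4]
  exact h1

/-- **The second derivative** of a polynomial which is nearly affine on a segment. -/
theorem snd_aff (D : ℕ) : ∃ C : ℝ, 1 ≤ C ∧ ∀ {σ : Type} [Fintype σ] (e : Fin 3 ≃ σ)
    {Q : MvPolynomial σ ℝ} {p : σ → ℝ} {V : Fin 3 → ℝ} {a b ε : ℝ}, Q.totalDegree ≤ D →
    (∀ τ ∈ Set.Icc (0 : ℝ) 1, |eval (fun i => p i + V (e.symm i) * τ) Q - (a + b * τ)| ≤ ε) →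
    ∀ τ ∈ Set.Icc (0 : ℝ) 1,
      |∑ i, eval (fun i => p i + V (e.symm i) * τ) (pderiv (e i) Q) * V i - b| ≤ C * ε ∧
      |q2 (hh e Q (fun i => p i + V (e.symm i) * τ)) V V| ≤ C * ε := by
  obtain ⟨C, hC, hder⟩ := Pool.D2R.der_one (D + 1)
  refine ⟨C * C, one_le_mul_of_one_le_of_one_le hC hC, ?_⟩
  intro σ _ e Q p V a b ε hQ h τ hτ
  classical
  have hε : 0 ≤ ε := (abs_nonneg _).trans (h 0 ⟨le_rfl, zero_le_one⟩)
  obtain ⟨W, hW⟩ : ∃ W : σ → ℝ, W = fun i => V (e.symm i) := ⟨_, rfl⟩
  have hWe : ∀ i, W (e i) = V i := fun i => by rw [hW]; simp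
  have e0 : ∀ s : ℝ, (fun i => p i + V (e.symm i) * s) = fun i => p i + W i * s := fun s => by
    rw [hW]
  rw [e0 τ]
  have hsum : ∀ f : σ → ℝ, ∑ i, f i = ∑ i, f (e i) := fun f => (Equiv.sum_comp e f).symm
  obtain ⟨q, hq⟩ : ∃ q : Polynomial ℝ, q = aeval (fun i => Polynomial.C (p i) +
    Polynomial.C (W i) * Polynomial.X) Q - (Polynomial.C a + Polynomial.C b * Polynomial.X) :=
    ⟨_, rfl⟩
  have hqe : ∀ s : ℝ, q.eval s = eval (fun i => p i + W i * s) Q - (a + b * s) := by
    intro s
    rw [hq, Polynomial.eval_sub, eval_seg]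
    simp
  have hqd : q.natDegree ≤ D + 1 := by
    rw [hq]
    refine (Polynomial.natDegree_sub_le _ _).trans (max_le ((deg_seg hQ p W).trans (by omega)) ?_)
    refine (Polynomial.natDegree_add_le _ _).trans (max_le ?_ ?_)
    · rw [Polynomial.natDegree_C]
      exact Nat.zero_le _
    · exact ((Polynomial.natDegree_C_mul_le _ _).trans Polynomial.natDegree_X_le).trans (by omega)
  have h1 : ∀ x : ℝ, |x| ≤ 1 → |q.derivative.eval x| ≤ C * ε :=
    hder q ε hqd fun t ht => by
      rw [hqe, ← e0]
      exact h t ht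
  have h2 := hder q.derivative (C * ε) ((Polynomial.natDegree_derivative_le _).trans (by omega))
    (fun t ht => h1 t (by rw [abs_of_nonneg ht.1]; exact ht.2)) τ (by
      rw [abs_of_nonneg hτ.1]
      exact hτ.2)
  have hd1 : ∀ s : ℝ, q.derivative.eval s =
      ∑ i, eval (fun i => p i + W i * s) (pderiv i Q) * W i - b := by
    intro s
    rw [hq, Polynomial.derivative_sub, Polynomial.eval_sub, der_seg]
    simp
  have hd2 : q.derivative.derivative.eval τ =
      ∑ i, (∑ j, eval (fun i => p i + W i * τ) (pderiv j (pderiv i Q)) * W j) * W i := by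
    have e1 : q.derivative = ∑ i, aeval (fun i => Polynomial.C (p i) +
        Polynomial.C (W i) * Polynomial.X) (pderiv i Q) * Polynomial.C (W i) -
        Polynomial.C b := by
      rw [hq, Polynomial.derivative_sub, Pool.GEN.der_aevalσ]
      simp
    rw [e1, Polynomial.derivative_sub, Polynomial.derivative_sum, Polynomial.eval_sub,
      Polynomial.eval_finsetSum, Polynomial.derivative_C, Polynomial.eval_zero, sub_zero]
    refine Finset.sum_congr rfl fun i _ => ?_
    rw [Polynomial.derivative_mul, Polynomial.derivative_C, mul_zero, add_zero,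
      Polynomial.eval_mul, der_seg, Polynomial.eval_C]
  constructor
  · have h3 := h1 τ (by rw [abs_of_nonneg hτ.1]; exact hτ.2)
    rw [hd1, hsum] at h3
    simp only [hWe] at h3
    refine h3.trans ?_
    nlinarith [mul_nonneg (by linarith : (0 : ℝ) ≤ C) hε]
  · rw [hd2, hsum] at h2
    rw [← mul_assoc] at h2
    refine le_trans (le_of_eq ?_) h2
    congr 1
    unfold q2 hh
    refine Finset.sum_congr rfl fun i _ => ?_
    rw [hsum, Finset.sum_mul]
    refine Finset.sum_congr rfl fun j _ => ?_
    rw [hWe, hWe, Pool.CUB46.pd_commσ (e i) (e j)]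
    ring

/-- **The polynomial** `F (p, g p) - c * g p`. -/
noncomputable def phc (F : MvPolynomial (Option σ) ℝ) (g : MvPolynomial σ ℝ) (c : ℝ) :
    MvPolynomial σ ℝ := phi F g - C c * g

theorem eval_phc (F : MvPolynomial (Option σ) ℝ) (g : MvPolynomial σ ℝ) (c : ℝ) (p : σ → ℝ) :
    eval p (phc F g c) = eval (pn p (eval p g)) F - c * eval p g := by
  unfold phc
  rw [map_sub, eval_phi, map_mul, eval_C, pn_gpt]

theorem deg_phc {F : MvPolynomial (Option σ) ℝ} {g : MvPolynomial σ ℝ} {D K : ℕ} (c : ℝ)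
    (hF : F.totalDegree ≤ D) (hg : g.totalDegree ≤ K) (hK : 1 ≤ K) (hD : 1 ≤ D) :
    (phc F g c).totalDegree ≤ K * D := by
  unfold phc
  refine (totalDegree_sub _ _).trans (max_le (Pool.CUB46.deg_phi hF hg hK) ?_)
  refine (totalDegree_mul _ _).trans ?_
  rw [totalDegree_C, zero_add]
  exact hg.trans (Nat.le_mul_of_pos_right _ hD)

/-- **A straight path near two graphs**: the polynomial `F (p, g p) - c * g p` is nearly affine. -/
theorem phn_seg [Fintype σ] {F : MvPolynomial (Option σ) ℝ} {g : MvPolynomial σ ℝ} {p : σ → ℝ}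
    {u x c S εu εN : ℝ} (hu : |u - eval p g| ≤ εu) (hx : |x - eval (pn p u) F| ≤ εN)
    (hS : ∀ w, |w - eval p g| ≤ |u - eval p g| → |eval (pn p w) (pderiv none F) - c| ≤ S) :
    |eval p (phc F g c) - (x - c * u)| ≤ εN + S * εu := by
  have h1 := mv_none (F := F) (p := p) (u := u) (v := eval p g) (c := c) (S := S) hS
  have hS0 : 0 ≤ S := (abs_nonneg _).trans (hS (eval p g) (by rw [sub_self, abs_zero]; positivity))
  have h2 : S * |u - eval p g| ≤ S * εu := mul_le_mul_of_nonneg_left hu hS0
  rw [eval_phc]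
  rw [abs_le] at hx h1 ⊢
  constructor <;> linarith [hx.1, hx.2, h1.1, h1.2]

/-- **Two charts**: `F (p, g p) - c * g p + (c - c') * g p` against `F' (p, g' p) - c' * g' p`. -/
theorem phn_dif [Fintype σ] {F F' : MvPolynomial (Option σ) ℝ} {g g' : MvPolynomial σ ℝ}
    {p : σ → ℝ} {c c' S εu εN : ℝ} (hg : |eval p g - eval p g'| ≤ εu)
    (hF : |eval (pn p (eval p g)) F - eval (pn p (eval p g)) F'| ≤ εN)
    (hS : ∀ w, |w - eval p g'| ≤ |eval p g - eval p g'| →
      |eval (pn p w) (pderiv none F') - c'| ≤ S) :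
    |eval p (phc F g c) + (c - c') * eval p g - eval p (phc F' g' c')| ≤ εN + S * εu := by
  have h1 := mv_none (F := F') (p := p) (u := eval p g) (v := eval p g') (c := c') (S := S) hS
  have hS0 : 0 ≤ S := (abs_nonneg _).trans (hS (eval p g') (by rw [sub_self, abs_zero]; positivity))
  have h2 : S * |eval p g - eval p g'| ≤ S * εu := mul_le_mul_of_nonneg_left hg hS0
  rw [eval_phc, eval_phc]
  rw [abs_le] at hF h1 ⊢
  constructor <;> linarith [hF.1, hF.2, h1.1, h1.2]

end Pool.CNC28
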